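import Pool.Agent.H483R3.Urn.Stmts

set_option autoImplicit false

namespace H483U.Cont

open MeasureTheory ProbabilityTheory Filter Topology

theorem NN_nonneg {V : Type} [Fintype V] [DecidableEq V] (G : SimpleGraph V)
    [DecidableRel G.Adj] : 0 ≤ NN G := by
  unfold NN
  positivity

theorem den_pos {V : Type} [Fintype V] [DecidableEq V] (G : SimpleGraph V)
    [DecidableRel G.Adj] (α : ℝ) {x : V → ℝ} (hx : x ∈ K G) {i j : V}
    (h : G.Adj i j) : 0 < x i ^ α + x j ^ α := by
  obtain ⟨h0, -, h2⟩ := hx
  have h3 := h2 i j h
  have h4 : 0 < 1 / (NN G + 1) := by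
    have := NN_nonneg G
    positivity
  have h5 : 0 < x i + x j := lt_of_lt_of_le h4 h3
  rcases (h0 i).lt_or_eq with h6 | h6
  · exact add_pos_of_pos_of_nonneg (Real.rpow_pos_of_pos h6 _) (Real.rpow_nonneg (h0 j) _)
  · have h7 : 0 < x j := by
      rw [← h6, zero_add] at h5
      exact h5
    exact add_pos_of_nonneg_of_pos (Real.rpow_nonneg (h0 i) _) (Real.rpow_pos_of_pos h7 _)

theorem t : TaskCont := by
  intro V _ _ G _ α hα
  refine ⟨?_, ?_, ?_⟩
  · intro i
    unfold vf
    refine ContinuousOn.add (continuous_apply i).neg.continuousOn ?_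
    refine continuousOn_const.mul ?_
    refine continuousOn_finsetSum _ (fun j _ => ?_)
    by_cases h : G.Adj i j
    · refine continuousOn_const.mul ?_
      unfold pr
      refine ContinuousOn.div ?_ ?_ ?_
      · exact ((Real.continuous_rpow_const hα.le).comp (continuous_apply i)).continuousOn
      · exact (((Real.continuous_rpow_const hα.le).comp (continuous_apply i)).add
          ((Real.continuous_rpow_const hα.le).comp (continuous_apply j))).continuousOn
      · intro x hx
        exact (den_pos G α hx h).ne'
    · have : (fun x : V → ℝ => A G i j * pr α (x i) (x j)) = fun _ => 0 := by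
        funext x
        simp [A, h]
      rw [this]
      exact continuousOn_const
  · have hcl : IsClosed (K G) := by
      have h1 : IsClosed {x : V → ℝ | ∀ i, 0 ≤ x i} := by
        have : {x : V → ℝ | ∀ i, 0 ≤ x i} = ⋂ i, {x | 0 ≤ x i} := by
          ext x
          simp
        rw [this]
        exact isClosed_iInter (fun i => isClosed_le continuous_const (continuous_apply i))
      have h2 : IsClosed {x : V → ℝ | ∑ i, x i = 1} :=
        isClosed_eq (continuous_finsetSum _ (fun i _ => continuous_apply i)) continuous_const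
      have h3 : IsClosed {x : V → ℝ | ∀ i j, G.Adj i j → 1 / (NN G + 1) ≤ x i + x j} := by
        have : {x : V → ℝ | ∀ i j, G.Adj i j → 1 / (NN G + 1) ≤ x i + x j} =
            ⋂ i, ⋂ j, ⋂ (_ : G.Adj i j), {x | 1 / (NN G + 1) ≤ x i + x j} := by
          ext x
          simp
        rw [this]
        exact isClosed_iInter (fun i => isClosed_iInter (fun j => isClosed_iInter (fun _ =>
          isClosed_le continuous_const ((continuous_apply i).add (continuous_apply j)))))
      have : K G = {x : V → ℝ | ∀ i, 0 ≤ x i} ∩ ({x : V → ℝ | ∑ i, x i = 1} ∩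
          {x : V → ℝ | ∀ i j, G.Adj i j → 1 / (NN G + 1) ≤ x i + x j}) := by
        ext x
        simp [K]
      rw [this]
      exact h1.inter (h2.inter h3)
    refine IsCompact.of_isClosed_subset (isCompact_Icc (a := (0 : V → ℝ)) (b := 1)) hcl ?_
    intro x hx
    refine ⟨fun i => hx.1 i, fun i => ?_⟩
    have h1 : x i ≤ ∑ j, x j := Finset.single_le_sum (fun j _ => hx.1 j) (Finset.mem_univ i)
    rw [hx.2.1] at h1
    exact h1
  · intro p hp i j
    have hc : ∀ k : V, ContinuousAt (fun x : V → ℝ => x k ^ α) p := fun k =>
      ((Real.continuous_rpow_const hα.le).comp (continuous_apply k)).continuousAt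
    have hd : ∀ a b : V, ContinuousAt (fun x : V → ℝ => pr α (x a) (x b)) p := by
      intro a b
      unfold pr
      refine ContinuousAt.div (hc a) ((hc a).add (hc b)) ?_
      exact (add_pos (Real.rpow_pos_of_pos (hp a) _) (Real.rpow_pos_of_pos (hp b) _)).ne'
    unfold w
    exact continuousAt_const.mul ((hd i j).mul (hd j i))

end H483U.Cont
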