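import Pool.Agent.H483R3.Urn.Stmts

set_option autoImplicit false

/-!
Assembly of the project H483-URN.
-/

namespace H483U.Assembly

open MeasureTheory ProbabilityTheory Filter Topology H483U

theorem one_le_NN {V : Type} [Fintype V] [DecidableEq V] (G : SimpleGraph V)
    [DecidableRel G.Adj] (hG : G.Connected) (hV : 2 ≤ Fintype.card V) : 1 ≤ NN G := by
  have h1 : 0 < Fintype.card G.edgeSet := by
    rw [Fintype.card_pos_iff]
    haveI : Nontrivial V := Fintype.one_lt_card_iff_nontrivial.mp (by omega)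
    obtain ⟨v⟩ := hG.nonempty
    obtain ⟨u, hu⟩ := hG.preconnected.exists_adj_of_nontrivial v
    exact ⟨⟨s(v, u), hu⟩⟩
  unfold NN
  exact_mod_cast h1

theorem pr_nonneg {α a b : ℝ} (ha : 0 ≤ a) (hb : 0 ≤ b) : 0 ≤ pr α a b := by
  unfold pr; positivity

theorem pr_le_one {α a b : ℝ} (ha : 0 ≤ a) (hb : 0 ≤ b) : pr α a b ≤ 1 := by
  unfold pr
  apply div_le_one_of_le₀
  · have := Real.rpow_nonneg hb α; linarith
  · positivity

section
variable {V : Type} [Fintype V] [DecidableEq V] (G : SimpleGraph V) [DecidableRel G.Adj]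

theorem sum_A_le (i : V) : ∑ j, A G i j ≤ NN G := by
  have h1 : ∑ j, A G i j = (G.degree i : ℝ) := by
    unfold A
    rw [Finset.sum_boole, ← SimpleGraph.card_neighborFinset_eq_degree]
    congr 2
    ext j
    simp
  rw [h1]
  unfold NN
  have h2 : G.degree i ≤ Fintype.card G.edgeSet := by
    rw [← G.card_incidenceFinset_eq_degree i, ← SimpleGraph.edgeFinset_card]
    exact Finset.card_le_card (G.incidenceFinset_subset i)
  exact_mod_cast h2

theorem abs_vf_le (hN : 1 ≤ NN G) (α : ℝ) (x : V → ℝ) (h0 : ∀ i, 0 ≤ x i)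
    (h1 : ∑ i, x i = 1) (i : V) : |vf G α x i| ≤ 1 := by
  have hx1 : x i ≤ 1 := by
    rw [← h1]; exact Finset.single_le_sum (fun j _ => h0 j) (Finset.mem_univ i)
  have hA : ∀ j, 0 ≤ A G i j := by intro j; unfold A; split_ifs <;> norm_num
  have hs0 : 0 ≤ ∑ j, A G i j * pr α (x i) (x j) :=
    Finset.sum_nonneg fun j _ => mul_nonneg (hA j) (pr_nonneg (h0 i) (h0 j))
  have hs1 : ∑ j, A G i j * pr α (x i) (x j) ≤ NN G := by
    refine le_trans (Finset.sum_le_sum fun j _ => ?_) (sum_A_le G i)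
    have := pr_le_one (α := α) (h0 i) (h0 j)
    nlinarith [hA j]
  have hN0 : 0 < NN G := by linarith
  have h2 : 0 ≤ (1 / NN G) * ∑ j, A G i j * pr α (x i) (x j) := by positivity
  have h3 : (1 / NN G) * ∑ j, A G i j * pr α (x i) (x j) ≤ 1 := by
    rw [one_div, inv_mul_le_iff₀ hN0]; linarith
  unfold vf
  rw [abs_le]
  constructor <;> linarith [h0 i]

end

theorem final (hLow : TaskLow) (hCont : TaskCont) (hDich : TaskDich) (hGap : TaskGap)
    (hFin : TaskFin) (hUnst : TaskUnst) (hDiag : TaskDiag) (hTaylor : TaskTaylor)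
    (hUrnA : TaskUrnA) (hUrnB : TaskUrnB) (hEdge : TaskEdge) (hLyap : TaskLyap)
    (hConv : TaskConv) (hN1 : TaskN1) (hN2 : TaskN2) (hN3 : TaskN3) (hN4 : TaskN4)
    (hN5 : TaskN5) (hN6 : TaskN6) (hInt : TaskInt) : Final := by
  intro V _ _ G _ hG hV
  have hN := one_le_NN G hG hV
  obtain ⟨α₁, hα₁⟩ := hGap hLow hDich V G hN
  refine ⟨max 2 α₁, ?_⟩
  intro α hα B0 hB0 Ω mΩ μ hμ ℱ c hc
  have hα2 : 2 < α := lt_of_le_of_lt (le_max_left _ _) hα
  have hgap : Gap G α := hα₁ α ((le_max_right _ _).trans hα.le)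
  have hfin := hFin hLow hCont V G hN α hα2.le hgap
  obtain ⟨hc0, hstep, hxm, hξm, hbd, hpos, htot, n0, hreg⟩ :=
    hUrnA V G hN α (by linarith) B0 hB0 Ω mΩ μ hμ ℱ c hc
  obtain ⟨hmean, hvar⟩ := hUrnB V G hN α (by linarith) B0 hB0 Ω mΩ μ hμ ℱ c hc
  set c0 : ℝ := 1 + (∑ j, (B0 j : ℝ)) / NN G with hc0def
  have hSA : SA G α μ ℱ c0 (xx G B0 c) (xi G α B0 c) :=
    ⟨hc0, hstep, hxm, hξm, hbd, hmean, hvar, hpos, htot, n0, hreg⟩
  have hsum := hLyap hEdge V G hN α (by linarith) Ω mΩ μ hμ ℱ c0 _ _ hSA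
  have hNC : NonConv := hN6 hN1 hN2 hN3 hN4 hN5
  -- no convergence to interior equilibria
  have hint : ∀ p ∈ {x | x ∈ K G ∧ ∀ i, vf G α x i = 0}, ∀ᵐ ω ∂μ, (∀ i, 0 < p i) →
      ¬ Tendsto (fun n => xx G B0 c n ω) atTop (𝓝 p) := by
    intro p hp
    by_cases hp0 : ∀ i, 0 < p i
    · filter_upwards [hInt hNC hUnst hDiag hTaylor hCont V G hN α hα2 hgap Ω mΩ μ hμ ℱ c0 _ _ hSA
        p hp.1 hp0 hp.2] with ω hω _ using hω
    · exact Filter.Eventually.of_forall fun ω h => absurd h hp0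
  have hint2 : ∀ᵐ ω ∂μ, ∀ p ∈ {x | x ∈ K G ∧ ∀ i, vf G α x i = 0}, (∀ i, 0 < p i) →
      ¬ Tendsto (fun n => xx G B0 c n ω) atTop (𝓝 p) :=
    (ae_ball_iff hfin.countable).mpr hint
  obtain ⟨hvfc, hKc, -⟩ := hCont V G α (by linarith)
  filter_upwards [hsum, hint2] with ω hω1 hω2
  have hstep' : ∀ n : ℕ, ‖xx G B0 c (n + 1) ω - xx G B0 c n ω‖ ≤ 2 / (n + c0) := by
    intro n
    have hn : (0 : ℝ) < n + c0 := by positivity
    rw [pi_norm_le_iff_of_nonneg (by positivity)]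
    intro i
    rw [Pi.sub_apply, hstep n ω i, add_sub_cancel_left, Real.norm_eq_abs, abs_mul,
      abs_of_pos (by positivity : (0 : ℝ) < 1 / (n + c0))]
    have h1 := abs_vf_le G hN α (xx G B0 c n ω) (fun i => (hpos n ω i).le) (htot n ω) i
    have h2 := hbd n ω i
    have h3 : |vf G α (xx G B0 c n ω) i + xi G α B0 c n ω i| ≤ 2 :=
      (abs_add_le _ _).trans (by linarith)
    calc 1 / (n + c0) * |vf G α (xx G B0 c n ω) i + xi G α B0 c n ω i|
        ≤ 1 / (n + c0) * 2 := by gcongr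
      _ = 2 / (n + c0) := by ring
  have hfzero : {x | x ∈ K G ∧ ∑ i, (vf G α x i) ^ 2 = 0}.Finite := by
    refine hfin.subset ?_
    rintro x ⟨hx, hx2⟩
    refine ⟨hx, fun i => ?_⟩
    have := (Finset.sum_eq_zero_iff_of_nonneg (fun j _ => sq_nonneg (vf G α x j))).mp hx2 i
      (Finset.mem_univ i)
    simpa using this
  obtain ⟨p, hpK, hp0, hpt⟩ := hConv V (K G) (fun x => ∑ i, (vf G α x i) ^ 2) hKc
    (continuousOn_finset_sum _ fun i _ => (hvfc i).pow 2)
    (fun x _ => Finset.sum_nonneg fun i _ => sq_nonneg _) hfzero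
    (fun n => xx G B0 c n ω) 2 c0 hc0 (eventually_atTop.mpr ⟨n0, fun n hn => hreg n hn ω⟩)
    hstep' hω1
  have hpz : ∀ i, vf G α p i = 0 := by
    intro i
    have := (Finset.sum_eq_zero_iff_of_nonneg (fun j _ => sq_nonneg (vf G α p j))).mp hp0 i
      (Finset.mem_univ i)
    simpa using this
  refine ⟨p, hpK.1, hpK.2.1, ?_, hpt⟩
  by_contra hne
  push_neg at hne
  exact hω2 p ⟨hpK, hpz⟩ (fun i => lt_of_le_of_ne (hpK.1 i) (Ne.symm (hne i))) hpt

end H483U.Assembly
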