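import Mathlib

set_option autoImplicit false

/-!
Project H483-URN (MP_cd93fa_pr): for every finite connected graph there is `α₀` such that for all
`α > α₀` the graph based Polya urn with exponent `α` converges almost surely to a point of the
boundary of the simplex. Definitions and task statements.
-/

namespace H483U

open MeasureTheory ProbabilityTheory Filter Topology

/-! ### The process -/

/-- the numbers of balls: `c n ω e` is the vertex which receives the ball of the edge `e` at step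
`n + 1` -/
def balls {V Ω : Type} [Fintype V] [DecidableEq V] (G : SimpleGraph V) [DecidableRel G.Adj]
    (B0 : V → ℕ) (c : ℕ → Ω → G.edgeSet → V) : ℕ → Ω → V → ℕ
  | 0, _, i => B0 i
  | n + 1, ω, i => balls G B0 c n ω i +
      (Finset.univ.filter (fun e : G.edgeSet => c n ω e = i)).card

/-- the graph based Polya urn with exponent `α` and initial configuration `B0`: given the past, the
edges act independently of each other, and the ball of the edge `e = {i, j}` goes to `i` with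
probability `B_i ^ α / (B_i ^ α + B_j ^ α)`. -/
structure IsUrn {V Ω : Type} [Fintype V] [DecidableEq V] (G : SimpleGraph V)
    [DecidableRel G.Adj] (α : ℝ) (B0 : V → ℕ) [MeasurableSpace Ω] (μ : Measure Ω)
    (ℱ : Filtration ℕ ‹MeasurableSpace Ω›) (c : ℕ → Ω → G.edgeSet → V) : Prop where
  mem : ∀ n ω (e : G.edgeSet), c n ω e ∈ (e : Sym2 V)
  meas : ∀ n (e : G.edgeSet) (i : V), MeasurableSet[ℱ (n + 1)] {ω | c n ω e = i}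
  law : ∀ n (s : G.edgeSet → V), (∀ e : G.edgeSet, s e ∈ (e : Sym2 V)) →
    μ[Set.indicator {ω | c n ω = s} (fun _ => (1 : ℝ)) | ℱ n] =ᵐ[μ]
      fun ω => ∏ e : G.edgeSet, (balls G B0 c n ω (s e) : ℝ) ^ α /
        ∑ k ∈ (e : Sym2 V).toFinset, (balls G B0 c n ω k : ℝ) ^ α

/-- the normalised process -/
noncomputable def xx {V Ω : Type} [Fintype V] [DecidableEq V] (G : SimpleGraph V)
    [DecidableRel G.Adj] (B0 : V → ℕ) (c : ℕ → Ω → G.edgeSet → V) (n : ℕ) (ω : Ω) (i : V) : ℝ :=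
  (balls G B0 c n ω i : ℝ) / ((∑ j, (B0 j : ℝ)) + n * (Fintype.card G.edgeSet : ℝ))

/-- the final statement -/
def Final : Prop := ∀ (V : Type) [Fintype V] [DecidableEq V] (G : SimpleGraph V)
    [DecidableRel G.Adj], G.Connected → 2 ≤ Fintype.card V →
    ∃ α₀ : ℝ, ∀ α : ℝ, α₀ < α → ∀ B0 : V → ℕ, (∀ i, 1 ≤ B0 i) →
      ∀ (Ω : Type) (_ : MeasurableSpace Ω) (μ : Measure Ω) (_ : IsProbabilityMeasure μ)
        (ℱ : Filtration ℕ ‹MeasurableSpace Ω›) (c : ℕ → Ω → G.edgeSet → V),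
        IsUrn G α B0 μ ℱ c → ∀ᵐ ω ∂μ, ∃ x : V → ℝ, (∀ i, 0 ≤ x i) ∧ ∑ i, x i = 1 ∧
          (∃ i, x i = 0) ∧ Tendsto (fun n => xx G B0 c n ω) atTop (𝓝 x)

/-! ### The vector field -/

section
variable {V : Type} [Fintype V] [DecidableEq V] (G : SimpleGraph V) [DecidableRel G.Adj]

/-- adjacency as a real number -/
noncomputable def A (i j : V) : ℝ := if G.Adj i j then 1 else 0

/-- number of edges -/
noncomputable def NN : ℝ := (Fintype.card G.edgeSet : ℝ)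

/-- probability that the ball of the edge goes to the end point of weight `a` -/
noncomputable def pr (α a b : ℝ) : ℝ := a ^ α / (a ^ α + b ^ α)

/-- the mean field -/
noncomputable def vf (α : ℝ) (x : V → ℝ) (i : V) : ℝ :=
  - x i + (1 / NN G) * ∑ j, A G i j * pr α (x i) (x j)

/-- the weights of the edges -/
noncomputable def w (α : ℝ) (x : V → ℝ) (i j : V) : ℝ :=
  A G i j * (pr α (x i) (x j) * pr α (x j) (x i))

/-- the region which contains the process after some deterministic time -/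
def K : Set (V → ℝ) := {x | (∀ i, 0 ≤ x i) ∧ ∑ i, x i = 1 ∧
  ∀ i j, G.Adj i j → 1 / (NN G + 1) ≤ x i + x j}

/-- lower bound of the nonzero coordinates of equilibria -/
noncomputable def dl : ℝ := NN G / (4 * (Fintype.card V : ℝ) * (NN G + 1) ^ 2)

end

/-! ### Equilibria -/

/-- T1: nonzero coordinates of an equilibrium are at least `dl`. -/
def TaskLow : Prop := ∀ (V : Type) [Fintype V] [DecidableEq V] (G : SimpleGraph V)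
    [DecidableRel G.Adj], 1 ≤ NN G → ∀ α : ℝ, 2 ≤ α → ∀ x ∈ K G, (∀ i, vf G α x i = 0) →
    ∀ i, x i ≠ 0 → dl G ≤ x i

/-- T2: for an equilibrium, the weights are exponentially small or bounded below. -/
def TaskDich : Prop := ∀ (V : Type) [Fintype V] [DecidableEq V] (G : SimpleGraph V)
    [DecidableRel G.Adj], 1 ≤ NN G → ∃ w0 c C α₁ : ℝ, 0 < w0 ∧ 0 < c ∧ ∀ α : ℝ, α₁ ≤ α →
    ∀ x ∈ K G, (∀ i, vf G α x i = 0) → ∀ i j,
      w G α x i j ≤ C * Real.exp (-(c * α)) ∨ w0 ≤ w G α x i j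

/-- spectral gap at the equilibria of exponent `α` -/
def Gap {V : Type} [Fintype V] [DecidableEq V] (G : SimpleGraph V) [DecidableRel G.Adj]
    (α : ℝ) : Prop :=
  ∀ x ∈ K G, (∀ i, vf G α x i = 0) → ∀ (t : ℝ) (φ : V → ℝ), 0 ≤ t → t < 2 →
    (∃ i, x i ≠ 0 ∧ φ i ≠ 0) →
    (∀ i, x i ≠ 0 → α / NN G * ∑ j, w G α x i j * (φ i - φ j) = t * x i * φ i) → t ≤ 1 / 2

/-- T3: linear algebra. -/
def TaskGap : Prop := TaskLow → TaskDich → ∀ (V : Type) [Fintype V] [DecidableEq V]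
    (G : SimpleGraph V) [DecidableRel G.Adj], 1 ≤ NN G → ∃ α₁ : ℝ, ∀ α : ℝ, α₁ ≤ α → Gap G α

/-- T8: continuity. -/
def TaskCont : Prop := ∀ (V : Type) [Fintype V] [DecidableEq V] (G : SimpleGraph V)
    [DecidableRel G.Adj] (α : ℝ), 0 < α →
    (∀ i, ContinuousOn (fun x => vf G α x i) (K G)) ∧ IsCompact (K G) ∧
    (∀ p : V → ℝ, (∀ i, 0 < p i) → ∀ i j, ContinuousAt (fun x => w G α x i j) p)

/-- T4: finitely many equilibria. -/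
def TaskFin : Prop := TaskLow → TaskCont → ∀ (V : Type) [Fintype V] [DecidableEq V]
    (G : SimpleGraph V) [DecidableRel G.Adj], 1 ≤ NN G → ∀ α : ℝ, 2 ≤ α → Gap G α →
    {x | x ∈ K G ∧ ∀ i, vf G α x i = 0}.Finite

/-- T5: instability at interior equilibria. -/
def TaskUnst : Prop := ∀ (V : Type) [Fintype V] [DecidableEq V] (G : SimpleGraph V)
    [DecidableRel G.Adj], 1 ≤ NN G → ∀ α : ℝ, 2 < α → ∀ p : V → ℝ, (∀ i, 0 < p i) →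
    (∀ i, vf G α p i = 0) →
    ∃ φ : V → ℝ, ∑ i, p i * φ i ^ 2 <
      α / NN G * ((1 / 2) * ∑ i, ∑ j, w G α p i j * (φ i - φ j) ^ 2)

/-- T6: diagonalisation at an interior equilibrium. -/
def TaskDiag : Prop := TaskUnst → ∀ (V : Type) [Fintype V] [DecidableEq V] (G : SimpleGraph V)
    [DecidableRel G.Adj], 1 ≤ NN G → ∀ α : ℝ, 2 < α → Gap G α → ∀ p ∈ K G, (∀ i, 0 < p i) →
    (∀ i, vf G α p i = 0) →
    ∃ (lam : V → ℝ) (U W : V → V → ℝ) (l₀ : V),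
      (∀ l, lam l ≤ -(1 / 2) ∨ 1 ≤ lam l) ∧ 1 ≤ lam l₀ ∧
      (∀ h : V → ℝ, ∀ i, h i = ∑ l, W i l * ∑ j, U l j * h j) ∧
      (∀ y : V → ℝ, ∀ l, y l = ∑ i, U l i * ∑ k, W i k * y k) ∧
      (∀ (h : V → ℝ) (l : V),
        ∑ i, U l i * (- h i + α / NN G * ∑ j, w G α p i j * (h i / p i - h j / p j)) =
          lam l * ∑ i, U l i * h i) ∧
      0 < ∑ i, ∑ j, w G α p i j * (U l₀ i - U l₀ j) ^ 2

/-- T7: second order Taylor bound at a point with positive coordinates. -/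
def TaskTaylor : Prop := ∀ (V : Type) [Fintype V] [DecidableEq V] (G : SimpleGraph V)
    [DecidableRel G.Adj] (α : ℝ) (p : V → ℝ), (∀ i, 0 < p i) → ∃ C ρ : ℝ, 0 < ρ ∧
    ∀ x : V → ℝ, ‖x - p‖ ≤ ρ → ∀ i,
      |vf G α x i - vf G α p i -
        (-(x i - p i) + α / NN G * ∑ j, w G α p i j * ((x i - p i) / p i - (x j - p j) / p j))|
        ≤ C * ‖x - p‖ ^ 2

/-! ### Stochastic approximation -/

/-- the data of the stochastic approximation; `ξ n` is the noise of the step from `n` to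
`n + 1` -/
structure SA {V Ω : Type} [Fintype V] [DecidableEq V] (G : SimpleGraph V)
    [DecidableRel G.Adj] (α : ℝ) [MeasurableSpace Ω] (μ : Measure Ω)
    (ℱ : Filtration ℕ ‹MeasurableSpace Ω›) (c0 : ℝ) (x ξ : ℕ → Ω → V → ℝ) : Prop where
  c0pos : 0 < c0
  step : ∀ n ω i, x (n + 1) ω i = x n ω i + 1 / (n + c0) * (vf G α (x n ω) i + ξ n ω i)
  xmeas : ∀ n i, Measurable[ℱ n] (fun ω => x n ω i)
  ξmeas : ∀ n i, Measurable[ℱ (n + 1)] (fun ω => ξ n ω i)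
  bound : ∀ n ω i, |ξ n ω i| ≤ 1
  mean : ∀ n i, μ[fun ω => ξ n ω i | ℱ n] =ᵐ[μ] 0
  var : ∀ n (φ : V → ℝ), μ[fun ω => (∑ i, φ i * ξ n ω i) ^ 2 | ℱ n] =ᵐ[μ]
    fun ω => 1 / (2 * NN G ^ 2) * ∑ i, ∑ j, w G α (x n ω) i j * (φ i - φ j) ^ 2
  pos : ∀ n ω i, 0 < x n ω i
  tot : ∀ n ω, ∑ i, x n ω i = 1
  reg : ∃ n0, ∀ n, n0 ≤ n → ∀ ω, x n ω ∈ K G

/-- the noise of the urn -/
noncomputable def xi {V Ω : Type} [Fintype V] [DecidableEq V] (G : SimpleGraph V)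
    [DecidableRel G.Adj] (α : ℝ) (B0 : V → ℕ) (c : ℕ → Ω → G.edgeSet → V) (n : ℕ) (ω : Ω)
    (i : V) : ℝ :=
  (1 / NN G) * (((Finset.univ.filter (fun e : G.edgeSet => c n ω e = i)).card : ℝ) -
    ∑ j, A G i j * pr α (xx G B0 c n ω i) (xx G B0 c n ω j))

/-- P0a: everything about the urn except the conditional mean and variance. -/
def TaskUrnA : Prop := ∀ (V : Type) [Fintype V] [DecidableEq V] (G : SimpleGraph V)
    [DecidableRel G.Adj], 1 ≤ NN G → ∀ (α : ℝ), 0 < α → ∀ (B0 : V → ℕ), (∀ i, 1 ≤ B0 i) →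
    ∀ (Ω : Type) (_ : MeasurableSpace Ω) (μ : Measure Ω) (_ : IsProbabilityMeasure μ)
      (ℱ : Filtration ℕ ‹MeasurableSpace Ω›) (c : ℕ → Ω → G.edgeSet → V),
      IsUrn G α B0 μ ℱ c →
      0 < 1 + (∑ j, (B0 j : ℝ)) / NN G ∧
      (∀ n ω i, xx G B0 c (n + 1) ω i = xx G B0 c n ω i +
        1 / (n + (1 + (∑ j, (B0 j : ℝ)) / NN G)) *
          (vf G α (xx G B0 c n ω) i + xi G α B0 c n ω i)) ∧
      (∀ n i, Measurable[ℱ n] (fun ω => xx G B0 c n ω i)) ∧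
      (∀ n i, Measurable[ℱ (n + 1)] (fun ω => xi G α B0 c n ω i)) ∧
      (∀ n ω i, |xi G α B0 c n ω i| ≤ 1) ∧
      (∀ n ω i, 0 < xx G B0 c n ω i) ∧
      (∀ n ω, ∑ i, xx G B0 c n ω i = 1) ∧
      (∃ n0, ∀ n, n0 ≤ n → ∀ ω, xx G B0 c n ω ∈ K G)

/-- P0b: conditional mean and variance of the noise. -/
def TaskUrnB : Prop := ∀ (V : Type) [Fintype V] [DecidableEq V] (G : SimpleGraph V)
    [DecidableRel G.Adj], 1 ≤ NN G → ∀ (α : ℝ), 0 < α → ∀ (B0 : V → ℕ), (∀ i, 1 ≤ B0 i) →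
    ∀ (Ω : Type) (_ : MeasurableSpace Ω) (μ : Measure Ω) (_ : IsProbabilityMeasure μ)
      (ℱ : Filtration ℕ ‹MeasurableSpace Ω›) (c : ℕ → Ω → G.edgeSet → V),
      IsUrn G α B0 μ ℱ c →
      (∀ n i, μ[fun ω => xi G α B0 c n ω i | ℱ n] =ᵐ[μ] 0) ∧
      (∀ n (φ : V → ℝ), μ[fun ω => (∑ i, φ i * xi G α B0 c n ω i) ^ 2 | ℱ n] =ᵐ[μ]
        fun ω => 1 / (2 * NN G ^ 2) *
          ∑ i, ∑ j, w G α (xx G B0 c n ω) i j * (φ i - φ j) ^ 2)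

/-- P1a: the Lyapunov function, one edge. -/
def TaskEdge : Prop := ∀ (α r : ℝ), 1 ≤ α → 0 < r → ∃ C : ℝ, 0 ≤ C ∧
    ∀ a b a' b' : ℝ, 0 < a → 0 < b → 0 < a' → 0 < b' → a ≤ 1 → b ≤ 1 → a' ≤ 1 → b' ≤ 1 →
      r ≤ a + b → r ≤ a' + b' →
      1 / α * Real.log (a ^ α + b ^ α) + (a ^ (α - 1) * (a' - a) + b ^ (α - 1) * (b' - b)) /
        (a ^ α + b ^ α) - C * ((a' - a) ^ 2 + (b' - b) ^ 2) ≤
        1 / α * Real.log (a' ^ α + b' ^ α)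

/-- P1b: the Lyapunov argument. -/
def TaskLyap : Prop := TaskEdge → ∀ (V : Type) [Fintype V] [DecidableEq V] (G : SimpleGraph V)
    [DecidableRel G.Adj], 1 ≤ NN G → ∀ (α : ℝ), 1 ≤ α →
    ∀ (Ω : Type) (_ : MeasurableSpace Ω) (μ : Measure Ω) (_ : IsProbabilityMeasure μ)
      (ℱ : Filtration ℕ ‹MeasurableSpace Ω›) (c0 : ℝ) (x ξ : ℕ → Ω → V → ℝ),
      SA G α μ ℱ c0 x ξ →
      ∀ᵐ ω ∂μ, Summable (fun n : ℕ => 1 / (n + c0) * ∑ i, (vf G α (x n ω) i) ^ 2)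

/-- P2: a sequence with small steps in a compact set. -/
def TaskConv : Prop := ∀ (V : Type) [Fintype V] [DecidableEq V] (S : Set (V → ℝ))
    (f : (V → ℝ) → ℝ), IsCompact S → ContinuousOn f S → (∀ x ∈ S, 0 ≤ f x) →
    {x | x ∈ S ∧ f x = 0}.Finite → ∀ (x : ℕ → V → ℝ) (C c0 : ℝ), 0 < c0 →
    (∀ᶠ n in atTop, x n ∈ S) → (∀ n : ℕ, ‖x (n + 1) - x n‖ ≤ C / (n + c0)) →
    Summable (fun n : ℕ => 1 / (n + c0) * f (x n)) →
    ∃ p ∈ S, f p = 0 ∧ Tendsto x atTop (𝓝 p)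

/-! ### Nonconvergence -/

/-- N1: deterministic estimate. -/
def TaskN1 : Prop := ∀ (V : Type) [Fintype V] [Nonempty V] (lam : V → ℝ),
    (∀ l, lam l ≤ -(1 / 2) ∨ 1 ≤ lam l) → ∀ (c0 C : ℝ), 0 < c0 → 0 ≤ C →
    ∀ (u e : ℕ → V → ℝ), (∀ n l, u (n + 1) l = u n l + 1 / (n + c0) * (lam l * u n l + e n l)) →
    (∀ᶠ n : ℕ in atTop, ∀ l, |e n l| ≤ 1 / 32 * ‖u n‖ + C * ((n : ℝ) + 1) ^ (-(3 / 8) : ℝ)) →
    Tendsto u atTop (𝓝 0) → ∃ C' : ℝ, ∀ n : ℕ, ‖u n‖ ≤ C' * ((n : ℝ) + 1) ^ (-(3 / 8) : ℝ)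

/-- N2: tails of the noise. -/
def TaskN2 : Prop := ∀ (Ω : Type) (_ : MeasurableSpace Ω) (μ : Measure Ω)
    (_ : IsProbabilityMeasure μ) (ℱ : Filtration ℕ ‹MeasurableSpace Ω›) (c0 C : ℝ)
    (ζ : ℕ → Ω → ℝ), 0 < c0 → (∀ n, Measurable[ℱ (n + 1)] (ζ n)) → (∀ n ω, |ζ n ω| ≤ C) →
    (∀ n, μ[ζ n | ℱ n] =ᵐ[μ] 0) →
    ∀ᵐ ω ∂μ, ∃ T : ℕ → ℝ, (∀ n : ℕ, T n = T (n + 1) + 1 / (n + c0) * ζ n ω) ∧
      ∃ C' : ℝ, ∀ n : ℕ, |T n| ≤ C' * ((n : ℝ) + 1) ^ (-(3 / 8) : ℝ)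

/-- the partial sums -/
noncomputable def SS {Ω : Type} (b : ℕ → ℝ) (ζ : ℕ → Ω → ℝ) (n m : ℕ) (ω : Ω) : ℝ :=
  ∑ k ∈ Finset.Ico n m, b k * ζ k ω

/-- N3: anticoncentration for one finite sum. -/
def TaskN3 : Prop := ∀ (C σ : ℝ), 0 < C → 0 < σ → ∃ ε : ℝ, 0 < ε ∧
    ∀ (Ω : Type) (_ : MeasurableSpace Ω) (μ : Measure Ω)
    (_ : IsProbabilityMeasure μ) (ℱ : Filtration ℕ ‹MeasurableSpace Ω›)
    (ζ : ℕ → Ω → ℝ) (b : ℕ → ℝ) (D : ℕ → Set Ω) (n m : ℕ) (Z : Ω → ℝ) (H E : Set Ω),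
    n < m → (∀ k, 0 < b k) → (∀ k, Measurable[ℱ (k + 1)] (ζ k)) → (∀ k ω, |ζ k ω| ≤ C) →
    (∀ k, μ[ζ k | ℱ k] =ᵐ[μ] 0) →
    (∀ k, ∀ᵐ ω ∂μ, ω ∈ D k → σ ≤ (μ[fun ω => (ζ k ω) ^ 2 | ℱ k]) ω) →
    (∀ k, MeasurableSet[ℱ k] (D k)) → MeasurableSet[ℱ n] H → Measurable[ℱ n] Z →
    MeasurableSet E → E ⊆ H → μ.real (H \ E) ≤ ε * μ.real H →
    (∀ k, n ≤ k → E ⊆ D k) →
    (∀ ω ∈ E, |Z ω + SS b ζ n m ω| ≤ ε * Real.sqrt (∑ k ∈ Finset.Ico n m, b k ^ 2)) →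
    μ.real H = 0

/-- N4: the event has probability zero. -/
def TaskN4 : Prop := TaskN3 → ∀ (C σ : ℝ), 0 < C → 0 < σ →
    ∀ (Ω : Type) (_ : MeasurableSpace Ω) (μ : Measure Ω)
    (_ : IsProbabilityMeasure μ) (ℱ : Filtration ℕ ‹MeasurableSpace Ω›)
    (ζ : ℕ → Ω → ℝ) (b : ℕ → ℝ) (D : ℕ → Set Ω) (Z : ℕ → Ω → ℝ) (E : Set Ω),
    (∀ k, 0 < b k) → (∀ k, Measurable[ℱ (k + 1)] (ζ k)) → (∀ k ω, |ζ k ω| ≤ C) →
    (∀ k, μ[ζ k | ℱ k] =ᵐ[μ] 0) →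
    (∀ k, ∀ᵐ ω ∂μ, ω ∈ D k → σ ≤ (μ[fun ω => (ζ k ω) ^ 2 | ℱ k]) ω) →
    (∀ k, MeasurableSet[ℱ k] (D k)) → (∀ k, Measurable[ℱ k] (Z k)) →
    MeasurableSet[⨆ n, ℱ n] E →
    (∀ᵐ ω ∂μ, ω ∈ E → (∀ᶠ k in atTop, ω ∈ D k) ∧
      ∀ δ : ℝ, 0 < δ → ∀ᶠ n in atTop, ∀ᶠ m in atTop,
        |Z n ω + SS b ζ n m ω| ≤ δ * Real.sqrt (∑ k ∈ Finset.Ico n m, b k ^ 2)) →
    μ E = 0

/-- the weights -/
noncomputable def Pi (c0 lam : ℝ) (n : ℕ) : ℝ := ∏ k ∈ Finset.range n, (1 + 1 / (k + c0) * lam)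

/-- the weights -/
noncomputable def bb (c0 lam : ℝ) (n : ℕ) : ℝ := 1 / (n + c0) / Pi c0 lam (n + 1)

/-- N5: deterministic estimate for the weights. -/
def TaskN5 : Prop := ∀ (c0 lam : ℝ), 0 < c0 → 1 ≤ lam →
    Tendsto (fun n => Pi c0 lam n) atTop atTop ∧
    ∀ δ : ℝ, 0 < δ → ∀ᶠ n in atTop, ∀ᶠ m in atTop,
      ∑ k ∈ Finset.Ico n m, bb c0 lam k * ((k : ℝ) + 1) ^ (-(3 / 4) : ℝ) ≤
        δ * Real.sqrt (∑ k ∈ Finset.Ico n m, bb c0 lam k ^ 2)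

/-- N6: the nonconvergence theorem in diagonal coordinates. -/
def NonConv : Prop := ∀ (V : Type) [Fintype V] [DecidableEq V] (lam : V → ℝ) (l₀ : V),
    (∀ l, lam l ≤ -(1 / 2) ∨ 1 ≤ lam l) → 1 ≤ lam l₀ →
    ∀ (Ω : Type) (_ : MeasurableSpace Ω) (μ : Measure Ω)
    (_ : IsProbabilityMeasure μ) (ℱ : Filtration ℕ ‹MeasurableSpace Ω›) (c0 C ρ σ : ℝ)
    (y ζ : ℕ → Ω → V → ℝ) (R : ℕ → Ω → V → ℝ), 0 < c0 → 0 < C → 0 < ρ → 0 < σ →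
    (∀ n ω l, y (n + 1) ω l = y n ω l + 1 / (n + c0) * (lam l * y n ω l + R n ω l + ζ n ω l)) →
    (∀ n ω l, ‖y n ω‖ ≤ ρ → |R n ω l| ≤ C * ‖y n ω‖ ^ 2) →
    (∀ n l, Measurable[ℱ n] (fun ω => y n ω l)) →
    (∀ n l, Measurable[ℱ (n + 1)] (fun ω => ζ n ω l)) →
    (∀ n ω l, |ζ n ω l| ≤ C) → (∀ n l, μ[fun ω => ζ n ω l | ℱ n] =ᵐ[μ] 0) →
    (∀ n, ∀ᵐ ω ∂μ, ‖y n ω‖ < ρ → σ ≤ (μ[fun ω => (ζ n ω l₀) ^ 2 | ℱ n]) ω) →
    ∀ᵐ ω ∂μ, ¬ Tendsto (fun n => y n ω) atTop (𝓝 0)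

/-- N6: assembly of the nonconvergence theorem -/
def TaskN6 : Prop := TaskN1 → TaskN2 → TaskN3 → TaskN4 → TaskN5 → NonConv

/-- nonconvergence to interior equilibria -/
def TaskInt : Prop := NonConv → TaskUnst → TaskDiag → TaskTaylor → TaskCont →
    ∀ (V : Type) [Fintype V] [DecidableEq V] (G : SimpleGraph V)
    [DecidableRel G.Adj], 1 ≤ NN G → ∀ (α : ℝ), 2 < α → Gap G α →
    ∀ (Ω : Type) (_ : MeasurableSpace Ω) (μ : Measure Ω) (_ : IsProbabilityMeasure μ)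
      (ℱ : Filtration ℕ ‹MeasurableSpace Ω›) (c0 : ℝ) (x ξ : ℕ → Ω → V → ℝ),
      SA G α μ ℱ c0 x ξ → ∀ p ∈ K G, (∀ i, 0 < p i) → (∀ i, vf G α p i = 0) →
      ∀ᵐ ω ∂μ, ¬ Tendsto (fun n => x n ω) atTop (𝓝 p)

end H483U
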