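import Mathlib
import Pool.Agent.H483R3.Urn.Stmts

/-! TaskGap of project H483-URN (helper483), by helper471. -/

set_option autoImplicit false

namespace H483U.Gap

open Finset H483U

section
variable {V : Type} [Fintype V] [DecidableEq V] (G : SimpleGraph V) [DecidableRel G.Adj]

theorem pr_nonneg {α a b : ℝ} (ha : 0 ≤ a) (hb : 0 ≤ b) : 0 ≤ pr α a b := by
  unfold pr
  have h1 := Real.rpow_nonneg ha α
  have h2 := Real.rpow_nonneg hb α
  positivity

theorem A_nonneg (i j : V) : 0 ≤ A G i j := by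
  unfold A; split_ifs <;> norm_num

theorem A_symm (i j : V) : A G i j = A G j i := by
  unfold A; simp [G.adj_comm]

theorem w_nonneg {α : ℝ} {x : V → ℝ} (hx : ∀ i, 0 ≤ x i) (i j : V) : 0 ≤ w G α x i j :=
  mul_nonneg (A_nonneg G i j) (mul_nonneg (pr_nonneg (hx i) (hx j)) (pr_nonneg (hx j) (hx i)))

theorem w_symm (α : ℝ) (x : V → ℝ) (i j : V) : w G α x i j = w G α x j i := by
  unfold w; rw [A_symm, mul_comm (pr α (x i) (x j))]

theorem w_zero {α : ℝ} (hα : 0 < α) {x : V → ℝ} {i : V} (hi : x i = 0) (j : V) :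
    w G α x i j = 0 := by
  unfold w pr
  rw [hi, Real.zero_rpow hα.ne']
  simp

theorem w_zero' {α : ℝ} (hα : 0 < α) {x : V → ℝ} {j : V} (hj : x j = 0) (i : V) :
    w G α x i j = 0 := by
  rw [w_symm]; exact w_zero G hα hj i

end

theorem energy {V : Type} [Fintype V] (w : V → V → ℝ) (hs : ∀ i j, w i j = w j i) (φ : V → ℝ) :
    ∑ i, φ i * ∑ j, w i j * (φ i - φ j) = 1 / 2 * ∑ i, ∑ j, w i j * (φ i - φ j) ^ 2 := by
  have h1 : ∑ i, φ i * ∑ j, w i j * (φ i - φ j) = ∑ i, ∑ j, w i j * (φ i * (φ i - φ j)) := by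
    refine sum_congr rfl fun i _ => ?_
    rw [mul_sum]
    exact sum_congr rfl fun j _ => by ring
  have h2 : ∑ i, ∑ j, w i j * (φ i * (φ i - φ j)) = ∑ i, ∑ j, w i j * (φ j * (φ j - φ i)) := by
    rw [sum_comm]
    refine sum_congr rfl fun i _ => sum_congr rfl fun j _ => ?_
    rw [hs j i]
  have h3 : ∑ i, ∑ j, w i j * (φ i - φ j) ^ 2 =
      ∑ i, ∑ j, w i j * (φ i * (φ i - φ j)) + ∑ i, ∑ j, w i j * (φ j * (φ j - φ i)) := by
    rw [← sum_add_distrib]
    refine sum_congr rfl fun i _ => ?_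
    rw [← sum_add_distrib]
    exact sum_congr rfl fun j _ => by ring
  rw [h1, h3, ← h2]
  ring

theorem cut {V : Type} [Fintype V] [DecidableEq V] (w : V → V → ℝ) (hs : ∀ i j, w i j = w j i)
    (φ : V → ℝ) (C : Finset V) :
    ∑ i ∈ C, ∑ j, w i j * (φ i - φ j) = ∑ i ∈ C, ∑ j ∈ Cᶜ, w i j * (φ i - φ j) := by
  have h1 : ∑ i ∈ C, ∑ j ∈ C, w i j * (φ i - φ j) = 0 := by
    have h2 : ∑ i ∈ C, ∑ j ∈ C, w i j * (φ i - φ j) = -∑ i ∈ C, ∑ j ∈ C, w i j * (φ i - φ j) := by
      conv_lhs => rw [sum_comm]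
      rw [← sum_neg_distrib]
      refine sum_congr rfl fun i _ => ?_
      rw [← sum_neg_distrib]
      refine sum_congr rfl fun j _ => ?_
      rw [hs j i]
      ring
    linarith
  have h3 : ∀ i, ∑ j, w i j * (φ i - φ j) =
      ∑ j ∈ C, w i j * (φ i - φ j) + ∑ j ∈ Cᶜ, w i j * (φ i - φ j) := by
    intro i
    rw [sum_add_sum_compl]
  simp only [h3]
  rw [sum_add_distrib, h1, zero_add]

theorem walk_bound {V : Type} (H : SimpleGraph V) (φ : V → ℝ) {z : ℝ}
    (h : ∀ i j, H.Adj i j → |φ i - φ j| ≤ z) {i j : V} (p : H.Walk i j) :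
    |φ i - φ j| ≤ p.length * z := by
  induction p with
  | nil => simp
  | @cons a b c hab q ih =>
    have h1 := h a b hab
    have h2 : |φ a - φ c| ≤ |φ a - φ b| + |φ b - φ c| := abs_sub_le _ _ _
    rw [SimpleGraph.Walk.length_cons]
    push_cast
    linarith

theorem t : TaskGap := by
  intro hLow hDich V _ _ G _ hN
  obtain ⟨w0, c, C, α₁, hw0, hc, hD⟩ := hDich V G hN
  classical
  set m : ℝ := (Fintype.card V : ℝ) with hm
  refine ⟨max (max 2 α₁) (max (16 * NN G * m ^ 2 / w0) (16 * m ^ 2 * |C| / (NN G * dl G * c ^ 2))),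
    fun α hα x hx hv t φ ht0 ht2 hex heq => ?_⟩
  have hα2 : 2 ≤ α := (le_max_left 2 α₁).trans ((le_max_left _ _).trans hα)
  have hα1 : α₁ ≤ α := (le_max_right 2 α₁).trans ((le_max_left _ _).trans hα)
  have hα3 : 16 * NN G * m ^ 2 / w0 ≤ α := (le_max_left _ _).trans ((le_max_right _ _).trans hα)
  have hα4 : 16 * m ^ 2 * |C| / (NN G * dl G * c ^ 2) ≤ α :=
    (le_max_right _ _).trans ((le_max_right _ _).trans hα)
  have hα0 : 0 < α := by linarith
  have hN0 : 0 < NN G := by linarith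
  have hx0 : ∀ i, 0 ≤ x i := hx.1
  have hxs : ∑ i, x i = 1 := hx.2.1
  obtain ⟨i1, hi1, hφ1⟩ := hex
  have hm0 : 1 ≤ m := by
    rw [hm]
    exact_mod_cast Fintype.card_pos_iff.2 ⟨i1⟩
  have hdl : 0 < dl G := by
    unfold dl
    rw [← hm]
    positivity
  -- the equation for all i
  have heq' : ∀ i, α / NN G * ∑ j, w G α x i j * (φ i - φ j) = t * x i * φ i := by
    intro i
    by_cases hi : x i = 0
    · rw [hi]
      simp only [w_zero G hα0 hi, zero_mul, sum_const_zero, mul_zero]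
    · exact heq i hi
  -- the maximum
  obtain ⟨i0, hi0, hmax⟩ := Finset.exists_max_image (univ.filter fun i => x i ≠ 0)
    (fun i => |φ i|) ⟨i1, by simp [hi1]⟩
  simp only [mem_filter, mem_univ, true_and] at hi0 hmax
  set M : ℝ := |φ i0| with hM
  have hM0 : 0 < M := lt_of_lt_of_le (abs_pos.2 hφ1) (hmax i1 hi1)
  -- energy
  have hE : α / NN G * (1 / 2 * ∑ i, ∑ j, w G α x i j * (φ i - φ j) ^ 2) ≤ 2 * M ^ 2 := by
    rw [← energy (fun i j => w G α x i j) (w_symm G α x) φ, mul_sum]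
    have e1 : ∑ i, α / NN G * (φ i * ∑ j, w G α x i j * (φ i - φ j)) =
        ∑ i, t * (x i * φ i ^ 2) := by
      refine sum_congr rfl fun i _ => ?_
      linear_combination φ i * heq' i
    rw [e1, ← mul_sum]
    have e2 : ∑ i, x i * φ i ^ 2 ≤ ∑ i, x i * M ^ 2 := by
      refine sum_le_sum fun i _ => ?_
      by_cases hi : x i = 0
      · simp [hi]
      · have h1 := hmax i hi
        have h2 : φ i ^ 2 ≤ M ^ 2 := by
          rw [← sq_abs (φ i)]
          gcongr
        exact mul_le_mul_of_nonneg_left h2 (hx0 i)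
    rw [← sum_mul, hxs, one_mul] at e2
    have e3 : 0 ≤ ∑ i, x i * φ i ^ 2 := sum_nonneg fun i _ => mul_nonneg (hx0 i) (sq_nonneg _)
    nlinarith
  have hE1 : ∀ i j, w G α x i j * (φ i - φ j) ^ 2 ≤ 4 * NN G * M ^ 2 / α := by
    intro i j
    have e0 : ∀ i j, 0 ≤ w G α x i j * (φ i - φ j) ^ 2 :=
      fun i j => mul_nonneg (w_nonneg G hx0 i j) (sq_nonneg _)
    have e1 : w G α x i j * (φ i - φ j) ^ 2 ≤ ∑ j, w G α x i j * (φ i - φ j) ^ 2 :=
      single_le_sum (f := fun j => w G α x i j * (φ i - φ j) ^ 2) (fun j _ => e0 i j) (mem_univ j)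
    have e2 : ∑ j, w G α x i j * (φ i - φ j) ^ 2 ≤ ∑ i, ∑ j, w G α x i j * (φ i - φ j) ^ 2 :=
      single_le_sum (f := fun i => ∑ j, w G α x i j * (φ i - φ j) ^ 2)
        (fun i _ => sum_nonneg fun j _ => e0 i j) (mem_univ i)
    rw [le_div_iff₀ hα0]
    have e3 : α / NN G * (1 / 2 * (w G α x i j * (φ i - φ j) ^ 2)) ≤ 2 * M ^ 2 :=
      le_trans (by gcongr; exact e1.trans e2) hE
    have e4 : α / NN G * (1 / 2 * (w G α x i j * (φ i - φ j) ^ 2)) =
        (w G α x i j * (φ i - φ j) ^ 2 * α) / (2 * NN G) := by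
      field_simp
    rw [e4, div_le_iff₀ (by positivity)] at e3
    linarith
  -- strong edges
  have hm2 : 0 < m := by linarith
  have hstrong : ∀ i j, w0 ≤ w G α x i j → |φ i - φ j| ≤ M / (2 * m) := by
    intro i j hij
    have e1 := hE1 i j
    have e2 : w0 * (φ i - φ j) ^ 2 ≤ 4 * NN G * M ^ 2 / α :=
      le_trans (mul_le_mul_of_nonneg_right hij (sq_nonneg _)) e1
    rw [div_le_iff₀ hw0] at hα3
    have e3 : (φ i - φ j) ^ 2 ≤ (M / (2 * m)) ^ 2 := by
      rw [le_div_iff₀ hα0] at e2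
      rw [div_pow, le_div_iff₀ (by positivity)]
      have e4 : 16 * NN G * m ^ 2 * (φ i - φ j) ^ 2 ≤ α * w0 * (φ i - φ j) ^ 2 :=
        mul_le_mul_of_nonneg_right hα3 (sq_nonneg _)
      have e5 : 16 * NN G * m ^ 2 * (φ i - φ j) ^ 2 ≤ 4 * NN G * M ^ 2 := by nlinarith
      have e6 : NN G * ((φ i - φ j) ^ 2 * (2 * m) ^ 2) ≤ NN G * M ^ 2 := by nlinarith
      exact le_of_mul_le_mul_left e6 hN0
    exact abs_le_of_sq_le_sq e3 (by positivity)
  -- the strong graph
  let H : SimpleGraph V :=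
    { Adj := fun i j => i ≠ j ∧ w0 ≤ w G α x i j
      symm := ⟨fun i j h => ⟨h.1.symm, by rw [w_symm]; exact h.2⟩⟩
      loopless := ⟨fun i h => h.1 rfl⟩ }
  set CC : Finset V := univ.filter fun j => H.Reachable j i0 with hCC
  have hCCx : ∀ j ∈ CC, x j ≠ 0 := by
    intro j hj
    rw [hCC, mem_filter] at hj
    obtain ⟨p⟩ := hj.2
    cases p with
    | nil => exact hi0
    | cons h q =>
      intro h0
      have h1 : w0 ≤ w G α x j _ := h.2
      rw [w_zero G hα0 h0] at h1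
      linarith
  have hCCφ : ∀ j ∈ CC, |φ j - φ i0| ≤ M / 2 := by
    intro j hj
    rw [hCC, mem_filter] at hj
    obtain ⟨p, hp⟩ := hj.2.exists_isPath
    have h1 := walk_bound H φ (fun a b hab => hstrong a b hab.2) p
    have h2 : (p.length : ℝ) ≤ m := by
      rw [hm]
      exact_mod_cast hp.length_lt.le
    calc |φ j - φ i0| ≤ p.length * (M / (2 * m)) := h1
      _ ≤ m * (M / (2 * m)) := by gcongr
      _ = M / 2 := by field_simp
  have hi0C : i0 ∈ CC := by
    rw [hCC, mem_filter]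
    exact ⟨mem_univ _, SimpleGraph.Reachable.refl _⟩
  -- weak edges leave the component
  have hweak : ∀ i ∈ CC, ∀ j ∈ CCᶜ, |w G α x i j * (φ i - φ j)| ≤
      |C| * Real.exp (-(c * α)) * (2 * M) := by
    intro i hi j hj
    have hnotstrong : ¬ w0 ≤ w G α x i j := by
      intro h
      have hij : i ≠ j := by
        rintro rfl
        exact (mem_compl.1 hj) hi
      apply mem_compl.1 hj
      rw [hCC, mem_filter] at hi ⊢
      refine ⟨mem_univ _, ?_⟩
      have hadj : H.Adj j i := ⟨hij.symm, by rw [w_symm]; exact h⟩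
      exact hadj.reachable.trans hi.2
    have h1 : w G α x i j ≤ C * Real.exp (-(c * α)) := (hD α hα1 x hx hv i j).resolve_right hnotstrong
    have h2 : w G α x i j ≤ |C| * Real.exp (-(c * α)) :=
      h1.trans (by gcongr; exact le_abs_self C)
    rw [abs_mul, abs_of_nonneg (w_nonneg G hx0 i j)]
    by_cases hj0 : x j = 0
    · rw [w_zero' G hα0 hj0, zero_mul]
      positivity
    · have h3 : |φ i - φ j| ≤ 2 * M := by
        have a1 := hmax i (hCCx i hi)
        have a2 := hmax j hj0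
        have a3 := abs_sub (φ i) (φ j)
        linarith
      have h4 := w_nonneg G (α := α) hx0 i j
      calc w G α x i j * |φ i - φ j| ≤ (|C| * Real.exp (-(c * α))) * (2 * M) := by gcongr
        _ = _ := rfl
  -- sum of the equations
  have hsum : ∑ i ∈ CC, t * x i * φ i = α / NN G * ∑ i ∈ CC, ∑ j ∈ CCᶜ, w G α x i j * (φ i - φ j) := by
    rw [← cut (fun i j => w G α x i j) (w_symm G α x) φ CC, mul_sum]
    exact sum_congr rfl fun i _ => (heq' i).symm
  have hub : |∑ i ∈ CC, t * x i * φ i| ≤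
      α / NN G * (m ^ 2 * (|C| * Real.exp (-(c * α)) * (2 * M))) := by
    rw [hsum, abs_mul, abs_of_nonneg (by positivity : 0 ≤ α / NN G)]
    refine mul_le_mul_of_nonneg_left ?_ (by positivity)
    have b0 : 0 ≤ |C| * Real.exp (-(c * α)) * (2 * M) := by positivity
    have b1 : ∀ i ∈ CC, |∑ j ∈ CCᶜ, w G α x i j * (φ i - φ j)| ≤
        m * (|C| * Real.exp (-(c * α)) * (2 * M)) := by
      intro i hi
      refine (abs_sum_le_sum_abs _ _).trans ((sum_le_sum fun j hj => hweak i hi j hj).trans ?_)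
      rw [sum_const, nsmul_eq_mul]
      refine mul_le_mul_of_nonneg_right ?_ b0
      rw [hm]
      exact_mod_cast card_le_univ _
    refine (abs_sum_le_sum_abs _ _).trans ((sum_le_sum b1).trans ?_)
    rw [sum_const, nsmul_eq_mul, sq, mul_assoc m m]
    refine mul_le_mul_of_nonneg_right ?_ (by positivity)
    rw [hm]
    exact_mod_cast card_le_univ _
  have hlb : t * dl G * (M ^ 2 / 2) ≤ (∑ i ∈ CC, t * x i * φ i) * φ i0 := by
    rw [sum_mul]
    have b1 : ∀ i ∈ CC, t * x i * (M ^ 2 / 2) ≤ t * x i * φ i * φ i0 := by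
      intro i hi
      rw [mul_assoc (t * x i)]
      refine mul_le_mul_of_nonneg_left ?_ (mul_nonneg ht0 (hx0 i))
      have a1 := hCCφ i hi
      have a2 : (φ i - φ i0) * φ i0 ≥ -(M / 2 * M) := by
        have a3 : |(φ i - φ i0) * φ i0| ≤ M / 2 * M := by
          rw [abs_mul, ← hM]
          gcongr
        exact (abs_le.1 a3).1
      have a4 : φ i0 ^ 2 = M ^ 2 := by rw [hM, sq_abs]
      nlinarith
    refine le_trans ?_ (sum_le_sum b1)
    have b2 : t * x i0 * (M ^ 2 / 2) ≤ ∑ i ∈ CC, t * x i * (M ^ 2 / 2) :=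
      single_le_sum (f := fun i => t * x i * (M ^ 2 / 2))
        (fun i _ => mul_nonneg (mul_nonneg ht0 (hx0 i)) (by positivity)) hi0C
    refine le_trans ?_ b2
    have b3 := hLow V G hN α hα2 x hx hv i0 hi0
    gcongr
  have hfin : t * dl G * (M ^ 2 / 2) ≤
      α / NN G * (m ^ 2 * (|C| * Real.exp (-(c * α)) * (2 * M))) * M := by
    refine hlb.trans ((le_abs_self _).trans ?_)
    rw [abs_mul, ← hM]
    gcongr
  -- the exponential
  have hexp : Real.exp (-(c * α)) ≤ 2 / (c * α) ^ 2 := by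
    have h1 := Real.quadratic_le_exp_of_nonneg (x := c * α) (by positivity)
    have h2 : (c * α) ^ 2 / 2 ≤ Real.exp (c * α) := by
      have : 0 ≤ c * α := by positivity
      linarith
    rw [Real.exp_neg, le_div_iff₀ (by positivity), inv_mul_le_iff₀ (Real.exp_pos _)]
    linarith
  have hfin2 : t * dl G * (M ^ 2 / 2) ≤
      α / NN G * (m ^ 2 * (|C| * (2 / (c * α) ^ 2) * (2 * M))) * M := by
    refine hfin.trans ?_
    gcongr
  have hfin3 : t * (NN G * dl G * c ^ 2 * α) ≤ 8 * (m ^ 2 * |C|) := by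
    have e1 : α / NN G * (m ^ 2 * (|C| * (2 / (c * α) ^ 2) * (2 * M))) * M =
        (8 * (m ^ 2 * |C|) / (NN G * c ^ 2 * α)) * (M ^ 2 / 2) := by
      field_simp
      ring
    rw [e1] at hfin2
    have e2 := le_of_mul_le_mul_right hfin2 (by positivity)
    rw [le_div_iff₀ (by positivity)] at e2
    linarith
  rw [div_le_iff₀ (by positivity)] at hα4
  have hQ : 0 < NN G * dl G * c ^ 2 * α := by positivity
  have h5 : t * (NN G * dl G * c ^ 2 * α) ≤ 1 / 2 * (NN G * dl G * c ^ 2 * α) := by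
    nlinarith
  exact le_of_mul_le_mul_right h5 hQ

end H483U.Gap
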