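import Pool.Agent.H483R3.Urn.Stmts

set_option autoImplicit false

namespace H483U.Conv

open Filter Topology

/-- the harmonic type series diverges -/
lemma not_summable_c0 (c0 : ℝ) (hc0 : 0 < c0) : ¬ Summable (fun n : ℕ => 1 / ((n : ℝ) + c0)) := by
  intro h
  obtain ⟨M, hM⟩ := exists_nat_gt c0
  have h2 : Summable (fun n : ℕ => 1 / (((n + M : ℕ)) : ℝ)) := by
    refine Summable.of_nonneg_of_le (fun n => by positivity) (fun n => ?_) h
    apply one_div_le_one_div_of_le
    · positivity
    · push_cast
      linarith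
  exact Real.not_summable_one_div_natCast ((summable_nat_add_iff M).1 h2)

theorem main (V : Type) [Fintype V] (S : Set (V → ℝ))
    (f : (V → ℝ) → ℝ) (hS : IsCompact S) (hf : ContinuousOn f S) (hf0 : ∀ x ∈ S, 0 ≤ f x)
    (hfin : {x | x ∈ S ∧ f x = 0}.Finite) (x : ℕ → V → ℝ) (C c0 : ℝ) (hc0 : 0 < c0)
    (hx : ∀ᶠ n in atTop, x n ∈ S) (hstep : ∀ n : ℕ, ‖x (n + 1) - x n‖ ≤ C / (n + c0))
    (hsum : Summable (fun n : ℕ => 1 / (n + c0) * f (x n))) :
    ∃ p ∈ S, f p = 0 ∧ Tendsto x atTop (𝓝 p) := by
  classical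
  have hC : 0 ≤ C := by
    have h1 := hstep 0
    have h2 : 0 ≤ C / ((0 : ℕ) + c0) := le_trans (norm_nonneg _) h1
    have h3 : (0 : ℝ) < ((0 : ℕ) : ℝ) + c0 := by simpa using hc0
    by_contra hneg
    push Not at hneg
    have := div_neg_of_neg_of_pos hneg h3
    linarith
  have hpos : ∀ n : ℕ, (0 : ℝ) < (n : ℝ) + c0 := fun n => by positivity
  obtain ⟨p, hpS, φ, hφ, hφt⟩ := hS.tendsto_subseq' hx.frequently
  -- a radius
  have hclosed : IsClosed ({x | x ∈ S ∧ f x = 0} \ {p}) := (hfin.subset Set.sdiff_subset).isClosed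
  obtain ⟨r, hr, hball⟩ := Metric.isOpen_iff.1 hclosed.isOpen_compl p (by simp)
  have hnz : ∀ y ∈ S, dist y p < r → f y = 0 → y = p := by
    intro y hyS hyr hfy
    have h1 := hball (Metric.mem_ball.2 hyr)
    by_contra hne
    exact h1 ⟨⟨hyS, hfy⟩, hne⟩
  -- steps tend to zero
  have hstep0 : Tendsto (fun n : ℕ => C / ((n : ℝ) + c0)) atTop (𝓝 0) := by
    apply Tendsto.div_atTop tendsto_const_nhds
    exact tendsto_atTop_add_const_right _ _ tendsto_natCast_atTop_atTop
  have key : ∀ ε : ℝ, 0 < ε → 2 * ε < r → ∀ᶠ k in atTop, dist (x k) p < 2 * ε := by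
    intro ε hε hεr
    set A : Set (V → ℝ) := S ∩ {y | ε ≤ dist y p ∧ dist y p ≤ 2 * ε} with hA
    have hAc : IsCompact A := by
      apply hS.inter_right
      apply IsClosed.inter
      · exact isClosed_le continuous_const (continuous_id.dist continuous_const)
      · exact isClosed_le (continuous_id.dist continuous_const) continuous_const
    obtain ⟨m, hm, hmA⟩ : ∃ m : ℝ, 0 < m ∧ ∀ y ∈ A, m ≤ f y := by
      rcases A.eq_empty_or_nonempty with hAe | hAne
      · exact ⟨1, one_pos, by simp [hAe]⟩
      · obtain ⟨y0, hy0, hmin⟩ := hAc.exists_isMinOn hAne (hf.mono Set.inter_subset_left)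
        refine ⟨f y0, ?_, fun y hy => hmin hy⟩
        rcases lt_or_eq_of_le (hf0 y0 hy0.1) with h | h
        · exact h
        · exfalso
          have h1 := hnz y0 hy0.1 (lt_of_le_of_lt hy0.2.2 hεr) h.symm
          have h2 := hy0.2.1
          rw [h1, dist_self] at h2
          linarith
    set a : ℕ → ℝ := fun j => if x j ∈ A then C / ((j : ℝ) + c0) else 0 with ha
    have ha0 : ∀ j, 0 ≤ a j := by
      intro j
      simp only [ha]
      split_ifs
      · exact div_nonneg hC (hpos j).le
      · exact le_refl _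
    have hasum : Summable a := by
      refine Summable.of_norm_bounded_eventually_nat (g := fun n : ℕ => C / m * (1 / (n + c0) * f (x n)))
        (hsum.mul_left _) ?_
      filter_upwards [hx] with j hj
      rw [Real.norm_of_nonneg (ha0 j)]
      have h0 : 0 ≤ 1 / ((j : ℝ) + c0) := (one_div_pos.2 (hpos j)).le
      simp only [ha]
      split_ifs with hjA
      · have h1 := hmA _ hjA
        calc C / ((j : ℝ) + c0) = C / m * (1 / ((j : ℝ) + c0) * m) := by
              field_simp
          _ ≤ C / m * (1 / ((j : ℝ) + c0) * f (x j)) := by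
              apply mul_le_mul_of_nonneg_left _ (div_nonneg hC hm.le)
              exact mul_le_mul_of_nonneg_left h1 h0
      · exact mul_nonneg (div_nonneg hC hm.le) (mul_nonneg h0 (hf0 _ hj))
    set T : ℕ → ℝ := fun k => ∑' j, a (j + k) with hT
    have hT0 : Tendsto T atTop (𝓝 0) := tendsto_sum_nat_add a
    have hTrec : ∀ k, T k = a k + T (k + 1) := by
      intro k
      have h1 : Summable (fun j => a (j + k)) := (summable_nat_add_iff k).2 hasum
      simp only [hT]
      rw [h1.tsum_eq_zero_add]
      congr 1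
      · simp
      · apply tsum_congr
        intro j
        congr 1
        ring
    -- choose a starting index
    have e1 : ∀ᶠ k in atTop, T k < ε / 2 := (hT0.eventually (gt_mem_nhds (by linarith)))
    have e2 : ∀ᶠ k : ℕ in atTop, C / ((k : ℝ) + c0) < ε / 2 :=
      (hstep0.eventually (gt_mem_nhds (by linarith)))
    obtain ⟨n1, hn1⟩ := eventually_atTop.1 (e1.and (e2.and hx))
    have e3 : ∀ᶠ i in atTop, dist (x (φ i)) p < ε := by
      have := (tendsto_iff_dist_tendsto_zero.1 hφt).eventually (gt_mem_nhds hε)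
      exact this
    obtain ⟨i, hi1, hi2⟩ := (e3.and (eventually_ge_atTop n1)).exists
    have hn : n1 ≤ φ i := le_trans hi2 (hφ.id_le i)
    have hinv : ∀ k, φ i ≤ k → dist (x k) p + T k < 2 * ε := by
      intro k hk
      induction k, hk using Nat.le_induction with
      | base =>
        have := (hn1 (φ i) hn).1
        linarith
      | succ k hk ih =>
        have hk1 : n1 ≤ k := le_trans hn hk
        obtain ⟨hTk, hCk, hSk⟩ := hn1 k hk1
        obtain ⟨hTk', _, _⟩ := hn1 (k + 1) (by omega)
        have hrec := hTrec k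
        have hd : dist (x (k + 1)) p ≤ C / ((k : ℝ) + c0) + dist (x k) p := by
          have h1 := dist_triangle (x (k + 1)) (x k) p
          have h2 := hstep k
          rw [← dist_eq_norm] at h2
          linarith
        by_cases hkA : x k ∈ A
        · have h1 : a k = C / ((k : ℝ) + c0) := by simp only [ha, if_pos hkA]
          linarith
        · have h2 : dist (x k) p < ε := by
            by_contra hge
            push Not at hge
            apply hkA
            refine ⟨hSk, hge, ?_⟩
            have h3 : 0 ≤ T k := tsum_nonneg (fun j => ha0 _)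
            linarith
          linarith
    filter_upwards [eventually_ge_atTop (φ i)] with k hk
    have h3 : 0 ≤ T k := tsum_nonneg (fun j => ha0 _)
    have := hinv k hk
    linarith
  have hconv : Tendsto x atTop (𝓝 p) := by
    rw [Metric.tendsto_nhds]
    intro ε hε
    have h1 : 0 < min (ε / 2) (r / 4) := by positivity
    filter_upwards [key (min (ε / 2) (r / 4)) h1
      (by have := min_le_right (ε / 2) (r / 4); linarith)] with k hk
    have := min_le_left (ε / 2) (r / 4)
    linarith
  refine ⟨p, hpS, ?_, hconv⟩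
  by_contra hne
  have hfp : 0 < f p := lt_of_le_of_ne (hf0 p hpS) (Ne.symm hne)
  have hft : Tendsto (fun n => f (x n)) atTop (𝓝 (f p)) := by
    have h1 : Tendsto x atTop (𝓝[S] p) := tendsto_nhdsWithin_iff.2 ⟨hconv, hx⟩
    exact (hf p hpS).tendsto.comp h1
  have hev : ∀ᶠ n in atTop, f p / 2 < f (x n) := hft.eventually (lt_mem_nhds (by linarith))
  apply not_summable_c0 c0 hc0
  refine Summable.of_norm_bounded_eventually_nat
    (g := fun n : ℕ => 2 / f p * (1 / (n + c0) * f (x n))) (hsum.mul_left _) ?_
  filter_upwards [hev] with n hn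
  have h0 : 0 < 1 / ((n : ℝ) + c0) := one_div_pos.2 (hpos n)
  rw [Real.norm_of_nonneg h0.le]
  calc 1 / ((n : ℝ) + c0) = 2 / f p * (1 / ((n : ℝ) + c0) * (f p / 2)) := by field_simp
    _ ≤ 2 / f p * (1 / (n + c0) * f (x n)) := by
        apply mul_le_mul_of_nonneg_left _ (div_nonneg zero_le_two hfp.le)
        exact mul_le_mul_of_nonneg_left hn.le h0.le

theorem t : H483U.TaskConv := by
  intro V _ _ S f hS hf hf0 hfin x C c0 hc0 hx hstep hsum
  exact main V S f hS hf hf0 hfin x C c0 hc0 hx hstep hsum

end H483U.Conv
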