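import Pool.Agent.H483R3.Urn.Stmts

set_option autoImplicit false

namespace H483U.Diag

open H483U

theorem core {V : Type} [Fintype V] [DecidableEq V] (S : Matrix V V ℝ) (hS : S.IsHermitian) :
    ∃ (lam : V → ℝ) (g : V → V → ℝ),
      (∀ l k, ∑ i, g l i * g k i = if l = k then 1 else 0) ∧
      (∀ i j, ∑ l, g l i * g l j = if i = j then 1 else 0) ∧
      ∀ l i, ∑ j, S i j * g l j = lam l * g l i := by
  have h1 : ∀ l k, ∑ i, hS.eigenvectorBasis l i * hS.eigenvectorBasis k i =
      if l = k then (1 : ℝ) else 0 := by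
    intro l k
    have h := orthonormal_iff_ite.1 hS.eigenvectorBasis.orthonormal l k
    rw [← h, PiLp.inner_apply]
    refine Finset.sum_congr rfl fun i _ => ?_
    simp [mul_comm]
  refine ⟨hS.eigenvalues, fun l i => hS.eigenvectorBasis l i, h1, ?_, ?_⟩
  · set M : Matrix V V ℝ := Matrix.of fun l i => hS.eigenvectorBasis l i with hM
    have h2 : M * M.transpose = 1 := by
      ext l k
      rw [Matrix.mul_apply, Matrix.one_apply]
      simpa [hM, Matrix.transpose_apply] using h1 l k
    have h3 : M.transpose * M = 1 := mul_eq_one_comm.1 h2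
    intro i j
    have h4 := congrFun (congrFun h3 i) j
    rw [Matrix.mul_apply, Matrix.one_apply] at h4
    simpa [hM, Matrix.transpose_apply] using h4
  · intro l i
    have h := congrFun (hS.mulVec_eigenvectorBasis l) i
    simpa [Matrix.mulVec, dotProduct] using h

theorem energy {V : Type} [Fintype V] (w : V → V → ℝ) (hw : ∀ i j, w i j = w j i)
    (φ : V → ℝ) :
    ∑ i, φ i * ∑ j, w i j * (φ i - φ j) = 1 / 2 * ∑ i, ∑ j, w i j * (φ i - φ j) ^ 2 := by
  have e1 : ∑ i, φ i * ∑ j, w i j * (φ i - φ j) = ∑ i, ∑ j, w i j * (φ i * (φ i - φ j)) := by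
    refine Finset.sum_congr rfl fun i _ => ?_
    rw [Finset.mul_sum]
    exact Finset.sum_congr rfl fun j _ => by ring
  have e2 : ∑ i, ∑ j, w i j * (φ i * (φ i - φ j)) = ∑ i, ∑ j, w i j * (φ j * (φ j - φ i)) := by
    rw [Finset.sum_comm]
    exact Finset.sum_congr rfl fun i _ => Finset.sum_congr rfl fun j _ => by rw [hw]
  have e3 : ∑ i, ∑ j, w i j * (φ i - φ j) ^ 2 =
      ∑ i, ∑ j, w i j * (φ i * (φ i - φ j)) + ∑ i, ∑ j, w i j * (φ j * (φ j - φ i)) := by
    rw [← Finset.sum_add_distrib]
    refine Finset.sum_congr rfl fun i _ => ?_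
    rw [← Finset.sum_add_distrib]
    exact Finset.sum_congr rfl fun j _ => by ring
  rw [e1, e3, ← e2]
  ring

theorem w_symm {V : Type} [Fintype V] [DecidableEq V] (G : SimpleGraph V) [DecidableRel G.Adj]
    (α : ℝ) (x : V → ℝ) (i j : V) : w G α x i j = w G α x j i := by
  unfold w A
  simp only [G.adj_comm i j, mul_comm (pr α (x i) (x j))]

theorem w_nonneg {V : Type} [Fintype V] [DecidableEq V] (G : SimpleGraph V)
    [DecidableRel G.Adj] (α : ℝ) (x : V → ℝ) (hx : ∀ i, 0 < x i) (i j : V) :
    0 ≤ w G α x i j := by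
  have h : ∀ a b : ℝ, 0 < a → 0 < b → 0 ≤ pr α a b := fun a b ha hb => by
    unfold pr
    have := Real.rpow_nonneg ha.le α
    have := Real.rpow_nonneg hb.le α
    positivity
  unfold w A
  refine mul_nonneg ?_ (mul_nonneg (h _ _ (hx i) (hx j)) (h _ _ (hx j) (hx i)))
  split_ifs <;> norm_num

theorem t : TaskDiag := by
  intro hU V _ _ G _ hN α hα hgap p hpK hp0 hp
  set r : V → ℝ := fun i => Real.sqrt (p i) with hr
  have hr0 : ∀ i, 0 < r i := fun i => Real.sqrt_pos.2 (hp0 i)
  have hrne : ∀ i, r i ≠ 0 := fun i => (hr0 i).ne'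
  have hrr : ∀ i, r i * r i = p i := fun i => Real.mul_self_sqrt (hp0 i).le
  set c : ℝ := α / NN G with hc
  have hc0 : 0 < c := div_pos (by linarith) (by linarith)
  set v : V → V → ℝ := fun i j => w G α p i j with hv
  have hvs : ∀ i j, v i j = v j i := fun i j => w_symm G α p i j
  have hvn : ∀ i j, 0 ≤ v i j := fun i j => w_nonneg G α p hp0 i j
  set S : Matrix V V ℝ := Matrix.of fun i j =>
    -(if i = j then (1 : ℝ) else 0) +
      c * ((if i = j then ∑ m, v i m else 0) - v i j) / (r i * r j) with hSdef
  have hSs : ∀ i j, S i j = S j i := by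
    intro i j
    rw [hSdef, Matrix.of_apply, Matrix.of_apply, hvs i j, mul_comm (r i)]
    by_cases h : i = j
    · subst h; rfl
    · rw [if_neg h, if_neg h, if_neg (Ne.symm h), if_neg (Ne.symm h)]
  have hS : S.IsHermitian := by
    ext i j
    rw [Matrix.conjTranspose_apply, star_trivial]
    exact hSs j i
  have hSk : ∀ (k : V → ℝ) (i : V), ∑ j, S i j * k j =
      -k i + c / r i * ∑ j, v i j * (k i / r i - k j / r j) := by
    intro k i
    have e1 : ∀ j, S i j * k j = -(if i = j then k j else 0) +
        (c / r i * (if i = j then (∑ m, v i m) * (k j / r j) else 0) -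
          c / r i * (v i j * (k j / r j))) := by
      intro j
      rw [hSdef, Matrix.of_apply]
      have := hrne i
      have := hrne j
      split_ifs with h
      · field_simp
      · field_simp; ring
    simp_rw [e1]
    rw [Finset.sum_add_distrib, Finset.sum_sub_distrib, Finset.sum_neg_distrib,
      ← Finset.mul_sum, ← Finset.mul_sum]
    simp only [Finset.sum_ite_eq, Finset.mem_univ, if_true]
    rw [Finset.sum_mul, ← mul_sub, ← Finset.sum_sub_distrib]
    congr 2
    exact Finset.sum_congr rfl fun j _ => by ring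
  obtain ⟨lam, g, ho1, ho2, hev⟩ := core S hS
  -- energy identities for the eigenvectors
  have hφ : ∀ l i, c * ∑ j, v i j * (g l i / r i - g l j / r j) =
      (1 + lam l) * p i * (g l i / r i) := by
    intro l i
    have h := hev l i
    rw [hSk] at h
    have h1 : c / r i * ∑ j, v i j * (g l i / r i - g l j / r j) = (1 + lam l) * g l i := by
      linarith
    have h2 := hrne i
    have h3 : c * ∑ j, v i j * (g l i / r i - g l j / r j) =
        r i * (c / r i * ∑ j, v i j * (g l i / r i - g l j / r j)) := by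
      field_simp
    rw [h3, h1, ← hrr i]
    field_simp
  have hnorm : ∀ l, ∑ i, p i * (g l i / r i) ^ 2 = 1 := by
    intro l
    have h := ho1 l l
    rw [if_pos rfl] at h
    rw [← h]
    refine Finset.sum_congr rfl fun i _ => ?_
    have := hrne i
    rw [← hrr i]
    field_simp
  have hen : ∀ l, c * (1 / 2 * ∑ i, ∑ j, v i j * (g l i / r i - g l j / r j) ^ 2) =
      1 + lam l := by
    intro l
    rw [← energy v hvs, Finset.mul_sum]
    have h1 : ∀ i, c * (g l i / r i * ∑ j, v i j * (g l i / r i - g l j / r j)) =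
        (1 + lam l) * (p i * (g l i / r i) ^ 2) := by
      intro i
      have := hφ l i
      calc c * (g l i / r i * ∑ j, v i j * (g l i / r i - g l j / r j))
          = (g l i / r i) * (c * ∑ j, v i j * (g l i / r i - g l j / r j)) := by ring
        _ = (1 + lam l) * (p i * (g l i / r i) ^ 2) := by rw [this]; ring
    simp_rw [h1]
    rw [← Finset.mul_sum, hnorm, mul_one]
  have hlam0 : ∀ l, 0 ≤ 1 + lam l := by
    intro l
    rw [← hen l]
    refine mul_nonneg hc0.le (mul_nonneg (by norm_num) ?_)
    exact Finset.sum_nonneg fun i _ => Finset.sum_nonneg fun j _ =>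
      mul_nonneg (hvn i j) (sq_nonneg _)
  have hlam : ∀ l, lam l ≤ -(1 / 2) ∨ 1 ≤ lam l := by
    intro l
    by_cases h : 1 ≤ lam l
    · exact Or.inr h
    · left
      push Not at h
      have hex : ∃ i, p i ≠ 0 ∧ g l i / r i ≠ 0 := by
        by_contra hcon
        push Not at hcon
        have : ∑ i, p i * (g l i / r i) ^ 2 = 0 := by
          refine Finset.sum_eq_zero fun i _ => ?_
          rw [hcon i (hp0 i).ne']
          ring
        rw [hnorm] at this
        exact one_ne_zero this
      have := hgap p hpK hp (1 + lam l) (fun i => g l i / r i) (hlam0 l) (by linarith) hex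
        (fun i _ => hφ l i)
      linarith
  have hl0 : ∃ l₀, 1 ≤ lam l₀ := by
    by_contra hcon
    push Not at hcon
    have hneg : ∀ l, lam l ≤ -(1 / 2) := fun l => by
      rcases hlam l with h | h
      · exact h
      · exact absurd h (not_le.2 (hcon l))
    obtain ⟨φ, hφu⟩ := hU V G hN α hα p hp0 hp
    have hq : ∑ i, (r i * φ i) * ∑ j, S i j * (r j * φ j) =
        -(∑ i, p i * φ i ^ 2) + c * (1 / 2 * ∑ i, ∑ j, v i j * (φ i - φ j) ^ 2) := by
      rw [← energy v hvs, Finset.mul_sum, ← Finset.sum_neg_distrib, ← Finset.sum_add_distrib]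
      refine Finset.sum_congr rfl fun i _ => ?_
      rw [hSk (fun j => r j * φ j) i]
      have e : ∀ j, r j * φ j / r j = φ j := fun j => by
        have := hrne j
        field_simp
      simp_rw [e]
      have := hrne i
      rw [← hrr i]
      field_simp
    have hpos : 0 < ∑ i, (r i * φ i) * ∑ j, S i j * (r j * φ j) := by
      rw [hq]
      linarith
    -- expansion in the eigenbasis
    have hexp : ∀ j, r j * φ j = ∑ l, g l j * ∑ i, g l i * (r i * φ i) := by
      intro j
      simp_rw [Finset.mul_sum]
      rw [Finset.sum_comm]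
      have : ∀ i, ∑ l, g l j * (g l i * (r i * φ i)) = (if j = i then 1 else 0) * (r i * φ i) := by
        intro i
        rw [← ho2 j i, Finset.sum_mul]
        exact Finset.sum_congr rfl fun l _ => by ring
      simp_rw [this]
      simp
    have hSx : ∀ i, ∑ j, S i j * (r j * φ j) =
        ∑ l, lam l * g l i * ∑ m, g l m * (r m * φ m) := by
      intro i
      have : ∀ j, S i j * (r j * φ j) = ∑ l, (S i j * g l j) * ∑ m, g l m * (r m * φ m) := by
        intro j
        conv_lhs => rw [hexp j]
        rw [Finset.mul_sum]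
        exact Finset.sum_congr rfl fun l _ => by ring
      simp_rw [this]
      rw [Finset.sum_comm]
      refine Finset.sum_congr rfl fun l _ => ?_
      rw [← Finset.sum_mul, hev l i]
    have hq2 : ∑ i, (r i * φ i) * ∑ j, S i j * (r j * φ j) =
        ∑ l, lam l * (∑ m, g l m * (r m * φ m)) ^ 2 := by
      simp_rw [hSx, Finset.mul_sum]
      rw [Finset.sum_comm]
      refine Finset.sum_congr rfl fun l _ => ?_
      have : ∀ i, (∑ m, r i * φ i * (lam l * g l i * (g l m * (r m * φ m)))) =
          lam l * (g l i * (r i * φ i)) * ∑ m, g l m * (r m * φ m) := by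
        intro i
        rw [Finset.mul_sum]
        exact Finset.sum_congr rfl fun m _ => by ring
      simp_rw [this]
      rw [← Finset.sum_mul, ← Finset.mul_sum]
      ring
    rw [hq2] at hpos
    have hle : ∑ l, lam l * (∑ m, g l m * (r m * φ m)) ^ 2 ≤ 0 :=
      Finset.sum_nonpos fun l _ => mul_nonpos_of_nonpos_of_nonneg
        (by have := hneg l; linarith) (sq_nonneg _)
    linarith
  obtain ⟨l₀, hl₀⟩ := hl0
  refine ⟨lam, fun l i => g l i / r i, fun i l => r i * g l i, l₀, hlam, hl₀, ?_, ?_, ?_, ?_⟩
  · intro h i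
    have e1 : ∀ l, r i * g l i * ∑ j, g l j / r j * h j =
        ∑ j, (g l i * g l j) * (r i * (h j / r j)) := by
      intro l
      rw [Finset.mul_sum]
      exact Finset.sum_congr rfl fun j _ => by ring
    simp_rw [e1]
    rw [Finset.sum_comm]
    have e2 : ∀ j, ∑ l, (g l i * g l j) * (r i * (h j / r j)) =
        (if i = j then 1 else 0) * (r i * (h j / r j)) := by
      intro j
      rw [← ho2 i j, Finset.sum_mul]
    simp_rw [e2]
    have := hrne i
    simp only [ite_mul, one_mul, zero_mul, Finset.sum_ite_eq, Finset.mem_univ, if_true]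
    field_simp
  · intro y l
    have e1 : ∀ i, g l i / r i * ∑ k, r i * g k i * y k = ∑ k, (g l i * g k i) * y k := by
      intro i
      rw [Finset.mul_sum]
      refine Finset.sum_congr rfl fun k _ => ?_
      have := hrne i
      field_simp
    simp_rw [e1]
    rw [Finset.sum_comm]
    have e2 : ∀ k, ∑ i, (g l i * g k i) * y k = (if l = k then 1 else 0) * y k := by
      intro k
      rw [← ho1 l k, Finset.sum_mul]
    simp_rw [e2]
    simp
  · intro h l
    have e1 : ∀ i, g l i / r i * (-h i + c * ∑ j, v i j * (h i / p i - h j / p j)) =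
        g l i * ∑ j, S i j * (h j / r j) := by
      intro i
      rw [hSk (fun j => h j / r j) i]
      have e : ∀ j, h j / r j / r j = h j / p j := fun j => by
        rw [div_div, hrr]
      simp_rw [e]
      have := hrne i
      field_simp
    have e2 : ∑ i, g l i / r i * (-h i + c * ∑ j, v i j * (h i / p i - h j / p j)) =
        ∑ j, (∑ i, S j i * g l i) * (h j / r j) := by
      simp_rw [e1, Finset.mul_sum, Finset.sum_mul]
      rw [Finset.sum_comm]
      refine Finset.sum_congr rfl fun j _ => Finset.sum_congr rfl fun i _ => ?_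
      rw [hSs i j]
      ring
    have e3 : ∑ i, g l i / r i * (-h i + c * ∑ j, v i j * (h i / p i - h j / p j)) =
        lam l * ∑ i, g l i / r i * h i := by
      rw [e2, Finset.mul_sum]
      refine Finset.sum_congr rfl fun j _ => ?_
      rw [hev l j]
      ring
    exact e3
  · have h := hen l₀
    by_contra hcon
    have h1 : ∑ i, ∑ j, v i j * (g l₀ i / r i - g l₀ j / r j) ^ 2 ≤ 0 := not_lt.1 hcon
    have h2 : c * (1 / 2 * ∑ i, ∑ j, v i j * (g l₀ i / r i - g l₀ j / r j) ^ 2) ≤ 0 :=
      mul_nonpos_of_nonneg_of_nonpos hc0.le (by linarith)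
    linarith

end H483U.Diag
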