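import Pool.Agent.H483R3.Urn.Stmts

set_option autoImplicit false

/-! Task T2 of project H483-URN: the weights of an equilibrium are exponentially small or bounded
below. -/

namespace H483U.TaskDich

open Finset

section

variable {V : Type} [Fintype V] [DecidableEq V] (G : SimpleGraph V) [DecidableRel G.Adj]

theorem A_nonneg (i j : V) : 0 ≤ A G i j := by
  unfold A; split_ifs <;> norm_num

theorem A_le_one (i j : V) : A G i j ≤ 1 := by
  unfold A; split_ifs <;> norm_num

theorem A_symm (i j : V) : A G i j = A G j i := by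
  unfold A
  simp only [G.adj_comm i j]

theorem pr_nonneg (α : ℝ) {a b : ℝ} (ha : 0 ≤ a) (hb : 0 ≤ b) : 0 ≤ pr α a b :=
  div_nonneg (Real.rpow_nonneg ha α) (add_nonneg (Real.rpow_nonneg ha α) (Real.rpow_nonneg hb α))

theorem pr_le_one (α : ℝ) {a b : ℝ} (ha : 0 ≤ a) (hb : 0 ≤ b) : pr α a b ≤ 1 :=
  div_le_one_of_le₀ (le_add_of_nonneg_right (Real.rpow_nonneg hb α))
    (add_nonneg (Real.rpow_nonneg ha α) (Real.rpow_nonneg hb α))

theorem pow_pos_of (α : ℝ) {a b : ℝ} (ha : 0 ≤ a) (hb : 0 ≤ b) (h : 0 < a + b) :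
    0 < a ^ α + b ^ α := by
  rcases ha.lt_or_eq with h1 | h1
  · exact add_pos_of_pos_of_nonneg (Real.rpow_pos_of_pos h1 α) (Real.rpow_nonneg hb α)
  · have : 0 < b := by linarith
    exact add_pos_of_nonneg_of_pos (Real.rpow_nonneg ha α) (Real.rpow_pos_of_pos this α)

theorem pr_add (α : ℝ) {a b : ℝ} (h : 0 < a ^ α + b ^ α) : pr α a b + pr α b a = 1 := by
  unfold pr
  rw [add_comm (b ^ α) (a ^ α), ← add_div, div_self h.ne']

theorem pr_le_of_ratio {α g a b : ℝ} (hα : 0 < α) (ha : 0 ≤ a) (hb : 0 < b)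
    (h : a ≤ b * Real.exp (-g)) : pr α a b ≤ Real.exp (-(g * α)) := by
  have h1 : a ^ α ≤ b ^ α * Real.exp (-(g * α)) := by
    calc a ^ α ≤ (b * Real.exp (-g)) ^ α := Real.rpow_le_rpow ha h hα.le
      _ = b ^ α * Real.exp (-(g * α)) := by
        rw [Real.mul_rpow hb.le (Real.exp_pos _).le, ← Real.exp_mul, neg_mul]
  have h2 : 0 ≤ a ^ α := Real.rpow_nonneg ha α
  have h3 : 0 < b ^ α := Real.rpow_pos_of_pos hb α
  unfold pr
  rw [div_le_iff₀ (by linarith)]
  have := mul_nonneg (Real.exp_pos (-(g * α))).le h2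
  nlinarith

theorem pr_ge_of_ratio {α h a b : ℝ} (hα : 0 < α) (ha : 0 < a) (hb : 0 ≤ b)
    (hab : b ≤ a * Real.exp h) : 1 / (1 + Real.exp (h * α)) ≤ pr α a b := by
  have h1 : b ^ α ≤ a ^ α * Real.exp (h * α) := by
    calc b ^ α ≤ (a * Real.exp h) ^ α := Real.rpow_le_rpow hb hab hα.le
      _ = a ^ α * Real.exp (h * α) := by
        rw [Real.mul_rpow ha.le (Real.exp_pos _).le, ← Real.exp_mul]
  have h2 : 0 ≤ b ^ α := Real.rpow_nonneg hb α
  have h3 : 0 < a ^ α := Real.rpow_pos_of_pos ha α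
  unfold pr
  rw [div_le_div_iff₀ (by positivity) (by linarith)]
  nlinarith

theorem gap (x : V → ℝ) (y g : ℝ) (hy : 0 < y) (hg : 0 ≤ g) (k0 : V)
    (hk : x k0 ≤ y ∨ y * Real.exp (g * Fintype.card V) < x k0) :
    ∃ t : ℕ, t < Fintype.card V ∧
      ∀ k, ¬ (y * Real.exp (g * t) < x k ∧ x k ≤ y * Real.exp (g * t) * Real.exp g) := by
  by_contra hcon
  push Not at hcon
  choose f hf using hcon
  have hmono : ∀ s t : ℝ, s ≤ t → y * Real.exp (g * s) ≤ y * Real.exp (g * t) := by
    intro s t hst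
    exact mul_le_mul_of_nonneg_left (Real.exp_le_exp.2 (mul_le_mul_of_nonneg_left hst hg)) hy.le
  have hstep : ∀ t : ℕ, y * Real.exp (g * t) * Real.exp g = y * Real.exp (g * ((t + 1 : ℕ) : ℝ)) := by
    intro t
    rw [mul_assoc, ← Real.exp_add]
    congr 2
    push_cast
    ring
  let F : Fin (Fintype.card V) → V := fun t => f t t.2
  have key : ∀ s t : Fin (Fintype.card V), s < t → x (F s) < x (F t) := by
    intro s t hst
    have h1 := (hf s s.2).2
    have h2 := (hf t t.2).1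
    rw [hstep] at h1
    have h3 : (((s : ℕ) + 1 : ℕ) : ℝ) ≤ ((t : ℕ) : ℝ) := by
      exact_mod_cast hst
    exact (h1.trans (hmono _ _ h3)).trans_lt h2
  have hinj : Function.Injective F := by
    intro s t hst
    rcases lt_trichotomy s t with h | h | h
    · exact absurd (congrArg x hst) (key s t h).ne
    · exact h
    · exact absurd (congrArg x hst) (key t s h).ne'
  have hbij := (Fintype.bijective_iff_injective_and_card F).2 ⟨hinj, by simp⟩
  obtain ⟨t, ht⟩ := hbij.2 k0
  have h1 := (hf t t.2).1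
  have h2 := (hf t t.2).2
  rw [hstep] at h2
  change y * Real.exp (g * (t : ℕ)) < x (F t) at h1
  change x (F t) ≤ _ at h2
  rw [ht] at h1 h2
  rcases hk with h | h
  · have := hmono 0 (t : ℕ) (Nat.cast_nonneg _)
    rw [mul_zero, Real.exp_zero, mul_one] at this
    linarith
  · have h3 : (((t : ℕ) + 1 : ℕ) : ℝ) ≤ (Fintype.card V : ℝ) := by
      exact_mod_cast t.2
    have := hmono _ _ h3
    linarith

/-- the vertices above the threshold -/
noncomputable def TT (x : V → ℝ) (θ : ℝ) : Finset V := univ.filter (fun k => θ < x k)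

theorem mem_TT (x : V → ℝ) (θ : ℝ) (k : V) : k ∈ TT x θ ↔ θ < x k := by
  simp [TT]

/-- the leak -/
noncomputable def leak (α : ℝ) (x : V → ℝ) (T : Finset V) : ℝ :=
  ∑ k ∈ T, ∑ l ∈ Tᶜ, A G k l * pr α (x l) (x k)

/-- twice the number of edges that touch `T` -/
noncomputable def PP (T : Finset V) : ℝ :=
  ∑ k ∈ T, ∑ l ∈ T, A G k l + 2 * ∑ k ∈ T, ∑ l ∈ Tᶜ, A G k l

theorem leak_nonneg (α : ℝ) (x : V → ℝ) (hx : ∀ i, 0 ≤ x i) (T : Finset V) :
    0 ≤ leak G α x T :=
  sum_nonneg fun k _ => sum_nonneg fun l _ =>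
    mul_nonneg (A_nonneg G k l) (pr_nonneg α (hx l) (hx k))

theorem PP_int (T : Finset V) : ∃ z : ℤ, PP G T = z := by
  refine ⟨∑ k ∈ T, ∑ l ∈ T, (if G.Adj k l then 1 else 0) +
    2 * ∑ k ∈ T, ∑ l ∈ Tᶜ, (if G.Adj k l then 1 else 0), ?_⟩
  unfold PP A
  push_cast
  rfl

theorem A_pr_add {α : ℝ} {x : V → ℝ} (hx : x ∈ K G) (hN : 0 < NN G + 1) (k l : V) :
    A G k l * pr α (x k) (x l) + A G k l * pr α (x l) (x k) = A G k l := by
  rw [← mul_add]
  by_cases h : G.Adj k l
  · have h1 := hx.2.2 k l h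
    have h2 : 0 < x k + x l := lt_of_lt_of_le (by positivity) h1
    rw [pr_add α (pow_pos_of α (hx.1 k) (hx.1 l) h2), mul_one]
  · simp [A, h]

theorem ident {α : ℝ} {x : V → ℝ} (hx : x ∈ K G) (hN : 0 < NN G)
    (hv : ∀ i, vf G α x i = 0) (T : Finset V) :
    2 * NN G * ∑ k ∈ T, x k = PP G T - 2 * leak G α x T := by
  have h1 : ∀ k, NN G * x k = ∑ l, A G k l * pr α (x k) (x l) := by
    intro k
    have := hv k
    unfold vf at this
    have h2 : x k = (1 / NN G) * ∑ j, A G k j * pr α (x k) (x j) := by linarith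
    rw [h2, ← mul_assoc, mul_one_div_cancel hN.ne', one_mul]
    rw [← h2]
  have hN1 : 0 < NN G + 1 := by linarith
  have h2 : NN G * ∑ k ∈ T, x k = ∑ k ∈ T, ∑ l ∈ T, A G k l * pr α (x k) (x l) +
      ∑ k ∈ T, ∑ l ∈ Tᶜ, A G k l * pr α (x k) (x l) := by
    rw [mul_sum, ← sum_add_distrib]
    refine sum_congr rfl fun k _ => ?_
    rw [h1 k, sum_add_sum_compl]
  have h3 : ∑ k ∈ T, ∑ l ∈ T, A G k l * pr α (x k) (x l) =
      ∑ k ∈ T, ∑ l ∈ T, A G k l * pr α (x l) (x k) := by
    rw [sum_comm]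
    refine sum_congr rfl fun k _ => sum_congr rfl fun l _ => ?_
    rw [A_symm G l k]
  have h4 : ∑ k ∈ T, ∑ l ∈ T, A G k l * pr α (x k) (x l) +
      ∑ k ∈ T, ∑ l ∈ T, A G k l * pr α (x l) (x k) = ∑ k ∈ T, ∑ l ∈ T, A G k l := by
    rw [← sum_add_distrib]
    refine sum_congr rfl fun k _ => ?_
    rw [← sum_add_distrib]
    exact sum_congr rfl fun l _ => A_pr_add G hx hN1 k l
  have h5 : ∑ k ∈ T, ∑ l ∈ Tᶜ, A G k l * pr α (x k) (x l) + leak G α x T =
      ∑ k ∈ T, ∑ l ∈ Tᶜ, A G k l := by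
    unfold leak
    rw [← sum_add_distrib]
    refine sum_congr rfl fun k _ => ?_
    rw [← sum_add_distrib]
    exact sum_congr rfl fun l _ => A_pr_add G hx hN1 k l
  unfold PP
  have h6 : 2 * NN G * ∑ k ∈ T, x k = 2 * (NN G * ∑ k ∈ T, x k) := by ring
  rw [h6, h2]
  linarith

theorem small_leak {α : ℝ} (hα : 0 < α) {x : V → ℝ} (hx : ∀ i, 0 ≤ x i) {θ g : ℝ} (hθ : 0 < θ)
    (hgap : ∀ k, ¬ (θ < x k ∧ x k ≤ θ * Real.exp g)) :
    leak G α x (TT x θ) ≤ (Fintype.card V : ℝ) ^ 2 * Real.exp (-(g * α)) := by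
  have he := (Real.exp_pos (-(g * α))).le
  have h1 : ∀ k ∈ TT x θ, ∑ l ∈ (TT x θ)ᶜ, A G k l * pr α (x l) (x k) ≤
      (Fintype.card V : ℝ) * Real.exp (-(g * α)) := by
    intro k hk
    rw [mem_TT] at hk
    have h2 : ∀ l ∈ (TT x θ)ᶜ, A G k l * pr α (x l) (x k) ≤ Real.exp (-(g * α)) := by
      intro l hl
      rw [mem_compl, mem_TT, not_lt] at hl
      have h3 : θ * Real.exp g < x k := by
        by_contra hle
        exact hgap k ⟨hk, not_lt.1 hle⟩
      have h4 : x l ≤ x k * Real.exp (-g) := by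
        have : θ = θ * Real.exp g * Real.exp (-g) := by
          rw [mul_assoc, ← Real.exp_add, add_neg_cancel, Real.exp_zero, mul_one]
        calc x l ≤ θ := hl
          _ = θ * Real.exp g * Real.exp (-g) := this
          _ ≤ x k * Real.exp (-g) := mul_le_mul_of_nonneg_right h3.le (Real.exp_pos _).le
      have h5 := pr_le_of_ratio hα (hx l) (hθ.trans hk) h4
      calc A G k l * pr α (x l) (x k) ≤ 1 * pr α (x l) (x k) :=
            mul_le_mul_of_nonneg_right (A_le_one G k l) (pr_nonneg α (hx l) (hx k))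
        _ ≤ Real.exp (-(g * α)) := by rw [one_mul]; exact h5
    calc ∑ l ∈ (TT x θ)ᶜ, A G k l * pr α (x l) (x k)
        ≤ ((TT x θ)ᶜ).card • Real.exp (-(g * α)) := sum_le_card_nsmul _ _ _ h2
      _ = (((TT x θ)ᶜ).card : ℝ) * Real.exp (-(g * α)) := nsmul_eq_mul _ _
      _ ≤ (Fintype.card V : ℝ) * Real.exp (-(g * α)) :=
          mul_le_mul_of_nonneg_right (by exact_mod_cast card_le_univ _) he
  unfold leak
  calc ∑ k ∈ TT x θ, ∑ l ∈ (TT x θ)ᶜ, A G k l * pr α (x l) (x k)
      ≤ (TT x θ).card • ((Fintype.card V : ℝ) * Real.exp (-(g * α))) :=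
        sum_le_card_nsmul _ _ _ h1
    _ = ((TT x θ).card : ℝ) * ((Fintype.card V : ℝ) * Real.exp (-(g * α))) := nsmul_eq_mul _ _
    _ ≤ (Fintype.card V : ℝ) * ((Fintype.card V : ℝ) * Real.exp (-(g * α))) :=
        mul_le_mul_of_nonneg_right (by exact_mod_cast card_le_univ _) (by positivity)
    _ = (Fintype.card V : ℝ) ^ 2 * Real.exp (-(g * α)) := by ring

theorem cut {α : ℝ} {x : V → ℝ} (hx : x ∈ K G) (hN : 0 < NN G)
    (hv : ∀ i, vf G α x i = 0) (T0 T T1 : Finset V) (h0 : T0 ⊆ T) (h1 : T ⊆ T1) (s E : ℝ)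
    (hs0 : 0 ≤ s)
    (hs : ∀ k ∈ T \ T0, ∀ l ∈ T1 \ T, 0 ≤ x k - x l ∧ x k - x l ≤ s)
    (ha : (T \ T0).Nonempty) (hb : (T1 \ T).Nonempty)
    (hsm : 2 * NN G * (Fintype.card V : ℝ) ^ 2 * s ≤ 1 / 2)
    (hl0 : leak G α x T0 ≤ E) (hl1 : leak G α x T1 ≤ E) :
    leak G α x T ≤ E ∨ 1 / 4 ≤ (Fintype.card V : ℝ) * leak G α x T := by
  have i0 := ident G hx hN hv T0
  have i := ident G hx hN hv T
  have i1 := ident G hx hN hv T1
  obtain ⟨z0, hz0⟩ := PP_int G T0
  obtain ⟨z, hz⟩ := PP_int G T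
  obtain ⟨z1, hz1⟩ := PP_int G T1
  have n0 := leak_nonneg G α x hx.1 T0
  have n := leak_nonneg G α x hx.1 T
  have n1 := leak_nonneg G α x hx.1 T1
  set L0 := leak G α x T0
  set L := leak G α x T
  set L1 := leak G α x T1
  have s0 := sum_sdiff h0 (f := x)
  have s1 := sum_sdiff h1 (f := x)
  set a : ℕ := (T \ T0).card with hadef
  set b : ℕ := (T1 \ T).card with hbdef
  have ha1 : 1 ≤ a := Finset.card_pos.2 ha
  have hb1 : 1 ≤ b := Finset.card_pos.2 hb
  have hab : a + b ≤ Fintype.card V := by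
    rw [hadef, hbdef, ← card_union_of_disjoint]
    · exact card_le_univ _
    · rw [disjoint_left]
      intro k hk hk'
      exact (mem_sdiff.1 hk').2 (mem_sdiff.1 hk).1
  have habR : (a : ℝ) + b ≤ Fintype.card V := by exact_mod_cast hab
  have haR : (1 : ℝ) ≤ a := by exact_mod_cast ha1
  have hbR : (1 : ℝ) ≤ b := by exact_mod_cast hb1
  set q : ℝ := ∑ k ∈ T \ T0, ∑ l ∈ T1 \ T, (x k - x l) with hq
  have q0 : 0 ≤ q := sum_nonneg fun k hk => sum_nonneg fun l hl => (hs k hk l hl).1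
  have q1 : q ≤ a * (b * s) := by
    have : ∀ k ∈ T \ T0, ∑ l ∈ T1 \ T, (x k - x l) ≤ b * s := by
      intro k hk
      have := sum_le_card_nsmul (T1 \ T) (fun l => x k - x l) s (fun l hl => (hs k hk l hl).2)
      rwa [nsmul_eq_mul] at this
    have := sum_le_card_nsmul (T \ T0) (fun k => ∑ l ∈ T1 \ T, (x k - x l)) (b * s) this
    rwa [nsmul_eq_mul] at this
  have q2 : q = b * ∑ k ∈ T \ T0, x k - a * ∑ l ∈ T1 \ T, x l := by
    rw [hq]
    simp only [sum_sub_distrib, sum_const, nsmul_eq_mul]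
    rw [← mul_sum]
  have hab2 : (a : ℝ) * b ≤ (Fintype.card V : ℝ) ^ 2 := by nlinarith
  have hq3 : 2 * NN G * q ≤ 1 / 2 := by
    refine le_trans ?_ hsm
    have : (a : ℝ) * (b * s) ≤ (Fintype.card V : ℝ) ^ 2 * s := by
      rw [← mul_assoc]
      exact mul_le_mul_of_nonneg_right hab2 hs0
    nlinarith
  have main : 2 * NN G * q = ((b * (z - z0) - a * (z1 - z) : ℤ) : ℝ) - 2 * (a + b) * L +
      2 * b * L0 + 2 * a * L1 := by
    push_cast
    rw [← hz, ← hz0, ← hz1]
    have e0 : ∑ k ∈ T \ T0, x k = ∑ k ∈ T, x k - ∑ k ∈ T0, x k := by linarith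
    have e1 : ∑ k ∈ T1 \ T, x k = ∑ k ∈ T1, x k - ∑ k ∈ T, x k := by linarith
    rw [q2, e0, e1]
    have : 2 * NN G * (b * (∑ k ∈ T, x k - ∑ k ∈ T0, x k) -
        a * (∑ k ∈ T1, x k - ∑ k ∈ T, x k)) =
        b * (2 * NN G * ∑ k ∈ T, x k - 2 * NN G * ∑ k ∈ T0, x k) -
        a * (2 * NN G * ∑ k ∈ T1, x k - 2 * NN G * ∑ k ∈ T, x k) := by ring
    rw [this, i, i0, i1]
    ring
  rcases le_or_gt (b * (z - z0) - a * (z1 - z) : ℤ) 0 with hD | hD
  · left
    have hDR : ((b * (z - z0) - a * (z1 - z) : ℤ) : ℝ) ≤ 0 := by exact_mod_cast hD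
    have hq4 : 0 ≤ 2 * NN G * q := by positivity
    by_contra hcon
    push Not at hcon
    nlinarith
  · right
    have hDR : (1 : ℝ) ≤ ((b * (z - z0) - a * (z1 - z) : ℤ) : ℝ) := by exact_mod_cast hD
    have h5 : 0 ≤ 2 * (b : ℝ) * L0 := by positivity
    have h6 : 0 ≤ 2 * (a : ℝ) * L1 := by positivity
    have h7 : 1 / 2 ≤ 2 * ((a : ℝ) + b) * L := by linarith
    nlinarith

theorem main (h1 : 1 ≤ NN G) : ∃ w0 c C α₁ : ℝ, 0 < w0 ∧ 0 < c ∧ ∀ α : ℝ, α₁ ≤ α →
    ∀ x ∈ K G, (∀ i, vf G α x i = 0) → ∀ i j,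
      w G α x i j ≤ C * Real.exp (-(c * α)) ∨ w0 ≤ w G α x i j := by
  have hN : 0 < NN G := by linarith
  set m : ℝ := (Fintype.card V : ℝ) with hm
  have hm0 : 0 ≤ m := Nat.cast_nonneg _
  set R : ℝ := 4 * m ^ 3 + 1 with hR
  have hR1 : 1 ≤ R := by
    have : 0 ≤ m ^ 3 := by positivity
    linarith
  set c : ℝ := 1 / (8 * NN G * (m ^ 2 + 1) * (m + 1)) with hc
  have hc0 : 0 < c := by positivity
  refine ⟨1 / (2 * (1 + R ^ (Fintype.card V))), c, m ^ 2 + 1, 1, by positivity, hc0, ?_⟩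
  intro α hα x hx hv
  have hα0 : 0 < α := by linarith
  have hx1 : ∀ i, x i ≤ 1 := by
    intro i
    rw [← hx.2.1]
    exact single_le_sum (f := x) (fun i _ => hx.1 i) (mem_univ i)
  -- the ordered case
  have key : ∀ i j, G.Adj i j → x j ≤ x i →
      w G α x i j ≤ (m ^ 2 + 1) * Real.exp (-(c * α)) ∨
        1 / (2 * (1 + R ^ (Fintype.card V))) ≤ w G α x i j := by
    intro i j hadj hji
    have hA : A G i j = 1 := by simp [A, hadj]
    have hE : 0 < Real.exp (-(c * α)) := Real.exp_pos _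
    have hw : w G α x i j ≤ pr α (x j) (x i) := by
      unfold w
      rw [hA, one_mul]
      calc pr α (x i) (x j) * pr α (x j) (x i) ≤ 1 * pr α (x j) (x i) :=
            mul_le_mul_of_nonneg_right (pr_le_one α (hx.1 i) (hx.1 j))
              (pr_nonneg α (hx.1 j) (hx.1 i))
        _ = pr α (x j) (x i) := one_mul _
    rcases (hx.1 j).lt_or_eq with hj | hj
    swap
    · left
      have : pr α (x j) (x i) = 0 := by
        unfold pr
        rw [← hj, Real.zero_rpow hα0.ne', zero_div]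
      rw [this] at hw
      exact hw.trans (by positivity)
    have hi : 0 < x i := lt_of_lt_of_le hj hji
    set g : ℝ := Real.log R / α with hg
    have hg0 : 0 ≤ g := div_nonneg (Real.log_nonneg hR1) hα0.le
    have hgα : Real.exp (g * α) = R := by
      rw [hg, div_mul_cancel₀ _ hα0.ne', Real.exp_log (by linarith)]
    by_cases hB : x i ≤ x j * Real.exp (g * m)
    · right
      have h2 := pr_ge_of_ratio hα0 hj (hx.1 i) hB
      have h3 : Real.exp (g * m * α) = R ^ (Fintype.card V) := by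
        rw [show g * m * α = (Fintype.card V : ℝ) * (g * α) by rw [hm]; ring, Real.exp_nat_mul,
          hgα]
      rw [h3] at h2
      have h4 : 1 / (1 + Real.exp (0 * α)) ≤ pr α (x i) (x j) := by
        refine pr_ge_of_ratio hα0 hi (hx.1 j) ?_
        rw [Real.exp_zero, mul_one]
        exact hji
      rw [zero_mul, Real.exp_zero] at h4
      unfold w
      rw [hA, one_mul]
      have h5 : 1 / (2 * (1 + R ^ (Fintype.card V))) =
          (1 / (1 + 1)) * (1 / (1 + R ^ (Fintype.card V))) := by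
        rw [div_mul_div_comm]; norm_num
      rw [h5]
      exact mul_le_mul h4 h2 (by positivity) (pr_nonneg α (hx.1 i) (hx.1 j))
    push Not at hB
    left
    by_cases hC : x j ≤ x i * Real.exp (-c)
    · have h2 := pr_le_of_ratio hα0 (hx.1 j) hi hC
      refine (hw.trans h2).trans ?_
      have : 0 ≤ m ^ 2 * Real.exp (-(c * α)) := by positivity
      nlinarith
    push Not at hC
    -- gaps
    obtain ⟨t0, ht0, g0⟩ := gap x (x i) c hi hc0.le i (Or.inl le_rfl)
    have hy1 : 0 < x j * Real.exp (-(c * (m + 1))) := by positivity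
    obtain ⟨t1, ht1, g1⟩ := gap x (x j * Real.exp (-(c * (m + 1)))) c hy1 hc0.le j (by
      right
      rw [mul_assoc, ← Real.exp_add, ← hm]
      have : Real.exp (-(c * (m + 1)) + c * m) < 1 := by
        rw [Real.exp_lt_one_iff]
        nlinarith
      nlinarith)
    obtain ⟨t, ht, gt⟩ := gap x (x j) g hj hg0 j (Or.inl le_rfl)
    set θ0 := x i * Real.exp (c * t0) with hθ0
    set θ1 := x j * Real.exp (-(c * (m + 1))) * Real.exp (c * t1) with hθ1
    set θ := x j * Real.exp (g * t) with hθ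
    have htR : (t : ℝ) ≤ m := by rw [hm]; exact_mod_cast ht.le
    have ht0R : (t0 : ℝ) ≤ m := by rw [hm]; exact_mod_cast ht0.le
    have ht1R : (t1 : ℝ) + 1 ≤ m := by rw [hm]; exact_mod_cast ht1
    have hxjθ : x j ≤ θ := by
      rw [hθ]
      have : 1 ≤ Real.exp (g * t) := Real.one_le_exp (by positivity)
      nlinarith
    have hθxi : θ < x i := by
      refine lt_of_le_of_lt ?_ hB
      rw [hθ]
      exact mul_le_mul_of_nonneg_left (Real.exp_le_exp.2 (mul_le_mul_of_nonneg_left htR hg0)) hj.le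
    have hxiθ0 : x i ≤ θ0 := by
      rw [hθ0]
      have : 1 ≤ Real.exp (c * t0) := Real.one_le_exp (by positivity)
      nlinarith
    have hθ1xj : θ1 < x j := by
      rw [hθ1, mul_assoc, ← Real.exp_add]
      have : Real.exp (-(c * (m + 1)) + c * t1) < 1 := by
        rw [Real.exp_lt_one_iff]
        nlinarith
      nlinarith
    have hθpos : 0 < θ := lt_of_lt_of_le hj hxjθ
    have hθ0pos : 0 < θ0 := lt_of_lt_of_le hi hxiθ0
    have hθ1pos : 0 < θ1 := by positivity
    have l0 := small_leak G hα0 hx.1 hθ0pos g0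
    have l1 := small_leak G hα0 hx.1 hθ1pos g1
    have lt := small_leak G hα0 hx.1 hθpos gt
    rw [← hm] at l0 l1 lt
    have hsub0 : TT x θ0 ⊆ TT x θ := by
      intro k hk
      rw [mem_TT] at hk ⊢
      linarith
    have hsub1 : TT x θ ⊆ TT x θ1 := by
      intro k hk
      rw [mem_TT] at hk ⊢
      linarith
    have hiT : i ∈ TT x θ := (mem_TT x θ i).2 hθxi
    have hjT : j ∉ TT x θ := by rw [mem_TT]; linarith
    have hratio : θ0 ≤ θ1 * Real.exp (c * (2 * m + 2)) := by
      have e1 : θ1 * Real.exp (c * (2 * m + 2)) =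
          x j * Real.exp (c * (m + 1 + t1)) := by
        rw [hθ1, mul_assoc, mul_assoc, ← Real.exp_add, ← Real.exp_add]
        congr 2
        ring
      have e2 : x i ≤ x j * Real.exp c := by
        have : x j * Real.exp c > x i * Real.exp (-c) * Real.exp c :=
          mul_lt_mul_of_pos_right hC (Real.exp_pos _)
        rw [mul_assoc, ← Real.exp_add, neg_add_cancel, Real.exp_zero, mul_one] at this
        exact this.le
      rw [e1, hθ0]
      calc x i * Real.exp (c * t0) ≤ x j * Real.exp c * Real.exp (c * t0) :=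
            mul_le_mul_of_nonneg_right e2 (Real.exp_pos _).le
        _ = x j * Real.exp (c * (1 + t0)) := by
            rw [mul_assoc, ← Real.exp_add]; congr 2; ring
        _ ≤ x j * Real.exp (c * (m + 1 + t1)) := by
            refine mul_le_mul_of_nonneg_left (Real.exp_le_exp.2
              (mul_le_mul_of_nonneg_left ?_ hc0.le)) hj.le
            have : (0 : ℝ) ≤ t1 := Nat.cast_nonneg _
            linarith
    have hcut := cut G hx hN hv (TT x θ0) (TT x θ) (TT x θ1) hsub0 hsub1 (c * (2 * m + 2))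
      (m ^ 2 * Real.exp (-(c * α))) (by positivity)
      (by
        intro k hk l hl
        rw [mem_sdiff, mem_TT, mem_TT, not_lt] at hk hl
        refine ⟨by linarith [hk.1, hl.2], ?_⟩
        have h3 : x k ≤ x l * Real.exp (c * (2 * m + 2)) := by
          calc x k ≤ θ0 := hk.2
            _ ≤ θ1 * Real.exp (c * (2 * m + 2)) := hratio
            _ ≤ x l * Real.exp (c * (2 * m + 2)) :=
              mul_le_mul_of_nonneg_right hl.1.le (Real.exp_pos _).le
        have h4 : x k * Real.exp (-(c * (2 * m + 2))) ≤ x l := by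
          have := mul_le_mul_of_nonneg_right h3 (Real.exp_pos (-(c * (2 * m + 2)))).le
          rwa [mul_assoc (x l), ← Real.exp_add, add_neg_cancel, Real.exp_zero, mul_one] at this
        have h5 := Real.add_one_le_exp (-(c * (2 * m + 2)))
        have h6 : x k * (1 - c * (2 * m + 2)) ≤ x l := by
          refine le_trans ?_ h4
          exact mul_le_mul_of_nonneg_left (by linarith) (hx.1 k)
        have h7 : x k * (c * (2 * m + 2)) ≤ c * (2 * m + 2) := by
          have : 0 ≤ c * (2 * m + 2) := by positivity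
          nlinarith [hx1 k]
        linarith)
      ⟨i, by rw [mem_sdiff, mem_TT x θ0]; exact ⟨hiT, by linarith⟩⟩
      ⟨j, by rw [mem_sdiff]; exact ⟨(mem_TT x θ1 j).2 hθ1xj, hjT⟩⟩
      (by
        rw [← hm, hc]
        have : 2 * NN G * m ^ 2 * (1 / (8 * NN G * (m ^ 2 + 1) * (m + 1)) * (2 * m + 2)) =
            (m ^ 2 / (m ^ 2 + 1)) * (1 / 2) := by
          field_simp
          ring
        rw [this]
        have h3 : m ^ 2 / (m ^ 2 + 1) ≤ 1 := by
          rw [div_le_one (by positivity)]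
          linarith
        linarith)
      l0 l1
    have hpr : pr α (x j) (x i) ≤ leak G α x (TT x θ) := by
      unfold leak
      have h2 : A G i j * pr α (x j) (x i) ≤
          ∑ l ∈ (TT x θ)ᶜ, A G i l * pr α (x l) (x i) :=
        single_le_sum (f := fun l => A G i l * pr α (x l) (x i))
          (fun l _ => mul_nonneg (A_nonneg G i l) (pr_nonneg α (hx.1 l) (hx.1 i)))
          (mem_compl.2 hjT)
      have h3 : ∑ l ∈ (TT x θ)ᶜ, A G i l * pr α (x l) (x i) ≤
          ∑ k ∈ TT x θ, ∑ l ∈ (TT x θ)ᶜ, A G k l * pr α (x l) (x k) :=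
        single_le_sum (f := fun k => ∑ l ∈ (TT x θ)ᶜ, A G k l * pr α (x l) (x k))
          (fun k _ => sum_nonneg fun l _ =>
            mul_nonneg (A_nonneg G k l) (pr_nonneg α (hx.1 l) (hx.1 k))) hiT
      rw [hA, one_mul] at h2
      exact h2.trans h3
    rcases hcut with h | h
    · refine (hw.trans (hpr.trans h)).trans ?_
      nlinarith
    · exfalso
      rw [← hm] at h
      have e1 : Real.exp (-(g * α)) = 1 / R := by
        rw [Real.exp_neg, hgα, one_div]
      rw [e1] at lt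
      have h3 : m * leak G α x (TT x θ) ≤ m * (m ^ 2 * (1 / R)) :=
        mul_le_mul_of_nonneg_left lt hm0
      have h4 : m * (m ^ 2 * (1 / R)) < 1 / 4 := by
        rw [show m * (m ^ 2 * (1 / R)) = m ^ 3 / R by ring, div_lt_iff₀ (by linarith)]
        rw [hR]
        linarith
      linarith
  intro i j
  by_cases hadj : G.Adj i j
  · rcases le_total (x j) (x i) with h | h
    · exact key i j hadj h
    · have := key j i hadj.symm h
      have e : w G α x j i = w G α x i j := by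
        unfold w
        rw [A_symm G j i, mul_comm (pr α (x j) (x i))]
      rwa [e] at this
  · left
    have : w G α x i j = 0 := by
      unfold w A
      rw [if_neg hadj, zero_mul]
    rw [this]
    positivity

end

end H483U.TaskDich

namespace H483U.Dich

theorem t : H483U.TaskDich := by
  intro V _ _ G _ h1
  exact H483U.TaskDich.main G h1

end H483U.Dich
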