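import Pool.Agent.H483R3.Urn.Stmts

set_option autoImplicit false

namespace H483U.Edge

lemma bern {α t t' : ℝ} (hα : 1 ≤ α) (ht : 0 < t) (ht' : 0 < t') :
    t ^ α + α * (t ^ (α - 1) * (t' - t)) ≤ t' ^ α := by
  have h1 : -1 ≤ (t' - t) / t := by
    rw [le_div_iff₀ ht]; linarith
  have h2 := one_add_mul_self_le_rpow_one_add h1 hα
  have h3 : 1 + (t' - t) / t = t' / t := by field_simp; ring
  rw [h3, Real.div_rpow ht'.le ht.le] at h2
  have h4 : 0 < t ^ α := Real.rpow_pos_of_pos ht _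
  rw [le_div_iff₀ h4] at h2
  have h5 : t ^ (α - 1) = t ^ α / t := by
    rw [Real.rpow_sub ht, Real.rpow_one]
  calc t ^ α + α * (t ^ (α - 1) * (t' - t)) = (1 + α * ((t' - t) / t)) * t ^ α := by
        rw [h5]; field_simp
    _ ≤ _ := h2

lemma absdiff {α t t' : ℝ} (hα : 1 ≤ α) (ht : 0 < t) (ht' : 0 < t') (h1 : t ≤ 1) (h1' : t' ≤ 1) :
    |t' ^ α - t ^ α| ≤ α * |t' - t| := by
  have e1 := bern hα ht ht'
  have e2 := bern hα ht' ht
  have p1 : t ^ (α - 1) ≤ 1 := Real.rpow_le_one ht.le h1 (by linarith)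
  have p1' : t' ^ (α - 1) ≤ 1 := Real.rpow_le_one ht'.le h1' (by linarith)
  have q1 : 0 < t ^ (α - 1) := Real.rpow_pos_of_pos ht _
  have q1' : 0 < t' ^ (α - 1) := Real.rpow_pos_of_pos ht' _
  have r1 : |t ^ (α - 1) * (t' - t)| ≤ |t' - t| := by
    rw [abs_mul, abs_of_pos q1]
    exact mul_le_of_le_one_left (abs_nonneg _) p1
  have r2 : |t' ^ (α - 1) * (t - t')| ≤ |t' - t| := by
    rw [abs_mul, abs_of_pos q1', abs_sub_comm t t']
    exact mul_le_of_le_one_left (abs_nonneg _) p1'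
  have hα0 : 0 ≤ α := by linarith
  have s1 : α * (-|t' - t|) ≤ α * (t ^ (α - 1) * (t' - t)) :=
    mul_le_mul_of_nonneg_left (abs_le.1 r1).1 hα0
  have s2 : α * (-|t' - t|) ≤ α * (t' ^ (α - 1) * (t - t')) :=
    mul_le_mul_of_nonneg_left (abs_le.1 r2).1 hα0
  rw [abs_le]
  constructor <;> linarith

lemma lower {α r a b : ℝ} (hα : 1 ≤ α) (hr : 0 < r) (ha : 0 < a) (hb : 0 < b) (h : r ≤ a + b) :
    (r / 2) ^ α ≤ a ^ α + b ^ α := by
  have hα0 : 0 ≤ α := by linarith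
  have h1 : 0 < a ^ α := Real.rpow_pos_of_pos ha _
  have h2 : 0 < b ^ α := Real.rpow_pos_of_pos hb _
  rcases le_total a b with h3 | h3
  · have : (r / 2) ^ α ≤ b ^ α := Real.rpow_le_rpow (by positivity) (by linarith) hα0
    linarith
  · have : (r / 2) ^ α ≤ a ^ α := Real.rpow_le_rpow (by positivity) (by linarith) hα0
    linarith

lemma loglow {u u' u0 : ℝ} (h0 : 0 < u0) (hu : u0 ≤ u) (hu' : u0 ≤ u') :
    (u' - u) / u - (u' - u) ^ 2 / u0 ^ 2 ≤ Real.log u' - Real.log u := by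
  have hup : 0 < u := by linarith
  have hup' : 0 < u' := by linarith
  have h1 := Real.one_sub_inv_le_log_of_pos (show 0 < u' / u by positivity)
  rw [Real.log_div hup'.ne' hup.ne'] at h1
  have h2 : 1 - (u' / u)⁻¹ = (u' - u) / u - (u' - u) ^ 2 / (u * u') := by
    field_simp
    ring
  have h3 : (u' - u) ^ 2 / (u * u') ≤ (u' - u) ^ 2 / u0 ^ 2 := by
    apply div_le_div_of_nonneg_left (sq_nonneg _) (by positivity)
    nlinarith
  linarith

theorem t : H483U.TaskEdge := by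
  intro α r hα hr
  have hα0 : 0 < α := by linarith
  set u0 := (r / 2) ^ α with hu0
  have hu0p : 0 < u0 := Real.rpow_pos_of_pos (by positivity) _
  refine ⟨2 * α / u0 ^ 2, by positivity, ?_⟩
  intro a b a' b' ha hb ha' hb' ha1 hb1 ha1' hb1' hab hab'
  have l1 := lower hα hr ha hb hab
  have l2 := lower hα hr ha' hb' hab'
  set u := a ^ α + b ^ α with hu
  set u' := a' ^ α + b' ^ α with hu'
  have hup : 0 < u := by linarith
  have e1 := loglow hu0p l1 l2
  have e2 := bern hα ha ha'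
  have e3 := bern hα hb hb'
  have e4 := absdiff hα ha ha' ha1 ha1'
  have e5 := absdiff hα hb hb' hb1 hb1'
  set S := a ^ (α - 1) * (a' - a) + b ^ (α - 1) * (b' - b) with hS
  have e6 : α * S ≤ u' - u := by
    have : α * S = α * (a ^ (α - 1) * (a' - a)) + α * (b ^ (α - 1) * (b' - b)) := by
      rw [hS]; ring
    rw [this, hu, hu']; linarith
  have e7 : (u' - u) ^ 2 ≤ 2 * α ^ 2 * ((a' - a) ^ 2 + (b' - b) ^ 2) := by
    have h1 : |u' - u| ≤ α * (|a' - a| + |b' - b|) := by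
      have : u' - u = (a' ^ α - a ^ α) + (b' ^ α - b ^ α) := by rw [hu, hu']; ring
      rw [this]
      refine (abs_add_le _ _).trans ?_
      linarith
    have h2 : (u' - u) ^ 2 ≤ (α * (|a' - a| + |b' - b|)) ^ 2 := by
      rw [← sq_abs (u' - u)]
      exact pow_le_pow_left₀ (abs_nonneg _) h1 2
    refine h2.trans ?_
    have h3 : (|a' - a| + |b' - b|) ^ 2 ≤ 2 * ((a' - a) ^ 2 + (b' - b) ^ 2) := by
      rw [← sq_abs (a' - a), ← sq_abs (b' - b)]
      nlinarith [sq_nonneg (|a' - a| - |b' - b|)]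
    rw [mul_pow]
    nlinarith [sq_nonneg α]
  have e8 : S / u ≤ 1 / α * ((u' - u) / u) := by
    rw [div_mul_div_comm, one_mul, div_le_div_iff₀ hup (by positivity)]
    have := mul_le_mul_of_nonneg_right e6 hup.le
    nlinarith
  have e9 : 1 / α * ((u' - u) ^ 2 / u0 ^ 2) ≤
      2 * α / u0 ^ 2 * ((a' - a) ^ 2 + (b' - b) ^ 2) := by
    calc 1 / α * ((u' - u) ^ 2 / u0 ^ 2) ≤
        1 / α * ((2 * α ^ 2 * ((a' - a) ^ 2 + (b' - b) ^ 2)) / u0 ^ 2) := by gcongr
      _ = _ := by field_simp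
  have e10 : 1 / α * ((u' - u) / u - (u' - u) ^ 2 / u0 ^ 2) ≤
      1 / α * (Real.log u' - Real.log u) := by gcongr
  have e11 : 1 / α * ((u' - u) / u - (u' - u) ^ 2 / u0 ^ 2) =
      1 / α * ((u' - u) / u) - 1 / α * ((u' - u) ^ 2 / u0 ^ 2) := by ring
  have e12 : 1 / α * (Real.log u' - Real.log u) = 1 / α * Real.log u' - 1 / α * Real.log u := by
    ring
  linarith

end H483U.Edge
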