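import Mathlib
import Pool.Agent.H483R3.Urn.Stmts

set_option autoImplicit false

namespace H483U.Fin

open Filter Topology

section
variable {V : Type} [Fintype V] [DecidableEq V]

omit [DecidableEq V] in
theorem hd (α : ℝ) (hα : 2 ≤ α) (p : V → ℝ) (i j : V) (hi : 0 < p i) (hj : 0 ≤ p j) :
    ∃ L : (V → ℝ) →L[ℝ] ℝ, HasFDerivAt (fun x : V → ℝ => pr α (x i) (x j)) L p ∧
      ∀ h : V → ℝ, L h = α * (pr α (p i) (p j) * pr α (p j) (p i)) *
        (h i / p i - h j / p j) := by
  have hpow : ∀ k : V, HasFDerivAt (fun x : V → ℝ => x k ^ α)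
      ((α * p k ^ (α - 1)) • (ContinuousLinearMap.proj k : (V → ℝ) →L[ℝ] ℝ)) p := by
    intro k
    have h1 : HasDerivAt (fun y : ℝ => y ^ α) (α * p k ^ (α - 1)) (p k) :=
      Real.hasDerivAt_rpow_const (Or.inr (by linarith))
    have h2 : HasFDerivAt (fun x : V → ℝ => x k)
        (ContinuousLinearMap.proj k : (V → ℝ) →L[ℝ] ℝ) p := hasFDerivAt_apply k p
    exact h1.comp_hasFDerivAt p h2
  have ha : 0 < p i ^ α := Real.rpow_pos_of_pos hi α
  have hb : 0 ≤ p j ^ α := Real.rpow_nonneg hj α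
  have hv : p i ^ α + p j ^ α ≠ 0 := by positivity
  have h1 := (hpow i).add (hpow j)
  have h2 := (hasDerivAt_inv hv).comp_hasFDerivAt p h1
  have h3 := (hpow i).mul h2
  refine ⟨_, h3.congr_of_eventuallyEq ?_, ?_⟩
  · refine Eventually.of_forall fun x => ?_
    simp [pr, div_eq_mul_inv]
  · intro h
    have hj' : p j ^ (α - 1) * h j = p j ^ α * (h j / p j) := by
      rcases hj.eq_or_lt with h0 | h0
      · rw [← h0, Real.zero_rpow (by linarith), Real.zero_rpow (by linarith)]; simp
      · rw [Real.rpow_sub_one h0.ne']; ring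
    have hi' : p i ^ (α - 1) * h i = p i ^ α * (h i / p i) := by
      rw [Real.rpow_sub_one hi.ne']; ring
    have hv' : p j ^ α + p i ^ α ≠ 0 := by rwa [add_comm]
    simp only [_root_.add_apply, _root_.smul_apply,
      ContinuousLinearMap.proj_apply, smul_eq_mul, pr, Function.comp]
    rw [mul_assoc α (p i ^ (α - 1)), mul_assoc α (p j ^ (α - 1)), hj', hi']
    simp only [Pi.add_apply]
    rw [add_comm (p j ^ α) (p i ^ α)]
    field_simp
    ring

theorem hvf (G : SimpleGraph V) [DecidableRel G.Adj] (α : ℝ) (hα : 2 ≤ α) (p : V → ℝ)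
    (hp : ∀ j, 0 ≤ p j) (i : V) (hi : 0 < p i) :
    ∃ L : (V → ℝ) →L[ℝ] ℝ, HasFDerivAt (fun x : V → ℝ => vf G α x i) L p ∧
      ∀ h : V → ℝ, L h = - h i + α / NN G * ∑ j, w G α p i j * (h i / p i - h j / p j) := by
  choose L hL hLh using fun j => hd α hα p i j hi (hp j)
  have h1 : HasFDerivAt (fun x : V → ℝ => ∑ j, A G i j * pr α (x i) (x j))
      (∑ j, A G i j • L j) p := HasFDerivAt.fun_sum fun j _ => (hL j).const_mul (A G i j)
  have h2 := (hasFDerivAt_apply (𝕜 := ℝ) i p).neg.add (h1.const_mul (1 / NN G))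
  refine ⟨_, h2, fun h => ?_⟩
  simp only [_root_.add_apply, _root_.neg_apply,
    _root_.smul_apply, ContinuousLinearMap.proj_apply, smul_eq_mul,
    _root_.sum_apply, hLh, w]
  rw [div_mul_eq_mul_div, one_mul, div_mul_eq_mul_div, Finset.mul_sum]
  congr 2
  refine Finset.sum_congr rfl fun j _ => ?_
  ring

end

theorem t : H483U.TaskFin := by
  intro hLow hCont V _ _ G _ hN α hα hGap
  obtain ⟨hvc, hK, -⟩ := hCont V G α (by linarith)
  set Z : Set (V → ℝ) := {x | x ∈ K G ∧ ∀ i, vf G α x i = 0} with hZ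
  by_contra hinf
  have hinf' : Z.Infinite := hinf
  have hZK : Z ⊆ K G := fun x hx => hx.1
  obtain ⟨p, hpK, hacc⟩ := hinf'.exists_accPt_of_subset_isCompact hK hZK
  have hne : Nonempty V := by
    by_contra hV
    rw [not_nonempty_iff] at hV
    have := hpK.2.1
    simp at this
  have hfr := accPt_iff_frequently_nhdsNE.1 hacc
  -- `p ∈ Z`
  have hpZ : p ∈ Z := by
    refine ⟨hpK, fun i => ?_⟩
    have hcl : IsClosed (K G ∩ (fun x => vf G α x i) ⁻¹' {0}) :=
      (hvc i).preimage_isClosed_of_isClosed hK.isClosed isClosed_singleton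
    have hmem : p ∈ closure (K G ∩ (fun x => vf G α x i) ⁻¹' {0}) := by
      rw [mem_closure_iff_frequently]
      refine (hfr.filter_mono nhdsWithin_le_nhds).mono fun x hx => ?_
      exact ⟨hx.1, hx.2 i⟩
    exact (hcl.closure_subset hmem).2
  have hdl : 0 < dl G := by
    unfold dl
    have : (0 : ℝ) < Fintype.card V := by exact_mod_cast Fintype.card_pos
    positivity
  -- the map
  let F : (V → ℝ) → (V → ℝ) := fun x i => if p i = 0 then x i else vf G α x i
  have hF0 : F p = 0 := by
    funext i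
    by_cases h : p i = 0
    · simp [F, h]
    · simp [F, h, hpZ.2 i]
  have hL : ∀ i, ∃ L : (V → ℝ) →L[ℝ] ℝ, HasFDerivAt (fun x => F x i) L p ∧
      ∀ h : V → ℝ, L h = if p i = 0 then h i else
        - h i + α / NN G * ∑ j, w G α p i j * (h i / p i - h j / p j) := by
    intro i
    by_cases h : p i = 0
    · refine ⟨ContinuousLinearMap.proj i, ?_, fun h' => ?_⟩
      · simp only [F, if_pos h]
        exact hasFDerivAt_apply (𝕜 := ℝ) i p
      · simp [h]
    · obtain ⟨L, h1, h2⟩ := hvf G α hα p hpK.1 i (lt_of_le_of_ne (hpK.1 i) (Ne.symm h))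
      refine ⟨L, ?_, fun h' => ?_⟩
      · simp only [F, if_neg h]
        exact h1
      · rw [if_neg h, h2]
  choose L hLd hLf using hL
  have hFd : HasFDerivAt F (ContinuousLinearMap.pi L) p := hasFDerivAt_pi.2 hLd
  -- injectivity of the derivative
  have hker : LinearMap.ker (ContinuousLinearMap.pi L : (V → ℝ) →ₗ[ℝ] (V → ℝ)) = ⊥ := by
    rw [LinearMap.ker_eq_bot']
    intro h hh
    have hi : ∀ i, L i h = 0 := fun i => congrFun hh i
    have hz : ∀ i, p i = 0 → h i = 0 := by
      intro i h0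
      have := hi i
      rwa [hLf, if_pos h0] at this
    by_contra hne0
    obtain ⟨k, hk⟩ : ∃ k, h k ≠ 0 := by
      by_contra hcon
      push Not at hcon
      exact hne0 (funext hcon)
    have hpk : p k ≠ 0 := fun h0 => hk (hz k h0)
    have := hGap p hpK hpZ.2 1 (fun i => h i / p i) zero_le_one (by norm_num)
      ⟨k, hpk, div_ne_zero hk hpk⟩ (by
        intro i hpi
        have h1 := hi i
        rw [hLf, if_neg hpi] at h1
        have h2 : 1 * p i * (h i / p i) = h i := by field_simp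
        rw [h2]
        linarith)
    norm_num at this
  obtain ⟨C, -, hC⟩ := LinearMap.exists_antilipschitzWith
    (ContinuousLinearMap.pi L : (V → ℝ) →ₗ[ℝ] (V → ℝ)) hker
  have hev : ∀ᶠ z in 𝓝[≠] p, F z ≠ 0 := hFd.eventually_ne ⟨C, hC⟩
  -- near `p`, the support of an equilibrium is that of `p`
  have hsup : ∀ᶠ z in 𝓝[≠] p, z ∈ Z → F z = 0 := by
    have h1 : ∀ᶠ z in 𝓝 p, ∀ i, p i = 0 → z i < dl G := by
      rw [eventually_all]
      intro i
      by_cases h : p i = 0
      · have : Tendsto (fun z : V → ℝ => z i) (𝓝 p) (𝓝 (p i)) := (continuous_apply i).tendsto p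
        filter_upwards [this.eventually_lt_const (h ▸ hdl)] with z hz _ using hz
      · exact Eventually.of_forall fun z h' => absurd h' h
    refine (h1.filter_mono nhdsWithin_le_nhds).mono fun z hz hzZ => ?_
    funext i
    by_cases h : p i = 0
    · have : z i = 0 := by
        by_contra hne
        exact absurd (hLow V G hN α hα z hzZ.1 hzZ.2 i hne) (not_le.2 (hz i h))
      simp [F, h, this]
    · simp [F, h, hzZ.2 i]
  obtain ⟨z, hz1, hz2, hz3⟩ := (hfr.and_eventually (hev.and hsup)).exists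
  exact hz2 (hz3 hz1)

end H483U.Fin
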