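import Mathlib
import Pool.Agent.H483R3.Urn.Stmts

/-!
Project H483-URN, task TaskLow (helper174).
-/

set_option autoImplicit false

namespace H483U.Low

open H483U

theorem t : H483U.TaskLow := by
  intro V _ _ G _ hN α hα x hx hv i hi
  obtain ⟨hx0, hx1, hxA⟩ := hx
  have hcard : (1 : ℝ) ≤ (Fintype.card V : ℝ) := by
    have : 0 < Fintype.card V := Fintype.card_pos_iff.2 ⟨i⟩
    exact_mod_cast this
  set N : ℝ := NN G with hNdef
  set c : ℝ := (Fintype.card V : ℝ) with hc
  have hs : 0 < x i := lt_of_le_of_ne (hx0 i) (Ne.symm hi)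
  set s : ℝ := x i with hsdef
  set r : ℝ := 1 / (N + 1) with hr
  have hN1 : 0 < N + 1 := by linarith
  have hr0 : 0 < r := by positivity
  have hNr : N * r < 1 := by
    rw [hr, mul_one_div, div_lt_one hN1]
    linarith
  have hdl : dl G = N * r ^ 2 / (4 * c) := by
    rw [dl, ← hNdef, ← hc, hr]
    field_simp
  rw [hdl]
  by_cases hcase : r / 2 ≤ s
  · refine le_trans ?_ hcase
    rw [div_le_iff₀ (by positivity)]
    have h1 : N * r ^ 2 ≤ r := by
      have : N * r ^ 2 = (N * r) * r := by ring
      rw [this]
      nlinarith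
    nlinarith
  · have hcase' : s < r / 2 := not_le.1 hcase
    have hsum : N * s = ∑ j, A G i j * pr α s (x j) := by
      have h0 := hv i
      unfold vf at h0
      have hN0 : N ≠ 0 := by linarith
      have h1 : s = (1 / N) * ∑ j, A G i j * pr α s (x j) := by
        rw [hsdef, hNdef]
        linarith
      have h2 : N * s = N * ((1 / N) * ∑ j, A G i j * pr α s (x j)) := congrArg (N * ·) h1
      rw [h2, ← mul_assoc, mul_one_div_cancel hN0, one_mul]
    have hterm : ∀ j, A G i j * pr α s (x j) ≤ (2 * s / r) ^ 2 := by
      intro j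
      unfold A
      by_cases hadj : G.Adj i j
      · rw [if_pos hadj, one_mul]
        have hj := hxA i j hadj
        have hxj : r / 2 ≤ x j := by
          have : r ≤ s + x j := hj
          linarith
        have hxj0 : 0 < x j := by linarith
        unfold pr
        have h1 : s ^ α / (s ^ α + x j ^ α) ≤ s ^ α / x j ^ α := by
          apply div_le_div_of_nonneg_left
          · positivity
          · positivity
          · have : 0 < s ^ α := by positivity
            linarith
        have h2 : s ^ α / x j ^ α = (s / x j) ^ α := (Real.div_rpow hs.le hxj0.le α).symm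
        have h3 : s / x j ≤ 2 * s / r := by
          rw [div_le_div_iff₀ hxj0 hr0]
          nlinarith
        have h4 : (s / x j) ^ α ≤ (2 * s / r) ^ α :=
          Real.rpow_le_rpow (by positivity) h3 (by linarith)
        have h5 : (2 * s / r) ^ α ≤ (2 * s / r) ^ (2 : ℝ) := by
          apply Real.rpow_le_rpow_of_exponent_ge (by positivity) _ hα
          rw [div_le_one hr0]
          linarith
        have h6 : (2 * s / r) ^ (2 : ℝ) = (2 * s / r) ^ 2 := by norm_cast
        calc s ^ α / (s ^ α + x j ^ α) ≤ (s / x j) ^ α := by rw [← h2]; exact h1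
          _ ≤ (2 * s / r) ^ (2 : ℝ) := h4.trans h5
          _ = (2 * s / r) ^ 2 := h6
      · rw [if_neg hadj, zero_mul]
        positivity
    have hle : N * s ≤ c * (2 * s / r) ^ 2 := by
      rw [hsum]
      calc ∑ j, A G i j * pr α s (x j) ≤ ∑ _j : V, (2 * s / r) ^ 2 :=
            Finset.sum_le_sum fun j _ => hterm j
        _ = c * (2 * s / r) ^ 2 := by
            rw [Finset.sum_const, nsmul_eq_mul, Finset.card_univ]
    rw [div_le_iff₀ (by positivity)]
    have h7 : c * (2 * s / r) ^ 2 = (c * 4 * s ^ 2) / r ^ 2 := by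
      field_simp
      ring
    rw [h7, le_div_iff₀ (by positivity)] at hle
    have h8 : s * (N * r ^ 2) ≤ s * (s * (4 * c)) := by nlinarith
    exact le_of_mul_le_mul_left h8 hs

end H483U.Low
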