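import Mathlib
import Pool.Agent.H483R3.Urn.Stmts

set_option autoImplicit false

namespace H483U.Lyap

open MeasureTheory ProbabilityTheory Filter Topology

section det
variable {V : Type} [Fintype V] [DecidableEq V] (G : SimpleGraph V) [DecidableRel G.Adj]

noncomputable def P (α : ℝ) (x : V → ℝ) (i j : V) : ℝ := x i ^ (α - 1) / (x i ^ α + x j ^ α)

noncomputable def DD (α : ℝ) (x : V → ℝ) (i : V) : ℝ :=
  (1 / NN G) * ∑ j, A G i j * P α x i j

noncomputable def LL (α : ℝ) (x : V → ℝ) : ℝ :=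
  (1 / (2 * NN G)) * ∑ i, ∑ j, A G i j * (1 / α * Real.log (x i ^ α + x j ^ α))

theorem A_symm (i j : V) : A G i j = A G j i := by
  unfold A; simp only [G.adj_comm]

theorem A_nonneg (i j : V) : 0 ≤ A G i j := by
  unfold A; split_ifs <;> norm_num

theorem A_le_one (i j : V) : A G i j ≤ 1 := by
  unfold A; split_ifs <;> norm_num

theorem sum_A : ∑ i, ∑ j, A G i j = 2 * NN G := by
  have h1 : ∀ i, ∑ j, A G i j = (G.degree i : ℝ) := by
    intro i
    unfold A
    rw [Finset.sum_boole, ← G.card_neighborFinset_eq_degree, G.neighborFinset_eq_filter]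
  simp_rw [h1]
  have h2 := G.sum_degrees_eq_twice_card_edges
  have h3 : (∑ i, (G.degree i : ℝ)) = ((∑ i, G.degree i : ℕ) : ℝ) := by push_cast; rfl
  rw [h3, h2]
  unfold NN
  rw [← SimpleGraph.edgeFinset_card]
  push_cast; ring

theorem x_mul_P (α : ℝ) (x : V → ℝ) (i j : V) (hx : 0 < x i) :
    x i * P α x i j = pr α (x i) (x j) := by
  unfold P pr
  rw [Real.rpow_sub_one hx.ne']
  field_simp

theorem vf_eq (α : ℝ) (x : V → ℝ) (hx : ∀ i, 0 < x i) (i : V) :
    vf G α x i = x i * (DD G α x i - 1) := by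
  unfold vf DD
  rw [mul_sub, mul_one]
  have : x i * (1 / NN G * ∑ j, A G i j * P α x i j)
      = 1 / NN G * ∑ j, A G i j * pr α (x i) (x j) := by
    rw [mul_left_comm, Finset.mul_sum]
    congr 1
    refine Finset.sum_congr rfl fun j _ => ?_
    rw [← x_mul_P α x i j (hx i)]; ring
  rw [this]; ring

theorem pr_add (α a b : ℝ) (ha : 0 < a) (hb : 0 < b) : pr α a b + pr α b a = 1 := by
  unfold pr
  have h1 : 0 < a ^ α := Real.rpow_pos_of_pos ha α
  have h2 : 0 < b ^ α := Real.rpow_pos_of_pos hb α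
  rw [add_comm (b ^ α) (a ^ α), ← add_div, div_self (by positivity)]

theorem pr_nonneg (α a b : ℝ) (ha : 0 < a) (hb : 0 < b) : 0 ≤ pr α a b := by
  unfold pr
  have h1 : 0 < a ^ α := Real.rpow_pos_of_pos ha α
  have h2 : 0 < b ^ α := Real.rpow_pos_of_pos hb α
  positivity

theorem pr_le_one (α a b : ℝ) (ha : 0 < a) (hb : 0 < b) : pr α a b ≤ 1 := by
  have := pr_add α a b ha hb
  have := pr_nonneg α b a hb ha
  linarith

theorem sum_swap (f : V → V → ℝ) (hf : ∀ i j, f i j = f j i) (u : V → V → ℝ) :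
    ∑ i, ∑ j, f i j * u j i = ∑ i, ∑ j, f i j * u i j := by
  rw [Finset.sum_comm]
  refine Finset.sum_congr rfl fun i _ => Finset.sum_congr rfl fun j _ => ?_
  rw [hf j i]

theorem sum_vf (α : ℝ) (x : V → ℝ) (hx : ∀ i, 0 < x i) (hs : ∑ i, x i = 1) (hN : 1 ≤ NN G) :
    ∑ i, vf G α x i = 0 := by
  unfold vf
  rw [Finset.sum_add_distrib, Finset.sum_neg_distrib, hs, ← Finset.mul_sum]
  have h1 : ∑ i, ∑ j, A G i j * pr α (x j) (x i) = ∑ i, ∑ j, A G i j * pr α (x i) (x j) :=
    sum_swap (A G) (A_symm G) (fun i j => pr α (x i) (x j))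
  have h2 : ∑ i, ∑ j, A G i j * pr α (x i) (x j) + ∑ i, ∑ j, A G i j * pr α (x j) (x i)
      = 2 * NN G := by
    rw [← sum_A G, ← Finset.sum_add_distrib]
    refine Finset.sum_congr rfl fun i _ => ?_
    rw [← Finset.sum_add_distrib]
    refine Finset.sum_congr rfl fun j _ => ?_
    rw [← mul_add, pr_add α _ _ (hx i) (hx j), mul_one]
  rw [h1] at h2
  have h3 : ∑ i, ∑ j, A G i j * pr α (x i) (x j) = NN G := by linarith
  rw [h3, one_div, inv_mul_cancel₀ (by linarith)]
  ring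

theorem le_one_of_sum (x : V → ℝ) (hx : ∀ i, 0 < x i) (hs : ∑ i, x i = 1) (i : V) : x i ≤ 1 := by
  rw [← hs]
  exact Finset.single_le_sum (fun j _ => (hx j).le) (Finset.mem_univ i)

theorem DD_vf (α : ℝ) (x : V → ℝ) (hx : ∀ i, 0 < x i) (hs : ∑ i, x i = 1) (hN : 1 ≤ NN G) :
    ∑ i, vf G α x i ^ 2 ≤ ∑ i, DD G α x i * vf G α x i := by
  have h0 := sum_vf G α x hx hs hN
  have h1 : ∑ i, DD G α x i * vf G α x i = ∑ i, (DD G α x i - 1) * vf G α x i := by
    simp_rw [sub_mul, one_mul, Finset.sum_sub_distrib, h0, sub_zero]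
  rw [h1]
  refine Finset.sum_le_sum fun i _ => ?_
  rw [vf_eq G α x hx i]
  have h2 := le_one_of_sum x hx hs i
  have h3 := hx i
  nlinarith [mul_nonneg (mul_nonneg h3.le (sub_nonneg.2 h2)) (sq_nonneg (DD G α x i - 1))]

theorem abs_vf_le (α : ℝ) (x : V → ℝ) (hx : ∀ i, 0 < x i) (hs : ∑ i, x i = 1) (hN : 1 ≤ NN G)
    (i : V) : |vf G α x i| ≤ Fintype.card V + 1 := by
  have h1 := le_one_of_sum x hx hs i
  have h2 := hx i
  have h3 : 0 ≤ ∑ j, A G i j * pr α (x i) (x j) :=
    Finset.sum_nonneg fun j _ => mul_nonneg (A_nonneg G i j) (pr_nonneg α _ _ (hx i) (hx j))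
  have h4 : ∑ j, A G i j * pr α (x i) (x j) ≤ Fintype.card V := by
    calc ∑ j, A G i j * pr α (x i) (x j) ≤ ∑ _j : V, (1 : ℝ) :=
          Finset.sum_le_sum fun j _ => by
            have := A_le_one G i j
            have := A_nonneg G i j
            have := pr_le_one α _ _ (hx i) (hx j)
            have := pr_nonneg α _ _ (hx i) (hx j)
            nlinarith
      _ = _ := by simp
  have h5 : 1 / NN G ≤ 1 := by rw [div_le_one (by linarith)]; exact hN
  have h6 : 0 ≤ 1 / NN G := by positivity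
  have h7 : 1 / NN G * ∑ j, A G i j * pr α (x i) (x j) ≤ Fintype.card V := by
    calc _ ≤ 1 * (Fintype.card V : ℝ) := mul_le_mul h5 h4 h3 (by norm_num)
      _ = _ := one_mul _
  have h8 : 0 ≤ 1 / NN G * ∑ j, A G i j * pr α (x i) (x j) := mul_nonneg h6 h3
  unfold vf
  rw [abs_le]
  constructor
  · have : (0 : ℝ) ≤ Fintype.card V := Nat.cast_nonneg _
    linarith
  · linarith

theorem lyap_step (α : ℝ) (hN : 1 ≤ NN G) (C : ℝ) (hC0 : 0 ≤ C)
    (hC : ∀ a b a' b' : ℝ, 0 < a → 0 < b → 0 < a' → 0 < b' → a ≤ 1 → b ≤ 1 → a' ≤ 1 → b' ≤ 1 →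
      1 / (NN G + 1) ≤ a + b → 1 / (NN G + 1) ≤ a' + b' →
      1 / α * Real.log (a ^ α + b ^ α) + (a ^ (α - 1) * (a' - a) + b ^ (α - 1) * (b' - b)) /
        (a ^ α + b ^ α) - C * ((a' - a) ^ 2 + (b' - b) ^ 2) ≤
        1 / α * Real.log (a' ^ α + b' ^ α))
    (x y : V → ℝ) (hx : ∀ i, 0 < x i) (hy : ∀ i, 0 < y i) (hxs : ∑ i, x i = 1)
    (hys : ∑ i, y i = 1) (hxK : x ∈ K G) (hyK : y ∈ K G) (g : ℝ) (hg : 0 ≤ g) (ξ : V → ℝ)
    (hξ : ∀ i, |ξ i| ≤ 1) (hstep : ∀ i, y i = x i + g * (vf G α x i + ξ i)) :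
    g * ∑ i, vf G α x i ^ 2 ≤ LL G α y - LL G α x - g * ∑ i, DD G α x i * ξ i
      + C * (Fintype.card V) ^ 2 * (Fintype.card V + 2) ^ 2 * g ^ 2 := by
  set m : ℝ := (Fintype.card V : ℝ) with hm
  have hm0 : 0 ≤ m := Nat.cast_nonneg _
  have hN0 : 0 < NN G := by linarith
  have hΔ : ∀ i, (y i - x i) ^ 2 ≤ ((m + 2) * g) ^ 2 := by
    intro i
    rw [hstep i]
    have h1 := abs_vf_le G α x hx hxs hN i
    have h2 : |vf G α x i + ξ i| ≤ m + 2 := (abs_add_le _ _).trans (by linarith [hξ i])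
    rw [← sq_abs (x i + g * (vf G α x i + ξ i) - x i)]
    apply pow_le_pow_left₀ (abs_nonneg _)
    rw [add_sub_cancel_left, abs_mul, abs_of_nonneg hg, mul_comm]
    exact mul_le_mul_of_nonneg_right h2 hg
  -- sum of the edge inequality
  have hedge : ∀ i j, A G i j * (1 / α * Real.log (x i ^ α + x j ^ α))
      + A G i j * (P α x i j * (y i - x i)) + A G i j * (P α x j i * (y j - x j))
      - 2 * C * ((m + 2) * g) ^ 2
      ≤ A G i j * (1 / α * Real.log (y i ^ α + y j ^ α)) := by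
    intro i j
    by_cases hij : G.Adj i j
    · have hA : A G i j = 1 := by unfold A; rw [if_pos hij]
      rw [hA, one_mul, one_mul, one_mul, one_mul]
      have h := hC (x i) (x j) (y i) (y j) (hx i) (hx j) (hy i) (hy j)
        (le_one_of_sum x hx hxs i) (le_one_of_sum x hx hxs j)
        (le_one_of_sum y hy hys i) (le_one_of_sum y hy hys j) (hxK.2.2 i j hij) (hyK.2.2 i j hij)
      have e1 : (x i ^ (α - 1) * (y i - x i) + x j ^ (α - 1) * (y j - x j)) /
          (x i ^ α + x j ^ α) = P α x i j * (y i - x i) + P α x j i * (y j - x j) := by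
        unfold P
        rw [add_comm (x j ^ α) (x i ^ α), add_div]
        ring
      rw [e1] at h
      have h3 : C * ((y i - x i) ^ 2 + (y j - x j) ^ 2) ≤ 2 * C * ((m + 2) * g) ^ 2 := by
        have := mul_le_mul_of_nonneg_left (add_le_add (hΔ i) (hΔ j)) hC0
        linarith
      linarith
    · have hA : A G i j = 0 := by unfold A; rw [if_neg hij]
      rw [hA]
      have : 0 ≤ 2 * C * ((m + 2) * g) ^ 2 := by positivity
      simp only [zero_mul]
      linarith
  have hsum := Finset.sum_le_sum (s := Finset.univ) fun i (_ : i ∈ Finset.univ) =>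
    Finset.sum_le_sum (s := Finset.univ) fun j (_ : j ∈ Finset.univ) => hedge i j
  simp only [Finset.sum_sub_distrib, Finset.sum_add_distrib, Finset.sum_const, Finset.card_univ,
    nsmul_eq_mul, ← hm] at hsum
  have e2 : ∑ i, ∑ j, A G i j * (P α x j i * (y j - x j))
      = ∑ i, ∑ j, A G i j * (P α x i j * (y i - x i)) :=
    sum_swap (A G) (A_symm G) (fun i j => P α x i j * (y i - x i))
  have e3 : ∑ i, ∑ j, A G i j * (P α x i j * (y i - x i))
      = NN G * ∑ i, DD G α x i * (y i - x i) := by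
    rw [Finset.mul_sum]
    refine Finset.sum_congr rfl fun i _ => ?_
    unfold DD
    rw [one_div, ← mul_assoc, ← mul_assoc, mul_inv_cancel₀ hN0.ne', one_mul, Finset.sum_mul]
    refine Finset.sum_congr rfl fun j _ => by ring
  have e4 : ∑ i, DD G α x i * (y i - x i)
      = g * ∑ i, DD G α x i * vf G α x i + g * ∑ i, DD G α x i * ξ i := by
    rw [Finset.mul_sum, Finset.mul_sum, ← Finset.sum_add_distrib]
    refine Finset.sum_congr rfl fun i _ => ?_
    rw [hstep i]; ring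
  have e5 := mul_le_mul_of_nonneg_left (DD_vf G α x hx hxs hN) hg
  have e6 : ∑ i, ∑ j, A G i j * (1 / α * Real.log (x i ^ α + x j ^ α)) = 2 * NN G * LL G α x := by
    unfold LL; rw [← mul_assoc, mul_one_div_cancel (by positivity), one_mul]
  have e7 : ∑ i, ∑ j, A G i j * (1 / α * Real.log (y i ^ α + y j ^ α)) = 2 * NN G * LL G α y := by
    unfold LL; rw [← mul_assoc, mul_one_div_cancel (by positivity), one_mul]
  rw [e2, e3, e6, e7] at hsum
  set S := ∑ i, DD G α x i * (y i - x i) with hS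
  set Q : ℝ := m * (m * (2 * C * ((m + 2) * g) ^ 2)) with hQ
  have hQ0 : 0 ≤ Q := by positivity
  have h8 : 2 * NN G * LL G α x + NN G * S + NN G * S - Q ≤ 2 * NN G * LL G α y := by
    linarith
  have h9 : 2 * NN G * (LL G α x + S - LL G α y) ≤ Q := by linarith
  have h10 : LL G α x + S - LL G α y ≤ Q / 2 := by
    by_contra hcon
    push Not at hcon
    have : 0 ≤ Q / 2 := by positivity
    have h11 : Q < 2 * NN G * (LL G α x + S - LL G α y) := by nlinarith
    linarith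
  have h12 : Q / 2 = C * m ^ 2 * (m + 2) ^ 2 * g ^ 2 := by rw [hQ]; ring
  rw [h12, e4] at h10
  linarith

theorem meas_P {Ω : Type} {mΩ : MeasurableSpace Ω} (α : ℝ) (x : Ω → V → ℝ)
    (hx : ∀ i, Measurable (fun ω => x ω i)) (i j : V) : Measurable (fun ω => P α (x ω) i j) := by
  unfold P
  exact ((hx i).pow_const _).div (((hx i).pow_const _).add ((hx j).pow_const _))

theorem meas_DD {Ω : Type} {mΩ : MeasurableSpace Ω} (α : ℝ) (x : Ω → V → ℝ)
    (hx : ∀ i, Measurable (fun ω => x ω i)) (i : V) : Measurable (fun ω => DD G α (x ω) i) := by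
  unfold DD
  exact (Finset.measurable_sum _ fun j _ => (meas_P α x hx i j).const_mul _).const_mul _

theorem meas_LL {Ω : Type} {mΩ : MeasurableSpace Ω} (α : ℝ) (x : Ω → V → ℝ)
    (hx : ∀ i, Measurable (fun ω => x ω i)) : Measurable (fun ω => LL G α (x ω)) := by
  unfold LL
  refine (Finset.measurable_sum _ fun i _ => Finset.measurable_sum _ fun j _ => ?_).const_mul _
  refine Measurable.const_mul (Measurable.const_mul ?_ _) _
  exact (((hx i).pow_const _).add ((hx j).pow_const _)).log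

theorem meas_vf {Ω : Type} {mΩ : MeasurableSpace Ω} (α : ℝ) (x : Ω → V → ℝ)
    (hx : ∀ i, Measurable (fun ω => x ω i)) (i : V) : Measurable (fun ω => vf G α (x ω) i) := by
  unfold vf pr
  refine ((hx i).neg).add ((Finset.measurable_sum _ fun j _ => ?_).const_mul _)
  exact (((hx i).pow_const _).div (((hx i).pow_const _).add ((hx j).pow_const _))).const_mul _

/-- lower bound for the denominators -/
theorem den_low (α : ℝ) (hα : 1 ≤ α) (r a b : ℝ) (hr : 0 < r) (ha : 0 < a) (hb : 0 < b)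
    (hab : r ≤ a + b) : (r / 2) ^ α ≤ a ^ α + b ^ α := by
  have h1 : 0 < a ^ α := Real.rpow_pos_of_pos ha α
  have h2 : 0 < b ^ α := Real.rpow_pos_of_pos hb α
  rcases le_total (r / 2) a with h | h
  · have := Real.rpow_le_rpow (by positivity) h (by linarith : (0 : ℝ) ≤ α)
    linarith
  · have h' : r / 2 ≤ b := by linarith
    have := Real.rpow_le_rpow (by positivity) h' (by linarith : (0 : ℝ) ≤ α)
    linarith

theorem abs_DD_le (α : ℝ) (hα : 1 ≤ α) (hN : 1 ≤ NN G) (x : V → ℝ) (hx : ∀ i, 0 < x i)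
    (hxs : ∑ i, x i = 1) (hxK : x ∈ K G) (i : V) :
    |DD G α x i| ≤ Fintype.card V * (1 / (1 / (NN G + 1) / 2) ^ α) := by
  have hN0 : 0 < NN G := by linarith
  have hr : 0 < 1 / (NN G + 1) := by positivity
  have hd : 0 < (1 / (NN G + 1) / 2) ^ α := Real.rpow_pos_of_pos (by positivity) α
  have h1 : ∀ j, 0 ≤ A G i j * P α x i j ∧ A G i j * P α x i j ≤ 1 / (1 / (NN G + 1) / 2) ^ α := by
    intro j
    by_cases hij : G.Adj i j
    · have hA : A G i j = 1 := by unfold A; rw [if_pos hij]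
      rw [hA, one_mul]
      unfold P
      have h2 : 0 < x i ^ (α - 1) := Real.rpow_pos_of_pos (hx i) _
      have h3 : x i ^ (α - 1) ≤ 1 :=
        Real.rpow_le_one (hx i).le (le_one_of_sum x hx hxs i) (by linarith)
      have h4 := den_low α hα _ (x i) (x j) hr (hx i) (hx j) (hxK.2.2 i j hij)
      constructor
      · exact div_nonneg h2.le (hd.le.trans h4)
      · exact div_le_div₀ (by norm_num) h3 hd h4
    · have hA : A G i j = 0 := by unfold A; rw [if_neg hij]
      rw [hA, zero_mul]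
      exact ⟨le_rfl, by positivity⟩
  have h2 : 0 ≤ ∑ j, A G i j * P α x i j := Finset.sum_nonneg fun j _ => (h1 j).1
  have h3 : ∑ j, A G i j * P α x i j ≤ Fintype.card V * (1 / (1 / (NN G + 1) / 2) ^ α) := by
    calc _ ≤ ∑ _j : V, (1 / (1 / (NN G + 1) / 2) ^ α) := Finset.sum_le_sum fun j _ => (h1 j).2
      _ = _ := by rw [Finset.sum_const, Finset.card_univ, nsmul_eq_mul]
  unfold DD
  rw [abs_of_nonneg (mul_nonneg (by positivity) h2)]
  have h5 : 1 / NN G ≤ 1 := by rw [div_le_one hN0]; exact hN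
  calc _ ≤ 1 * (Fintype.card V * (1 / (1 / (NN G + 1) / 2) ^ α)) :=
        mul_le_mul h5 h3 h2 (by norm_num)
    _ = _ := one_mul _

theorem abs_LL_le (α : ℝ) (hα : 1 ≤ α) (hN : 1 ≤ NN G) (x : V → ℝ) (hx : ∀ i, 0 < x i)
    (hxs : ∑ i, x i = 1) (hxK : x ∈ K G) :
    |LL G α x| ≤ (Fintype.card V : ℝ) * (Fintype.card V *
      (|Real.log ((1 / (NN G + 1) / 2) ^ α)| + Real.log 2)) := by
  have hN0 : 0 < NN G := by linarith
  have hr : 0 < 1 / (NN G + 1) := by positivity
  have hd : 0 < (1 / (NN G + 1) / 2) ^ α := Real.rpow_pos_of_pos (by positivity) α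
  set Bd := |Real.log ((1 / (NN G + 1) / 2) ^ α)| + Real.log 2 with hBd
  have hBd0 : 0 ≤ Bd := add_nonneg (abs_nonneg _) (Real.log_nonneg (by norm_num))
  have h1 : ∀ i j, |A G i j * (1 / α * Real.log (x i ^ α + x j ^ α))| ≤ Bd := by
    intro i j
    by_cases hij : G.Adj i j
    · have hA : A G i j = 1 := by unfold A; rw [if_pos hij]
      rw [hA, one_mul, abs_mul]
      have h4 := den_low α hα _ (x i) (x j) hr (hx i) (hx j) (hxK.2.2 i j hij)
      have h5 : x i ^ α + x j ^ α ≤ 2 := by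
        have := Real.rpow_le_one (hx i).le (le_one_of_sum x hx hxs i) (by linarith : (0 : ℝ) ≤ α)
        have := Real.rpow_le_one (hx j).le (le_one_of_sum x hx hxs j) (by linarith : (0 : ℝ) ≤ α)
        linarith
      have h6 : |Real.log (x i ^ α + x j ^ α)| ≤ Bd := by
        rw [abs_le]
        have h7 := Real.log_le_log hd h4
        have h8 := Real.log_le_log (hd.trans_le h4) h5
        have h9 := neg_abs_le (Real.log ((1 / (NN G + 1) / 2) ^ α))
        have h10 := Real.log_nonneg (by norm_num : (1 : ℝ) ≤ 2)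
        have h11 := abs_nonneg (Real.log ((1 / (NN G + 1) / 2) ^ α))
        constructor <;> rw [hBd] <;> linarith
      have h7 : |1 / α| ≤ 1 := by
        rw [abs_of_nonneg (by positivity), div_le_one (by linarith)]; exact hα
      calc |1 / α| * |Real.log (x i ^ α + x j ^ α)| ≤ 1 * Bd :=
            mul_le_mul h7 h6 (abs_nonneg _) (by norm_num)
        _ = Bd := one_mul _
    · have hA : A G i j = 0 := by unfold A; rw [if_neg hij]
      rw [hA, zero_mul, abs_zero]; exact hBd0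
  unfold LL
  rw [abs_mul]
  have h2 : |1 / (2 * NN G)| ≤ 1 := by
    rw [abs_of_nonneg (by positivity), div_le_one (by positivity)]; linarith
  have h3 : |∑ i, ∑ j, A G i j * (1 / α * Real.log (x i ^ α + x j ^ α))|
      ≤ (Fintype.card V : ℝ) * (Fintype.card V * Bd) := by
    refine (Finset.abs_sum_le_sum_abs _ _).trans ?_
    calc _ ≤ ∑ _i : V, ((Fintype.card V : ℝ) * Bd) := Finset.sum_le_sum fun i _ => by
          refine (Finset.abs_sum_le_sum_abs _ _).trans ?_
          calc _ ≤ ∑ _j : V, Bd := Finset.sum_le_sum fun j _ => h1 i j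
            _ = _ := by rw [Finset.sum_const, Finset.card_univ, nsmul_eq_mul]
      _ = _ := by rw [Finset.sum_const, Finset.card_univ, nsmul_eq_mul]
  calc _ ≤ 1 * ((Fintype.card V : ℝ) * (Fintype.card V * Bd)) :=
        mul_le_mul h2 h3 (abs_nonneg _) (by norm_num)
    _ = _ := one_mul _

end det

theorem ae_summable {Ω : Type} {mΩ : MeasurableSpace Ω} (μ : Measure Ω) (F : ℕ → Ω → ℝ)
    (h0 : ∀ n ω, 0 ≤ F n ω) (hi : ∀ n, Integrable (F n) μ)
    (hs : Summable fun n => ∫ ω, F n ω ∂μ) : ∀ᵐ ω ∂μ, Summable (fun n => F n ω) := by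
  have h1 : ∫⁻ ω, ∑' n, ENNReal.ofReal (F n ω) ∂μ ≠ ⊤ := by
    rw [lintegral_tsum (fun n => (hi n).aestronglyMeasurable.aemeasurable.ennreal_ofReal)]
    have h2 : ∀ n, ∫⁻ ω, ENNReal.ofReal (F n ω) ∂μ = ENNReal.ofReal (∫ ω, F n ω ∂μ) := fun n =>
      (ofReal_integral_eq_lintegral_ofReal (hi n) (Eventually.of_forall (h0 n))).symm
    simp_rw [h2]
    exact hs.tsum_ofReal_ne_top
  have h3 := ae_lt_top' (AEMeasurable.ennreal_tsum
    (fun n => (hi n).aestronglyMeasurable.aemeasurable.ennreal_ofReal)) h1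
  filter_upwards [h3] with ω hω
  have h4 := ENNReal.summable_toReal hω.ne
  refine h4.congr fun n => ?_
  rw [ENNReal.toReal_ofReal (h0 n ω)]

theorem int_zero {Ω : Type} (m : MeasurableSpace Ω) {mΩ : MeasurableSpace Ω} (μ : Measure Ω)
    [IsProbabilityMeasure μ] (hm : m ≤ mΩ) (D Z : Ω → ℝ) (hD : Measurable[m] D)
    (hZ : Measurable Z) (B : ℝ) (hDb : ∀ ω, |D ω| ≤ B) (hZb : ∀ ω, |Z ω| ≤ 1)
    (hmean : μ[Z | m] =ᵐ[μ] 0) :
    Integrable (fun ω => D ω * Z ω) μ ∧ ∫ ω, D ω * Z ω ∂μ = 0 := by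
  have hDm : Measurable D := hD.mono hm le_rfl
  have hiZ : Integrable Z μ :=
    Integrable.of_bound hZ.aestronglyMeasurable 1 (Eventually.of_forall hZb)
  have hi : Integrable (fun ω => D ω * Z ω) μ := by
    refine Integrable.of_bound (hDm.mul hZ).aestronglyMeasurable (B * 1)
      (Eventually.of_forall fun ω => ?_)
    rw [Real.norm_eq_abs, abs_mul]
    exact mul_le_mul (hDb ω) (hZb ω) (abs_nonneg _) ((abs_nonneg _).trans (hDb ω))
  refine ⟨hi, ?_⟩
  have h1 := condExp_mul_of_stronglyMeasurable_left (μ := μ) (m := m) (f := D) (g := Z)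
    hD.stronglyMeasurable hi hiZ
  have h2 : μ[D * Z | m] =ᵐ[μ] 0 := by
    refine h1.trans ?_
    filter_upwards [hmean] with ω hω
    rw [Pi.mul_apply, hω, Pi.zero_apply, mul_zero]
  have h3 : ∫ ω, (D * Z) ω ∂μ = ∫ ω, (μ[D * Z | m]) ω ∂μ := (integral_condExp hm).symm
  have h4 : ∫ ω, (μ[D * Z | m]) ω ∂μ = 0 := by
    rw [integral_congr_ae h2]; simp
  calc ∫ ω, D ω * Z ω ∂μ = ∫ ω, (D * Z) ω ∂μ := rfl
    _ = 0 := h3.trans h4

theorem summable_sq (c0 : ℝ) (hc : 0 < c0) : Summable (fun n : ℕ => (1 / ((n : ℝ) + c0)) ^ 2) := by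
  have h1 : Summable (fun n : ℕ => 1 / (((n + 1 : ℕ) : ℝ)) ^ 2) :=
    (summable_nat_add_iff 1).2 (Real.summable_one_div_nat_pow.2 one_lt_two)
  set κ := min c0 1 with hκ
  have hκ0 : 0 < κ := lt_min hc one_pos
  refine Summable.of_nonneg_of_le (fun n => sq_nonneg _) (fun n => ?_) (h1.mul_left ((1 / κ) ^ 2))
  have hn : (0 : ℝ) ≤ n := Nat.cast_nonneg n
  have h2 : κ * ((n : ℝ) + 1) ≤ n + c0 := by
    have := min_le_left c0 1
    have := min_le_right c0 1
    nlinarith
  have h3 : 1 / ((n : ℝ) + c0) ≤ 1 / (κ * ((n : ℝ) + 1)) :=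
    one_div_le_one_div_of_le (by positivity) h2
  calc (1 / ((n : ℝ) + c0)) ^ 2 ≤ (1 / (κ * ((n : ℝ) + 1))) ^ 2 :=
        pow_le_pow_left₀ (by positivity) h3 2
    _ = (1 / κ) ^ 2 * (1 / (((n + 1 : ℕ) : ℝ)) ^ 2) := by
        push_cast; field_simp

theorem t : TaskLyap := by
  intro hE V _ _ G _ hN α hα Ω mΩ μ _ ℱ c0 x ξ h
  obtain ⟨n0, hreg⟩ := h.reg
  have hN0 : 0 < NN G := by linarith
  obtain ⟨C, hC0, hC⟩ := hE α (1 / (NN G + 1)) hα (by positivity)
  have hxm : ∀ n i, Measurable (fun ω => x n ω i) := fun n i =>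
    (h.xmeas n i).mono (ℱ.le n) le_rfl
  have hξm : ∀ n i, Measurable (fun ω => ξ n ω i) := fun n i =>
    (h.ξmeas n i).mono (ℱ.le (n + 1)) le_rfl
  set g : ℕ → ℝ := fun n => 1 / ((n : ℝ) + c0) with hg
  have hg0 : ∀ n, 0 ≤ g n := fun n => by
    have := h.c0pos
    simp only [hg]; positivity
  set F : ℕ → Ω → ℝ := fun n ω => g n * ∑ i, (vf G α (x n ω) i) ^ 2 with hF
  have hF0 : ∀ n ω, 0 ≤ F n ω := fun n ω =>
    mul_nonneg (hg0 n) (Finset.sum_nonneg fun i _ => sq_nonneg _)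
  have hFi : ∀ n, Integrable (F n) μ := by
    intro n
    have hmeas : Measurable (F n) :=
      (Finset.measurable_sum _ fun i _ => (meas_vf G α (x n) (hxm n) i).pow_const 2).const_mul _
    refine Integrable.of_bound hmeas.aestronglyMeasurable
      (g n * ∑ _i : V, ((Fintype.card V : ℝ) + 1) ^ 2) (Eventually.of_forall fun ω => ?_)
    rw [Real.norm_eq_abs, abs_of_nonneg (hF0 n ω)]
    refine mul_le_mul_of_nonneg_left (Finset.sum_le_sum fun i _ => ?_) (hg0 n)
    rw [← sq_abs]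
    exact pow_le_pow_left₀ (abs_nonneg _) (abs_vf_le G α (x n ω) (h.pos n ω) (h.tot n ω) hN i) 2
  set B := (Fintype.card V : ℝ) * (Fintype.card V *
      (|Real.log ((1 / (NN G + 1) / 2) ^ α)| + Real.log 2)) with hB
  have hLi : ∀ n, n0 ≤ n → Integrable (fun ω => LL G α (x n ω)) μ := fun n hn =>
    Integrable.of_bound (meas_LL G α (x n) (hxm n)).aestronglyMeasurable B
      (Eventually.of_forall fun ω => abs_LL_le G α hα hN (x n ω) (h.pos n ω) (h.tot n ω)
        (hreg n hn ω))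
  have hLb : ∀ n, n0 ≤ n → |∫ ω, LL G α (x n ω) ∂μ| ≤ B := by
    intro n hn
    have h1 := norm_integral_le_of_norm_le_const (μ := μ) (f := fun ω => LL G α (x n ω)) (C := B)
      (Eventually.of_forall fun ω => abs_LL_le G α hα hN (x n ω) (h.pos n ω) (h.tot n ω)
        (hreg n hn ω))
    simpa using h1
  set C' : ℝ := C * (Fintype.card V) ^ 2 * (Fintype.card V + 2) ^ 2 with hC'
  have hC'0 : 0 ≤ C' := by positivity
  have hDξ : ∀ n, n0 ≤ n → ∀ i, Integrable (fun ω => DD G α (x n ω) i * ξ n ω i) μ ∧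
      ∫ ω, DD G α (x n ω) i * ξ n ω i ∂μ = 0 := fun n hn i =>
    int_zero (ℱ n) μ (ℱ.le n) _ _ (meas_DD G α (x n) (h.xmeas n) i) (hξm n i)
      (Fintype.card V * (1 / (1 / (NN G + 1) / 2) ^ α))
      (fun ω => abs_DD_le G α hα hN (x n ω) (h.pos n ω) (h.tot n ω) (hreg n hn ω) i)
      (fun ω => h.bound n ω i) (h.mean n i)
  have hmain : ∀ n, n0 ≤ n → ∫ ω, F n ω ∂μ ≤
      ∫ ω, LL G α (x (n + 1) ω) ∂μ - ∫ ω, LL G α (x n ω) ∂μ + C' * g n ^ 2 := by
    intro n hn
    have hSi : Integrable (fun ω => g n * ∑ i, DD G α (x n ω) i * ξ n ω i) μ :=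
      (integrable_finsetSum _ fun i _ => (hDξ n hn i).1).const_mul _
    have hS0 : ∫ ω, g n * ∑ i, DD G α (x n ω) i * ξ n ω i ∂μ = 0 := by
      rw [integral_const_mul, integral_finsetSum _ fun i _ => (hDξ n hn i).1,
        Finset.sum_eq_zero fun i _ => (hDξ n hn i).2, mul_zero]
    have hle : ∀ ω, F n ω ≤ LL G α (x (n + 1) ω) - LL G α (x n ω)
        - g n * ∑ i, DD G α (x n ω) i * ξ n ω i + C' * g n ^ 2 := by
      intro ω
      exact lyap_step G α hN C hC0 hC (x n ω) (x (n + 1) ω) (h.pos n ω) (h.pos (n + 1) ω)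
        (h.tot n ω) (h.tot (n + 1) ω) (hreg n hn ω) (hreg (n + 1) (by omega) ω) (g n) (hg0 n)
        (ξ n ω) (h.bound n ω) (h.step n ω)
    have hL1 := hLi n hn
    have hL2 := hLi (n + 1) (by omega)
    calc ∫ ω, F n ω ∂μ ≤ ∫ ω, (LL G α (x (n + 1) ω) - LL G α (x n ω)
          - g n * ∑ i, DD G α (x n ω) i * ξ n ω i + C' * g n ^ 2) ∂μ :=
          integral_mono (hFi n) (((hL2.sub hL1).sub hSi).add (integrable_const _)) hle
      _ = _ := by
          have q1 := integral_add (μ := μ) (f := fun ω => LL G α (x (n + 1) ω) - LL G α (x n ω)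
            - g n * ∑ i, DD G α (x n ω) i * ξ n ω i) (g := fun _ => C' * g n ^ 2)
            ((hL2.sub hL1).sub hSi) (integrable_const _)
          have q2 := integral_sub (μ := μ) (f := fun ω => LL G α (x (n + 1) ω) - LL G α (x n ω))
            (g := fun ω => g n * ∑ i, DD G α (x n ω) i * ξ n ω i) (hL2.sub hL1) hSi
          have q3 := integral_sub (μ := μ) (f := fun ω => LL G α (x (n + 1) ω))
            (g := fun ω => LL G α (x n ω)) hL2 hL1
          rw [q1, q2, q3, hS0]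
          simp
  have hsq := summable_sq c0 h.c0pos
  have hsum : Summable (fun k : ℕ => ∫ ω, F (k + n0) ω ∂μ) := by
    refine summable_of_sum_range_le (c := 2 * B + C' * ∑' n : ℕ, g n ^ 2)
      (fun k => integral_nonneg (hF0 _)) fun M => ?_
    have h1 : ∀ M : ℕ, ∑ k ∈ Finset.range M, ∫ ω, F (k + n0) ω ∂μ ≤
        ∫ ω, LL G α (x (M + n0) ω) ∂μ - ∫ ω, LL G α (x n0 ω) ∂μ
          + C' * ∑ k ∈ Finset.range M, g (k + n0) ^ 2 := by
      intro M
      induction M with
      | zero => simp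
      | succ M ih =>
        rw [Finset.sum_range_succ, Finset.sum_range_succ]
        have h2 := hmain (M + n0) (by omega)
        have e : M + 1 + n0 = M + n0 + 1 := by ring
        rw [e]
        linarith
    have h2 : ∑ k ∈ Finset.range M, g (k + n0) ^ 2 ≤ ∑' n : ℕ, g n ^ 2 := by
      have h3 : ∑ k ∈ Finset.range M, g (k + n0) ^ 2 = ∑ n ∈ (Finset.range M).image (· + n0), g n ^ 2 := by
        rw [Finset.sum_image]
        intro a _ b _ hab
        simpa using hab
      rw [h3]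
      exact hsq.sum_le_tsum _ (fun n _ => sq_nonneg _)
    have h3 := h1 M
    have h4 := abs_le.1 (hLb (M + n0) (by omega))
    have h5 := abs_le.1 (hLb n0 le_rfl)
    have h6 := mul_le_mul_of_nonneg_left h2 hC'0
    linarith [h4.2, h5.1]
  have hae := ae_summable μ (fun k => F (k + n0)) (fun k ω => hF0 _ ω) (fun k => hFi _) hsum
  filter_upwards [hae] with ω hω
  exact (summable_nat_add_iff n0).1 hω

end H483U.Lyap
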