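import Pool.Agent.H483R3.Urn.Stmts

set_option autoImplicit false

/-!
Project H483-URN, task N1: the deterministic estimate.
-/

namespace H483U.N1

open Filter Topology

/-- the comparison sequence -/
noncomputable def r (n : ℕ) : ℝ := ((n : ℝ) + 1) ^ (-(3 / 8) : ℝ)

lemma r_pos (n : ℕ) : 0 < r n := Real.rpow_pos_of_pos (by positivity) _

lemma r_anti (n : ℕ) : r (n + 1) ≤ r n := by
  unfold r
  apply Real.rpow_le_rpow_of_nonpos (by positivity)
  · push_cast; linarith
  · norm_num

lemma r_succ (n : ℕ) : r n * (1 - 3 / 8 * (1 / ((n : ℝ) + 1))) ≤ r (n + 1) := by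
  have hn : (0 : ℝ) < (n : ℝ) + 1 := by positivity
  set z : ℝ := 1 / ((n : ℝ) + 1) with hz
  have hz0 : 0 < z := by positivity
  have h1 : ((n + 1 : ℕ) : ℝ) + 1 = ((n : ℝ) + 1) * (1 + z) := by
    rw [hz]; push_cast; field_simp
  have h2 : r (n + 1) = r n * (1 + z) ^ (-(3 / 8) : ℝ) := by
    unfold r
    rw [h1, Real.mul_rpow (by positivity) (by positivity)]
  rw [h2]
  refine mul_le_mul_of_nonneg_left ?_ (r_pos n).le
  have h3 : (1 + z) ^ ((3 / 8 : ℝ)) ≤ 1 + 3 / 8 * z :=
    rpow_one_add_le_one_add_mul_self (by linarith) (by norm_num) (by norm_num)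
  rw [Real.rpow_neg (by positivity)]
  have h4 : 0 < (1 + z) ^ ((3 / 8 : ℝ)) := Real.rpow_pos_of_pos (by positivity) _
  by_cases h5 : 1 - 3 / 8 * z ≤ 0
  · exact h5.trans (inv_nonneg.mpr h4.le)
  · push Not at h5
    rw [le_inv_comm₀ h5 h4]
    refine h3.trans ?_
    rw [← one_div, le_div_iff₀ h5]
    nlinarith [mul_pos hz0 hz0]

theorem t : TaskN1 := by
  intro V _ _ lam hlam c0 C hc0 hC u e hstep he hu
  classical
  set s : ℕ → ℝ := fun n => ‖fun l => if lam l ≤ -(1 / 2) then u n l else 0‖ with hs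
  set t : ℕ → ℝ := fun n => ‖fun l => if lam l ≤ -(1 / 2) then 0 else u n l‖ with ht
  have hs0 : ∀ n, 0 ≤ s n := fun n => norm_nonneg _
  have ht0 : ∀ n, 0 ≤ t n := fun n => norm_nonneg _
  have hs_le : ∀ n l, lam l ≤ -(1 / 2) → |u n l| ≤ s n := by
    intro n l hl
    have := norm_le_pi_norm (fun l => if lam l ≤ -(1 / 2) then u n l else 0) l
    simp only [if_pos hl, Real.norm_eq_abs] at this
    exact this
  have ht_le : ∀ n l, ¬ lam l ≤ -(1 / 2) → |u n l| ≤ t n := by
    intro n l hl
    have := norm_le_pi_norm (fun l => if lam l ≤ -(1 / 2) then 0 else u n l) l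
    simp only [if_neg hl, Real.norm_eq_abs] at this
    exact this
  have hnorm : ∀ n, ‖u n‖ ≤ max (s n) (t n) := by
    intro n
    rw [pi_norm_le_iff_of_nonneg (le_max_of_le_left (hs0 n))]
    intro l
    by_cases hl : lam l ≤ -(1 / 2)
    · exact le_max_of_le_left (hs_le n l hl)
    · exact le_max_of_le_right (ht_le n l hl)
  have ht_norm : ∀ n, t n ≤ ‖u n‖ := by
    intro n
    simp only [ht]
    rw [pi_norm_le_iff_of_nonneg (norm_nonneg _)]
    intro l
    by_cases hl : lam l ≤ -(1 / 2)
    · rw [if_pos hl, norm_zero]; exact norm_nonneg _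
    · rw [if_neg hl]; exact norm_le_pi_norm (u n) l
  obtain ⟨L, hL⟩ : ∃ L : ℝ, ∀ l, |lam l| ≤ L := by
    obtain ⟨l, hl⟩ := Finite.exists_max (fun l => |lam l|)
    exact ⟨_, hl⟩
  -- large indices
  obtain ⟨N1, hN1⟩ := eventually_atTop.mp he
  obtain ⟨N2, hN2⟩ := exists_nat_ge (max (max L 1) (6 * c0))
  set N := max N1 N2 with hN
  have hbig : ∀ n, N ≤ n → L ≤ n + c0 ∧ 1 ≤ n + c0 ∧ 6 * c0 ≤ n := by
    intro n hn
    have h1 : (N2 : ℝ) ≤ n := by exact_mod_cast (le_max_right N1 N2).trans hn
    have h2 : L ≤ N2 := (le_max_left L 1).trans ((le_max_left _ _).trans hN2)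
    have h3 : 1 ≤ (N2 : ℝ) := (le_max_right L 1).trans ((le_max_left _ _).trans hN2)
    have h4 : 6 * c0 ≤ N2 := (le_max_right _ _).trans hN2
    exact ⟨by linarith, by linarith, by linarith⟩
  have he' : ∀ n, N ≤ n → ∀ l, |e n l| ≤ 1 / 32 * ‖u n‖ + C * r n :=
    fun n hn => hN1 n ((le_max_left _ _).trans hn)
  -- the steps
  set g : ℕ → ℝ := fun n => 1 / (n + c0) with hg
  have hg0 : ∀ n, 0 < g n := fun n => by simp only [hg]; positivity
  have hg1 : ∀ n, N ≤ n → g n ≤ 1 := by
    intro n hn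
    simp only [hg]
    rw [div_le_one (by positivity)]
    exact (hbig n hn).2.1
  have hgL : ∀ n, N ≤ n → ∀ l, |g n * lam l| ≤ 1 := by
    intro n hn l
    rw [abs_mul, abs_of_pos (hg0 n)]
    simp only [hg]
    rw [one_div, inv_mul_le_iff₀ (by positivity)]
    have := hL l
    have := (hbig n hn).1
    linarith
  have hsstep : ∀ n, N ≤ n →
      s (n + 1) ≤ (1 - g n / 2) * s n + g n * (1 / 32 * ‖u n‖ + C * r n) := by
    intro n hn
    have h1 := hg1 n hn
    have h2 := hg0 n
    have h3 := hs0 n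
    have h4 := (r_pos n).le
    have hnn : 0 ≤ (1 - g n / 2) * s n + g n * (1 / 32 * ‖u n‖ + C * r n) := by
      have : 0 ≤ 1 - g n / 2 := by linarith
      positivity
    simp only [hs]
    rw [pi_norm_le_iff_of_nonneg hnn]
    intro l
    by_cases hl : lam l ≤ -(1 / 2)
    · simp only [hl, if_true, Real.norm_eq_abs]
      rw [hstep]
      have e1 : u n l + 1 / ((n : ℝ) + c0) * (lam l * u n l + e n l) =
          (1 + g n * lam l) * u n l + g n * e n l := by simp only [hg]; ring
      rw [e1]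
      have h5 := abs_le.mp (hgL n hn l)
      have h6 : |1 + g n * lam l| ≤ 1 - g n / 2 := by
        rw [abs_le]
        constructor
        · nlinarith
        · nlinarith
      calc |(1 + g n * lam l) * u n l + g n * e n l|
          ≤ |(1 + g n * lam l) * u n l| + |g n * e n l| := abs_add_le _ _
        _ = |1 + g n * lam l| * |u n l| + g n * |e n l| := by
            rw [abs_mul, abs_mul, abs_of_pos h2]
        _ ≤ (1 - g n / 2) * s n + g n * (1 / 32 * ‖u n‖ + C * r n) := by
            refine add_le_add (mul_le_mul h6 (hs_le n l hl) (abs_nonneg _) (by linarith))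
              (mul_le_mul_of_nonneg_left (he' n hn l) h2.le)
    · simp only [hl, if_false, norm_zero]
      exact hnn
  have htstep : ∀ n, N ≤ n → 0 < t n →
      (1 + g n) * t n - g n * (1 / 32 * ‖u n‖ + C * r n) ≤ t (n + 1) := by
    intro n hn htn
    have h2 := hg0 n
    obtain ⟨l, hl⟩ := Finite.exists_max
      (fun l => ‖(if lam l ≤ -(1 / 2) then 0 else u n l : ℝ)‖)
    have h3 : t n ≤ ‖(if lam l ≤ -(1 / 2) then 0 else u n l : ℝ)‖ := by
      simp only [ht]
      rw [pi_norm_le_iff_of_nonneg (norm_nonneg _)]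
      exact hl
    have hl2 : ¬ lam l ≤ -(1 / 2) := by
      intro h
      rw [if_pos h, norm_zero] at h3
      linarith
    rw [if_neg hl2, Real.norm_eq_abs] at h3
    have hl1 : 1 ≤ lam l := (hlam l).resolve_left hl2
    have h4 := ht_le (n + 1) l hl2
    rw [hstep] at h4
    have e1 : u n l + 1 / ((n : ℝ) + c0) * (lam l * u n l + e n l) =
        (1 + g n * lam l) * u n l + g n * e n l := by simp only [hg]; ring
    rw [e1] at h4
    have h5 : |(1 + g n * lam l) * u n l| - |g n * e n l| ≤
        |(1 + g n * lam l) * u n l + g n * e n l| := by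
      have := abs_sub_abs_le_abs_sub ((1 + g n * lam l) * u n l) (-(g n * e n l))
      rw [abs_neg, sub_neg_eq_add] at this
      exact this
    rw [abs_mul, abs_mul, abs_of_pos h2] at h5
    have h6 : 1 + g n ≤ |1 + g n * lam l| := by
      rw [abs_of_nonneg (by nlinarith)]
      nlinarith
    have h7 := he' n hn l
    have h8 : (1 + g n) * t n ≤ |1 + g n * lam l| * |u n l| :=
      mul_le_mul h6 h3 (ht0 n) (abs_nonneg _)
    have h9 : g n * |e n l| ≤ g n * (1 / 32 * ‖u n‖ + C * r n) :=
      mul_le_mul_of_nonneg_left h7 h2.le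
    linarith
  -- the unstable part is controlled
  have hpersist : ∀ n, N ≤ n → s n < t n → 4 * C * r n < t n →
      t n ≤ t (n + 1) ∧ s (n + 1) < t (n + 1) ∧ 4 * C * r (n + 1) < t (n + 1) := by
    intro n hn h1 h2
    have h3 : 0 < t n := lt_of_le_of_lt (hs0 n) h1
    have hu1 : ‖u n‖ ≤ t n := (hnorm n).trans (max_le h1.le le_rfl)
    have h4 := htstep n hn h3
    have h5 := hsstep n hn
    have h6 := hg0 n
    have h7 := hg1 n hn
    have h8 : 1 / 32 * ‖u n‖ + C * r n ≤ 9 / 32 * t n := by linarith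
    have h9 : g n * (1 / 32 * ‖u n‖ + C * r n) ≤ g n * (9 / 32 * t n) :=
      mul_le_mul_of_nonneg_left h8 h6.le
    have h10 : 0 < g n * t n := mul_pos h6 h3
    have h11 : t n < t (n + 1) := by nlinarith
    have h12 : (1 - g n / 2) * s n ≤ (1 - g n / 2) * t n :=
      mul_le_mul_of_nonneg_left h1.le (by linarith)
    have h13 : s (n + 1) ≤ t n := by nlinarith
    have h14 : C * r (n + 1) ≤ C * r n := mul_le_mul_of_nonneg_left (r_anti n) hC
    exact ⟨h11.le, by linarith, by nlinarith⟩
  have htle : ∀ n, N ≤ n → t n ≤ max (s n) (4 * C * r n) := by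
    intro n hn
    by_contra hcon
    push Not at hcon
    obtain ⟨h1, h2⟩ := max_lt_iff.mp hcon
    have key : ∀ k, s (n + k) < t (n + k) ∧ 4 * C * r (n + k) < t (n + k) ∧
        t n ≤ t (n + k) := by
      intro k
      induction k with
      | zero => exact ⟨h1, h2, le_rfl⟩
      | succ k ih =>
        obtain ⟨a1, a2, a3⟩ := ih
        obtain ⟨b1, b2, b3⟩ := hpersist (n + k) (by omega) a1 a2
        exact ⟨b2, b3, a3.trans b1⟩
    have h3 : 0 < t n := lt_of_le_of_lt (hs0 n) h1
    have h4 : Tendsto (fun k => ‖u (n + k)‖) atTop (𝓝 0) := by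
      have := hu.norm
      rw [norm_zero] at this
      exact this.comp (tendsto_add_atTop_nat n |>.congr fun k => by rw [add_comm])
    have h5 : ∀ᶠ k in atTop, ‖u (n + k)‖ < t n := h4.eventually (gt_mem_nhds h3)
    obtain ⟨k, hk⟩ := h5.exists
    have := (key k).2.2.trans (ht_norm (n + k))
    linarith
  have hun : ∀ n, N ≤ n → ‖u n‖ ≤ s n + 4 * C * r n := by
    intro n hn
    have h1 := htle n hn
    have h2 : 0 ≤ 4 * C * r n := by have := (r_pos n).le; positivity
    have h3 : max (s n) (4 * C * r n) ≤ s n + 4 * C * r n :=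
      max_le (by linarith) (by have := hs0 n; linarith)
    exact (hnorm n).trans (max_le (by linarith) (h1.trans h3))
  -- the stable part
  set C2 : ℝ := 64 * C + s N / r N with hC2
  have hC2' : 64 * C ≤ C2 := by
    have := div_nonneg (hs0 N) (r_pos N).le
    linarith
  have hC20 : 0 ≤ C2 := by linarith
  have hsn : ∀ n, N ≤ n → s n ≤ C2 * r n := by
    intro n hn
    induction n, hn using Nat.le_induction with
    | base =>
      rw [hC2, add_mul, div_mul_cancel₀ _ (r_pos N).ne']
      have := (r_pos N).le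
      have : 0 ≤ 64 * C * r N := by positivity
      linarith
    | succ n hn ih =>
      have h1 := hsstep n hn
      have h2 := hun n hn
      have h3 := hg0 n
      have h4 := hg1 n hn
      have h5 := r_pos n
      have h6 : s (n + 1) ≤ (1 - 15 / 32 * g n) * s n + g n * (2 * C * r n) := by
        have : g n * (1 / 32 * ‖u n‖ + C * r n) ≤
            g n * (1 / 32 * (s n + 4 * C * r n) + C * r n) :=
          mul_le_mul_of_nonneg_left (by linarith) h3.le
        have h7 : 0 ≤ g n * (C * r n) := by positivity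
        nlinarith
      have h7 : (1 - 15 / 32 * g n) * s n ≤ (1 - 15 / 32 * g n) * (C2 * r n) :=
        mul_le_mul_of_nonneg_left ih (by linarith)
      have h8 : g n * (2 * C * r n) ≤ g n * (1 / 32 * (C2 * r n)) := by
        refine mul_le_mul_of_nonneg_left ?_ h3.le
        nlinarith
      have h9 : s (n + 1) ≤ C2 * r n * (1 - 14 / 32 * g n) := by nlinarith
      have h10 := r_succ n
      have h11 : 3 / 8 * (1 / ((n : ℝ) + 1)) ≤ 14 / 32 * g n := by
        simp only [hg]
        rw [mul_one_div, mul_one_div, div_le_div_iff₀ (by positivity) (by positivity)]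
        have := (hbig n hn).2.2
        nlinarith
      have h12 : C2 * r n * (1 - 14 / 32 * g n) ≤
          C2 * (r n * (1 - 3 / 8 * (1 / ((n : ℝ) + 1)))) := by
        rw [mul_assoc]
        refine mul_le_mul_of_nonneg_left ?_ hC20
        exact mul_le_mul_of_nonneg_left (by linarith) h5.le
      exact h9.trans (h12.trans (mul_le_mul_of_nonneg_left h10 hC20))
  -- conclusion
  refine ⟨(C2 + 4 * C) + ∑ k ∈ Finset.range N, ‖u k‖ / r k, fun n => ?_⟩
  change ‖u n‖ ≤ ((C2 + 4 * C) + ∑ k ∈ Finset.range N, ‖u k‖ / r k) * r n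
  have hsum : 0 ≤ ∑ k ∈ Finset.range N, ‖u k‖ / r k :=
    Finset.sum_nonneg fun k _ => div_nonneg (norm_nonneg _) (r_pos k).le
  have hr := r_pos n
  by_cases hn : N ≤ n
  · have h1 := hun n hn
    have h2 := hsn n hn
    have h3 : 0 ≤ (∑ k ∈ Finset.range N, ‖u k‖ / r k) * r n := mul_nonneg hsum hr.le
    linarith
  · have h1 : ‖u n‖ / r n ≤ ∑ k ∈ Finset.range N, ‖u k‖ / r k :=
      Finset.single_le_sum (f := fun k => ‖u k‖ / r k)
        (fun k _ => div_nonneg (norm_nonneg _) (r_pos k).le)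
        (Finset.mem_range.mpr (by omega))
    have h2 : ‖u n‖ ≤ (∑ k ∈ Finset.range N, ‖u k‖ / r k) * r n := by
      rwa [div_le_iff₀ hr] at h1
    have h3 : 0 ≤ (C2 + 4 * C) * r n := by positivity
    linarith

end H483U.N1
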