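import Pool.Agent.H483R3.Urn.Stmts

/-!
Task N2 of project H483-URN (tails of the noise), by helper651.
-/

set_option autoImplicit false

namespace H483U.N2

open MeasureTheory ProbabilityTheory Filter Topology

/-- Summation by parts: partial sums of `a k z k` with weights. `g k * w k = 1`. -/
theorem abel_bound (S M w : ℕ → ℝ) (K : ℝ) (hK : ∀ n, |M n| ≤ K)
    (hw : ∀ n, w (n + 1) ≤ w n) (hS : ∀ n, S (n + 1) = S n + w n * (M (n + 1) - M n))
    (n m : ℕ) (h : n ≤ m) :
    |(S m - w m * M m) - (S n - w n * M n)| ≤ K * (w n - w m) := by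
  induction m, h using Nat.le_induction with
  | base => simp
  | succ m hm ih =>
    have h1 : (S (m + 1) - w (m + 1) * M (m + 1)) - (S n - w n * M n) =
        ((S m - w m * M m) - (S n - w n * M n)) + (w m - w (m + 1)) * M (m + 1) := by
      rw [hS m]; ring
    rw [h1]
    have h2 : |(w m - w (m + 1)) * M (m + 1)| ≤ (w m - w (m + 1)) * K := by
      rw [abs_mul, abs_of_nonneg (by linarith [hw m])]
      exact mul_le_mul_of_nonneg_left (hK _) (by linarith [hw m])
    calc |((S m - w m * M m) - (S n - w n * M n)) + (w m - w (m + 1)) * M (m + 1)|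
        ≤ |(S m - w m * M m) - (S n - w n * M n)| + |(w m - w (m + 1)) * M (m + 1)| := abs_add_le _ _
      _ ≤ K * (w n - w m) + (w m - w (m + 1)) * K := add_le_add ih h2
      _ = K * (w n - w (m + 1)) := by ring

/-- deterministic part -/
theorem tail_exists (a z M w : ℕ → ℝ) (K : ℝ) (hK : ∀ n, |M n| ≤ K)
    (hw : ∀ n, w (n + 1) ≤ w n) (hw0 : ∀ n, 0 ≤ w n) (hwt : Tendsto w atTop (𝓝 0))
    (haz : ∀ n, a n * z n = w n * (M (n + 1) - M n)) :
    ∃ T : ℕ → ℝ, (∀ n, T n = T (n + 1) + a n * z n) ∧ ∀ n, |T n| ≤ 2 * K * w n := by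
  set S : ℕ → ℝ := fun n => ∑ k ∈ Finset.range n, a k * z k with hSdef
  have hS : ∀ n, S (n + 1) = S n + w n * (M (n + 1) - M n) := by
    intro n
    simp only [hSdef, Finset.sum_range_succ, haz n]
  have hK0 : 0 ≤ K := (abs_nonneg _).trans (hK 0)
  have hb : ∀ n m, n ≤ m → |S m - S n| ≤ 2 * K * w n := by
    intro n m hnm
    have h1 := abel_bound S M w K hK hw hS n m hnm
    have h2 : S m - S n = ((S m - w m * M m) - (S n - w n * M n)) + w m * M m - w n * M n := by ring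
    have h3 : |w m * M m| ≤ w m * K := by
      rw [abs_mul, abs_of_nonneg (hw0 m)]
      exact mul_le_mul_of_nonneg_left (hK _) (hw0 m)
    have h4 : |w n * M n| ≤ w n * K := by
      rw [abs_mul, abs_of_nonneg (hw0 n)]
      exact mul_le_mul_of_nonneg_left (hK _) (hw0 n)
    rw [h2]
    have h5 := abs_le.1 h1
    have h6 := abs_le.1 h3
    have h7 := abs_le.1 h4
    rw [abs_le]
    constructor <;> nlinarith [h5.1, h5.2, h6.1, h6.2, h7.1, h7.2]
  have hc : CauchySeq S := by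
    refine cauchySeq_of_le_tendsto_0' (fun n => 2 * K * w n) ?_ ?_
    · intro n m hnm
      rw [Real.dist_eq, abs_sub_comm]
      exact hb n m hnm
    · simpa using hwt.const_mul (2 * K)
  obtain ⟨L, hL⟩ := cauchySeq_tendsto_of_complete hc
  refine ⟨fun n => L - S n, fun n => ?_, fun n => ?_⟩
  · have : S (n + 1) = S n + a n * z n := by
      simp only [hSdef, Finset.sum_range_succ]
    simp only [this]; ring
  · have h1 : Tendsto (fun m => |S m - S n|) atTop (𝓝 |L - S n|) :=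
      (hL.sub_const _).abs
    exact le_of_tendsto h1 (eventually_atTop.2 ⟨n, fun m hm => hb n m hm⟩)

theorem t : H483U.TaskN2 := by
  intro Ω mΩ μ hμ ℱ c0 C ζ hc0 hζm hζC hζ0
  have hC0 : ∀ ω : Ω, 0 ≤ C := fun ω => (abs_nonneg _).trans (hζC 0 ω)
  -- weights
  set w : ℕ → ℝ := fun n => ((n : ℝ) + 1) ^ (-(3 / 8) : ℝ) with hw
  set c : ℕ → ℝ := fun n => ((n : ℝ) + 1) ^ ((3 / 8) : ℝ) * (1 / (n + c0)) with hc
  have hwpos : ∀ n, 0 < w n := fun n => Real.rpow_pos_of_pos (by positivity) _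
  have hwc : ∀ n : ℕ, w n * c n = 1 / (n + c0) := by
    intro n
    have hn : (0 : ℝ) < (n : ℝ) + 1 := by positivity
    simp only [hw, hc]
    rw [← mul_assoc, ← Real.rpow_add hn]
    norm_num
  set M : ℕ → Ω → ℝ := fun n ω => ∑ k ∈ Finset.range n, c k * ζ k ω with hM
  have hMs : ∀ n ω, M (n + 1) ω = M n ω + c n * ζ n ω := by
    intro n ω; simp only [hM, Finset.sum_range_succ]
  have hζint : ∀ n, Integrable (ζ n) μ := by
    intro n
    refine Integrable.of_bound ((hζm n).mono (ℱ.le _) le_rfl).aestronglyMeasurable C ?_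
    exact ae_of_all _ fun ω => by simpa using hζC n ω
  have hMm : ∀ n, StronglyMeasurable[ℱ n] (M n) := by
    intro n
    have : M n = fun ω => ∑ k ∈ Finset.range n, c k * ζ k ω := rfl
    rw [this]
    refine Finset.stronglyMeasurable_fun_sum _ fun k hk => ?_
    have h1 : Measurable[ℱ n] (ζ k) :=
      (hζm k).mono (ℱ.mono (Finset.mem_range.1 hk)) le_rfl
    exact (h1.stronglyMeasurable).const_mul _
  have hMint : ∀ n, Integrable (M n) μ := by
    intro n
    exact integrable_finsetSum _ fun k _ => (hζint k).const_mul _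
  -- bound of M
  have hMb : ∀ n, ∃ B, ∀ ω, |M n ω| ≤ B := by
    intro n
    refine ⟨∑ k ∈ Finset.range n, |c k| * C, fun ω => ?_⟩
    refine (Finset.abs_sum_le_sum_abs _ _).trans (Finset.sum_le_sum fun k _ => ?_)
    rw [abs_mul]
    exact mul_le_mul_of_nonneg_left (hζC k ω) (abs_nonneg _)
  have hmart : Martingale M ℱ μ := by
    refine martingale_nat hMm hMint fun n => ?_
    have h1 : M (n + 1) = M n + (c n) • ζ n := by
      funext ω; simp [hMs]
    have h2 : μ[M (n + 1) | ℱ n] =ᵐ[μ] μ[M n | ℱ n] + μ[(c n) • ζ n | ℱ n] := by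
      rw [h1]
      exact condExp_add (hMint n) ((hζint n).smul _) _
    have h3 : μ[M n | ℱ n] = M n := condExp_of_stronglyMeasurable (ℱ.le n) (hMm n) (hMint n)
    have h4 : μ[(c n) • ζ n | ℱ n] =ᵐ[μ] (c n) • μ[ζ n | ℱ n] := condExp_smul _ _ _
    filter_upwards [h2, h4, hζ0 n] with ω e2 e4 e0
    rw [e2, Pi.add_apply, h3, e4, Pi.smul_apply, e0]
    simp
  -- L2 bound
  set κ : ℝ := min c0 1 with hκ
  have hκ0 : 0 < κ := lt_min hc0 one_pos
  have hcb : ∀ n : ℕ, c n ^ 2 ≤ (κ⁻¹) ^ 2 * ((n + 1 : ℕ) : ℝ) ^ (-(5 / 4) : ℝ) := by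
    intro n
    have hn : (0 : ℝ) < (n : ℝ) + 1 := by positivity
    have h1 : κ * ((n : ℝ) + 1) ≤ n + c0 := by
      have a1 : κ ≤ 1 := min_le_right _ _
      have a2 : κ ≤ c0 := min_le_left _ _
      have : (0 : ℝ) ≤ n := Nat.cast_nonneg n
      nlinarith
    have h2 : 1 / (n + c0) ≤ κ⁻¹ * ((n : ℝ) + 1)⁻¹ := by
      rw [← mul_inv, one_div]
      exact inv_anti₀ (by positivity) h1
    have h3 : c n ≤ κ⁻¹ * ((n : ℝ) + 1) ^ (-(5 / 8) : ℝ) := by
      have : κ⁻¹ * ((n : ℝ) + 1) ^ (-(5 / 8) : ℝ) =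
          ((n : ℝ) + 1) ^ ((3 / 8) : ℝ) * (κ⁻¹ * ((n : ℝ) + 1)⁻¹) := by
        have e : ((n : ℝ) + 1) ^ (-(5 / 8) : ℝ) =
            ((n : ℝ) + 1) ^ ((3 / 8) : ℝ) * ((n : ℝ) + 1)⁻¹ := by
          rw [← Real.rpow_neg_one, ← Real.rpow_add hn]; norm_num
        rw [e]; ring
      rw [this]
      exact mul_le_mul_of_nonneg_left h2 (by positivity)
    have h4 : 0 ≤ c n := by simp only [hc]; positivity
    calc c n ^ 2 ≤ (κ⁻¹ * ((n : ℝ) + 1) ^ (-(5 / 8) : ℝ)) ^ 2 := pow_le_pow_left₀ h4 h3 2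
      _ = (κ⁻¹) ^ 2 * ((n + 1 : ℕ) : ℝ) ^ (-(5 / 4) : ℝ) := by
        rw [mul_pow, ← Real.rpow_natCast (((n : ℝ) + 1) ^ (-(5 / 8) : ℝ)) 2, ← Real.rpow_mul hn.le]
        push_cast
        norm_num
  have hsum : Summable (fun n : ℕ => (κ⁻¹) ^ 2 * ((n + 1 : ℕ) : ℝ) ^ (-(5 / 4) : ℝ)) := by
    refine Summable.mul_left _ ?_
    exact (summable_nat_add_iff 1 (f := fun n : ℕ => (n : ℝ) ^ (-(5 / 4) : ℝ))).2
      (Real.summable_nat_rpow.2 (by norm_num))
  have hMsq : ∀ n, ∫ ω, (M n ω) ^ 2 ∂μ ≤ C ^ 2 * ∑ k ∈ Finset.range n, c k ^ 2 := by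
    intro n
    induction n with
    | zero => simp [hM]
    | succ n ih =>
      obtain ⟨B, hB⟩ := hMb n
      have i1 : Integrable (fun ω => (M n ω) ^ 2) μ := by
        refine Integrable.of_bound (((hMm n).mono (ℱ.le n)).pow 2).aestronglyMeasurable (B ^ 2) ?_
        refine ae_of_all _ fun ω => ?_
        rw [Real.norm_eq_abs, abs_pow]
        exact pow_le_pow_left₀ (abs_nonneg _) (hB ω) 2
      have i2 : Integrable (M n * ζ n) μ := by
        refine Integrable.of_bound (((hMm n).mono (ℱ.le n)).mul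
          ((hζm n).mono (ℱ.le _) le_rfl).stronglyMeasurable).aestronglyMeasurable (B * C) ?_
        refine ae_of_all _ fun ω => ?_
        rw [Pi.mul_apply, Real.norm_eq_abs, abs_mul]
        exact mul_le_mul (hB ω) (hζC n ω) (abs_nonneg _) ((abs_nonneg _).trans (hB ω))
      have i3 : Integrable (fun ω => (ζ n ω) ^ 2) μ := by
        refine Integrable.of_bound
          (((hζm n).mono (ℱ.le _) le_rfl).pow_const 2).aestronglyMeasurable (C ^ 2) ?_
        refine ae_of_all _ fun ω => ?_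
        rw [Real.norm_eq_abs, abs_pow]
        exact pow_le_pow_left₀ (abs_nonneg _) (hζC n ω) 2
      have hcross : ∫ ω, (M n * ζ n) ω ∂μ = 0 := by
        have h1 : μ[M n * ζ n | ℱ n] =ᵐ[μ] M n * μ[ζ n | ℱ n] :=
          condExp_mul_of_stronglyMeasurable_left (hMm n) i2 (hζint n)
        rw [← integral_condExp (ℱ.le n), integral_congr_ae h1]
        have h2 : M n * μ[ζ n | ℱ n] =ᵐ[μ] 0 := by
          filter_upwards [hζ0 n] with ω h
          simp [h]
        rw [integral_congr_ae h2]; simp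
      have hexp : (fun ω => (M (n + 1) ω) ^ 2) =
          fun ω => (M n ω) ^ 2 + (2 * c n * (M n * ζ n) ω + c n ^ 2 * (ζ n ω) ^ 2) := by
        funext ω; rw [hMs, Pi.mul_apply]; ring
      have i4 : Integrable (fun ω => 2 * c n * (M n * ζ n) ω) μ := i2.const_mul _
      have i5 : Integrable (fun ω => c n ^ 2 * (ζ n ω) ^ 2) μ := i3.const_mul _
      have i6 : Integrable (fun ω => 2 * c n * (M n * ζ n) ω + c n ^ 2 * (ζ n ω) ^ 2) μ := i4.add i5
      rw [hexp, integral_add i1 i6, integral_add i4 i5, integral_const_mul, integral_const_mul,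
        hcross, Finset.sum_range_succ, mul_add]
      have hz : ∫ ω, (ζ n ω) ^ 2 ∂μ ≤ C ^ 2 := by
        calc ∫ ω, (ζ n ω) ^ 2 ∂μ ≤ ∫ _ω, C ^ 2 ∂μ := by
              refine integral_mono i3 (integrable_const _) fun ω => ?_
              simp only
              rw [← sq_abs]
              exact pow_le_pow_left₀ (abs_nonneg _) (hζC n ω) 2
          _ = C ^ 2 := by simp
      have := mul_le_mul_of_nonneg_left hz (sq_nonneg (c n))
      nlinarith
  set R : ℝ := C ^ 2 * ∑' n : ℕ, (κ⁻¹) ^ 2 * ((n + 1 : ℕ) : ℝ) ^ (-(5 / 4) : ℝ) with hR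
  have hMR : ∀ n, ∫ ω, (M n ω) ^ 2 ∂μ ≤ R := by
    intro n
    refine (hMsq n).trans (mul_le_mul_of_nonneg_left ?_ (sq_nonneg _))
    refine (Finset.sum_le_sum fun k _ => hcb k).trans ?_
    exact hsum.sum_le_tsum _ fun k _ => by positivity
  have hL1 : ∀ n, eLpNorm (M n) 1 μ ≤ (Real.toNNReal (1 + R) : ENNReal) := by
    intro n
    obtain ⟨B, hB⟩ := hMb n
    have i1 : Integrable (fun ω => (M n ω) ^ 2) μ := by
      refine Integrable.of_bound (((hMm n).mono (ℱ.le n)).pow 2).aestronglyMeasurable (B ^ 2) ?_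
      refine ae_of_all _ fun ω => ?_
      rw [Real.norm_eq_abs, abs_pow]
      exact pow_le_pow_left₀ (abs_nonneg _) (hB ω) 2
    rw [eLpNorm_one_eq_lintegral_enorm, ← ofReal_integral_norm_eq_lintegral_enorm (hMint n)]
    refine ENNReal.ofReal_le_ofReal ?_
    calc ∫ ω, ‖M n ω‖ ∂μ ≤ ∫ ω, (1 + (M n ω) ^ 2) ∂μ := by
          refine integral_mono (hMint n).norm ((integrable_const _).add i1) fun ω => ?_
          simp only [Real.norm_eq_abs]
          nlinarith [sq_nonneg (|M n ω| - 1), sq_abs (M n ω), abs_nonneg (M n ω)]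
      _ = 1 + ∫ ω, (M n ω) ^ 2 ∂μ := by
          rw [integral_add (integrable_const _) i1]; simp
      _ ≤ 1 + R := by linarith [hMR n]
  have hae := hmart.submartingale.ae_tendsto_limitProcess hL1
  filter_upwards [hae] with ω hω
  obtain ⟨K, hK⟩ : ∃ K, ∀ n, |M n ω| ≤ K := by
    obtain ⟨K, hK⟩ := (Metric.isBounded_range_of_tendsto _ hω).exists_norm_le
    exact ⟨K, fun n => by simpa using hK _ ⟨n, rfl⟩⟩
  have q1 : ∀ n, w (n + 1) ≤ w n := by
    intro n
    simp only [hw]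
    refine Real.rpow_le_rpow_of_nonpos (by positivity) ?_ (by norm_num)
    push_cast; linarith
  have q2 : Tendsto w atTop (𝓝 0) := by
    have h1 : Tendsto (fun n : ℕ => (n : ℝ) + 1) atTop atTop :=
      tendsto_atTop_add_const_right _ _ tendsto_natCast_atTop_atTop
    exact (tendsto_rpow_neg_atTop (by norm_num : (0 : ℝ) < 3 / 8)).comp h1
  have q3 : ∀ n : ℕ, 1 / ((n : ℝ) + c0) * ζ n ω = w n * (M (n + 1) ω - M n ω) := by
    intro n
    rw [hMs, ← hwc n]; ring
  obtain ⟨T, hT1, hT2⟩ := tail_exists (fun n => 1 / (n + c0)) (fun n => ζ n ω)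
    (fun n => M n ω) w K hK q1 (fun n => (hwpos n).le) q2 q3
  exact ⟨T, hT1, 2 * K, hT2⟩

end H483U.N2
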