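import Pool.Agent.H483R3.Urn.Stmts

set_option autoImplicit false

namespace H483U.N3

open MeasureTheory ProbabilityTheory Filter Topology

section
variable {Ω : Type} {m0 : MeasurableSpace Ω} {μ : Measure Ω} [IsProbabilityMeasure μ]
  {ℱ : Filtration ℕ m0} {ζ : ℕ → Ω → ℝ} {b : ℕ → ℝ} {C : ℝ}

lemma int_of_bdd {f : Ω → ℝ} (hf : Measurable f) {B : ℝ} (hB : ∀ ω, |f ω| ≤ B) :
    Integrable f μ :=
  Integrable.of_bound hf.aestronglyMeasurable B
    (Eventually.of_forall fun ω => by simpa using hB ω)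

lemma orth {k : ℕ} {g z : Ω → ℝ} (hg : Measurable[ℱ k] g) {B : ℝ} (hB : ∀ ω, |g ω| ≤ B)
    (hz : Measurable z) (hzC : ∀ ω, |z ω| ≤ C) (h0 : μ[z | ℱ k] =ᵐ[μ] 0) :
    ∫ ω, g ω * z ω ∂μ = 0 := by
  have hgm : Measurable g := hg.mono (ℱ.le k) le_rfl
  have hi : Integrable (g * z) μ := by
    apply int_of_bdd (hgm.mul hz) (B := B * C)
    intro ω
    rw [Pi.mul_apply, abs_mul]
    exact mul_le_mul (hB ω) (hzC ω) (abs_nonneg _) ((abs_nonneg _).trans (hB ω))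
  have h1 : μ[g * z | ℱ k] =ᵐ[μ] g * μ[z | ℱ k] :=
    condExp_mul_of_stronglyMeasurable_left hg.stronglyMeasurable hi (int_of_bdd hz hzC)
  have h2 : ∫ ω, (μ[g * z | ℱ k]) ω ∂μ = ∫ ω, (g * z) ω ∂μ := integral_condExp (ℱ.le k)
  have h3 : ∫ ω, (μ[g * z | ℱ k]) ω ∂μ = 0 := by
    rw [integral_congr_ae (g := fun _ => (0 : ℝ))]
    · simp
    · filter_upwards [h1, h0] with ω h1 h0
      rw [h1, Pi.mul_apply, h0]
      simp
  rw [← h3, h2]
  rfl

/-- lower bound for the second moment of the increment on an event -/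
lemma low {k : ℕ} {σ : ℝ} {z : Ω → ℝ} {H D : Set Ω} (hH : MeasurableSet[ℱ k] H)
    (hD : MeasurableSet[ℱ k] D)
    (hz : Measurable z) (hzC : ∀ ω, |z ω| ≤ C)
    (hs : ∀ᵐ ω ∂μ, ω ∈ D → σ ≤ (μ[fun ω => (z ω) ^ 2 | ℱ k]) ω) :
    σ * μ.real (H ∩ D) ≤ ∫ ω in H, z ω ^ 2 ∂μ := by
  have hzi : Integrable (fun ω => z ω ^ 2) μ := by
    apply int_of_bdd (hz.pow_const 2) (B := C ^ 2)
    intro ω
    rw [abs_pow]
    exact pow_le_pow_left₀ (abs_nonneg _) (hzC ω) 2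
  have h1 : ∫ ω in H, (μ[fun ω => (z ω) ^ 2 | ℱ k]) ω ∂μ = ∫ ω in H, z ω ^ 2 ∂μ :=
    setIntegral_condExp (ℱ.le k) hzi hH
  rw [← h1]
  have hHm := (ℱ.le k) _ hH
  have hDm := (ℱ.le k) _ hD
  have hnn : 0 ≤ᵐ[μ] μ[fun ω => (z ω) ^ 2 | ℱ k] :=
    condExp_nonneg (Eventually.of_forall fun ω => sq_nonneg _)
  have h2 : ∫ ω in H ∩ D, σ ∂μ ≤ ∫ ω in H ∩ D, (μ[fun ω => (z ω) ^ 2 | ℱ k]) ω ∂μ := by
    apply setIntegral_mono_on_ae
    · exact integrableOn_const (measure_ne_top _ _)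
    · exact integrable_condExp.integrableOn
    · exact hHm.inter hDm
    · filter_upwards [hs] with ω h hω
      exact h hω.2
  have h3 : ∫ ω in H ∩ D, (μ[fun ω => (z ω) ^ 2 | ℱ k]) ω ∂μ ≤
      ∫ ω in H, (μ[fun ω => (z ω) ^ 2 | ℱ k]) ω ∂μ := by
    apply setIntegral_mono_set
    · exact integrable_condExp.integrableOn
    · exact ae_restrict_of_ae hnn
    · exact (Set.inter_subset_left).eventuallyLE
  have h4 : ∫ ω in H ∩ D, σ ∂μ = σ * μ.real (H ∩ D) := by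
    rw [setIntegral_const, smul_eq_mul, mul_comm]
  linarith

lemma orthH {k : ℕ} {H : Set Ω} (hH : MeasurableSet[ℱ k] H) {g z : Ω → ℝ}
    (hg : Measurable[ℱ k] g) {B : ℝ} (hB : ∀ ω, |g ω| ≤ B)
    (hz : Measurable z) (hzC : ∀ ω, |z ω| ≤ C) (h0 : μ[z | ℱ k] =ᵐ[μ] 0) :
    ∫ ω in H, g ω * z ω ∂μ = 0 := by
  rw [← integral_indicator ((ℱ.le k) _ hH)]
  have h1 : ∫ ω, H.indicator g ω * z ω ∂μ = 0 := by
    apply orth (hg.indicator hH) (B := B) _ hz hzC h0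
    intro ω
    by_cases hω : ω ∈ H
    · rw [Set.indicator_of_mem hω]
      exact hB ω
    · rw [Set.indicator_of_notMem hω, abs_zero]
      exact (abs_nonneg _).trans (hB ω)
  rw [← h1]
  congr 1
  ext ω
  by_cases hω : ω ∈ H
  · rw [Set.indicator_of_mem hω, Set.indicator_of_mem hω]
  · rw [Set.indicator_of_notMem hω, Set.indicator_of_notMem hω, zero_mul]

lemma SS_succ {n m : ℕ} (h : n ≤ m) (ω : Ω) :
    SS b ζ n (m + 1) ω = SS b ζ n m ω + b m * ζ m ω := by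
  unfold SS
  rw [Finset.sum_Ico_succ_top h]

lemma SS_meas (hζ : ∀ k, Measurable[ℱ (k + 1)] (ζ k)) (n m : ℕ) :
    Measurable[ℱ m] (SS b ζ n m) := by
  unfold SS
  apply Finset.measurable_sum
  intro k hk
  have h1 : Measurable[ℱ m] (ζ k) := (hζ k).mono (ℱ.mono (Finset.mem_Ico.1 hk).2) le_rfl
  exact h1.const_mul (b k)

lemma SS_bdd (hb : ∀ k, 0 < b k) (hC : ∀ k ω, |ζ k ω| ≤ C) (n m : ℕ) (ω : Ω) :
    |SS b ζ n m ω| ≤ ∑ k ∈ Finset.Ico n m, b k * C := by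
  unfold SS
  refine (Finset.abs_sum_le_sum_abs _ _).trans (Finset.sum_le_sum fun k _ => ?_)
  rw [abs_mul, abs_of_pos (hb k)]
  exact mul_le_mul_of_nonneg_left (hC k ω) (hb k).le

lemma int_pow {f : Ω → ℝ} (hf : Measurable f) {B : ℝ} (hB : ∀ ω, |f ω| ≤ B) (j : ℕ) :
    Integrable (fun ω => f ω ^ j) μ := by
  apply int_of_bdd (hf.pow_const j) (B := B ^ j)
  intro ω
  rw [abs_pow]
  exact pow_le_pow_left₀ (abs_nonneg _) (hB ω) j

lemma int_mul {f g : Ω → ℝ} (hf : Measurable f) {B : ℝ} (hB : ∀ ω, |f ω| ≤ B)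
    (hg : Measurable g) {B' : ℝ} (hB' : ∀ ω, |g ω| ≤ B') :
    Integrable (fun ω => f ω * g ω) μ := by
  apply int_of_bdd (hf.mul hg) (B := B * B')
  intro ω
  rw [Pi.mul_apply, abs_mul]
  exact mul_le_mul (hB ω) (hB' ω) (abs_nonneg _) ((abs_nonneg _).trans (hB ω))

/-- second moment identity -/
lemma m2_succ (hb : ∀ k, 0 < b k) (hζ : ∀ k, Measurable[ℱ (k + 1)] (ζ k))
    (hC : ∀ k ω, |ζ k ω| ≤ C) (h0 : ∀ k, μ[ζ k | ℱ k] =ᵐ[μ] 0) {n m : ℕ} (hnm : n ≤ m)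
    {H : Set Ω} (hH : MeasurableSet[ℱ n] H) :
    ∫ ω in H, SS b ζ n (m + 1) ω ^ 2 ∂μ =
      ∫ ω in H, SS b ζ n m ω ^ 2 ∂μ + b m ^ 2 * ∫ ω in H, ζ m ω ^ 2 ∂μ := by
  have hS := SS_meas (b := b) hζ n m
  have hSm : Measurable (SS b ζ n m) := hS.mono (ℱ.le m) le_rfl
  have hSB := SS_bdd hb hC n m
  have hzm : Measurable (ζ m) := (hζ m).mono (ℱ.le _) le_rfl
  have hc : ∫ ω in H, SS b ζ n m ω * ζ m ω ∂μ = 0 :=
    orthH (ℱ.mono hnm _ hH) hS hSB hzm (hC m) (h0 m)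
  have h1 : ∀ ω, SS b ζ n (m + 1) ω ^ 2 = SS b ζ n m ω ^ 2 +
      ((2 * b m) * (SS b ζ n m ω * ζ m ω) + b m ^ 2 * ζ m ω ^ 2) := by
    intro ω
    rw [SS_succ hnm]
    ring
  simp_rw [h1]
  rw [integral_add, integral_add, integral_const_mul, integral_const_mul, hc]
  · ring
  · exact ((int_mul hSm hSB hzm (hC m)).const_mul _).integrableOn
  · exact ((int_pow hzm (hC m) 2).const_mul _).integrableOn
  · exact (int_pow hSm hSB 2).integrableOn
  · exact (((int_mul hSm hSB hzm (hC m)).const_mul _).add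
      ((int_pow hzm (hC m) 2).const_mul _)).integrableOn

lemma m2_up (hb : ∀ k, 0 < b k) (hζ : ∀ k, Measurable[ℱ (k + 1)] (ζ k))
    (hC : ∀ k ω, |ζ k ω| ≤ C) (h0 : ∀ k, μ[ζ k | ℱ k] =ᵐ[μ] 0) {n m : ℕ} (hnm : n ≤ m)
    {H : Set Ω} (hH : MeasurableSet[ℱ n] H) :
    ∫ ω in H, SS b ζ n m ω ^ 2 ∂μ ≤ C ^ 2 * (∑ k ∈ Finset.Ico n m, b k ^ 2) * μ.real H := by
  induction m, hnm using Nat.le_induction with
  | base =>
    simp [SS]
  | succ m hnm ih =>
    rw [m2_succ hb hζ hC h0 hnm hH, Finset.sum_Ico_succ_top hnm]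
    have hzm : Measurable (ζ m) := (hζ m).mono (ℱ.le _) le_rfl
    have h1 : ∫ ω in H, ζ m ω ^ 2 ∂μ ≤ C ^ 2 * μ.real H := by
      have h2 : ∫ ω in H, ζ m ω ^ 2 ∂μ ≤ ∫ _ in H, C ^ 2 ∂μ := by
        apply integral_mono
        · exact (int_pow hzm (hC m) 2).integrableOn
        · exact integrable_const _
        · intro ω
          have := hC m ω
          show ζ m ω ^ 2 ≤ C ^ 2
          rw [← sq_abs]
          exact pow_le_pow_left₀ (abs_nonneg _) this 2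
      rw [setIntegral_const, smul_eq_mul, mul_comm] at h2
      exact h2
    have h3 := mul_le_mul_of_nonneg_left h1 (sq_nonneg (b m))
    nlinarith [h3, ih]

lemma m2_low {σ : ℝ} {D : ℕ → Set Ω} {E : Set Ω} (hσ : 0 < σ)
    (hb : ∀ k, 0 < b k) (hζ : ∀ k, Measurable[ℱ (k + 1)] (ζ k))
    (hC : ∀ k ω, |ζ k ω| ≤ C) (h0 : ∀ k, μ[ζ k | ℱ k] =ᵐ[μ] 0)
    (hs : ∀ k, ∀ᵐ ω ∂μ, ω ∈ D k → σ ≤ (μ[fun ω => (ζ k ω) ^ 2 | ℱ k]) ω)
    (hD : ∀ k, MeasurableSet[ℱ k] (D k)) {n m : ℕ} (hnm : n ≤ m)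
    (hED : ∀ k, n ≤ k → E ⊆ D k)
    {H : Set Ω} (hH : MeasurableSet[ℱ n] H) :
    σ * (∑ k ∈ Finset.Ico n m, b k ^ 2) * μ.real (H ∩ E) ≤ ∫ ω in H, SS b ζ n m ω ^ 2 ∂μ := by
  induction m, hnm using Nat.le_induction with
  | base =>
    simp [SS]
  | succ m hnm ih =>
    rw [m2_succ hb hζ hC h0 hnm hH, Finset.sum_Ico_succ_top hnm]
    have hzm : Measurable (ζ m) := (hζ m).mono (ℱ.le _) le_rfl
    have h1 := low (ℱ.mono hnm _ hH) (hD m) hzm (hC m) (hs m)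
    have h2 : μ.real (H ∩ E) ≤ μ.real (H ∩ D m) :=
      measureReal_mono (Set.inter_subset_inter_right _ (hED m hnm))
    have h3 : σ * μ.real (H ∩ E) ≤ ∫ ω in H, ζ m ω ^ 2 ∂μ :=
      (mul_le_mul_of_nonneg_left h2 hσ.le).trans h1
    have h4 := mul_le_mul_of_nonneg_left h3 (sq_nonneg (b m))
    nlinarith [h4, ih]

lemma m4_up (hCpos : 0 < C) (hb : ∀ k, 0 < b k) (hζ : ∀ k, Measurable[ℱ (k + 1)] (ζ k))
    (hC : ∀ k ω, |ζ k ω| ≤ C) (h0 : ∀ k, μ[ζ k | ℱ k] =ᵐ[μ] 0) {n m : ℕ} (hnm : n ≤ m)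
    {H : Set Ω} (hH : MeasurableSet[ℱ n] H) :
    ∫ ω in H, SS b ζ n m ω ^ 4 ∂μ ≤
      4 * C ^ 4 * (∑ k ∈ Finset.Ico n m, b k ^ 2) ^ 2 * μ.real H := by
  induction m, hnm using Nat.le_induction with
  | base =>
    simp [SS]
  | succ m hnm ih =>
    have hS := SS_meas (b := b) hζ n m
    have hSm : Measurable (SS b ζ n m) := hS.mono (ℱ.le m) le_rfl
    have hSB := SS_bdd hb hC n m
    have hzm : Measurable (ζ m) := (hζ m).mono (ℱ.le _) le_rfl
    have hm2 := m2_up hb hζ hC h0 hnm hH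
    set B := ∑ k ∈ Finset.Ico n m, b k * C with hB
    set V := ∑ k ∈ Finset.Ico n m, b k ^ 2 with hV
    have hVnn : 0 ≤ V := Finset.sum_nonneg fun k _ => sq_nonneg _
    have hc : ∫ ω in H, SS b ζ n m ω ^ 3 * ζ m ω ∂μ = 0 := by
      apply orthH (ℱ.mono hnm _ hH) (hS.pow_const 3) (B := B ^ 3) _ hzm (hC m) (h0 m)
      intro ω
      rw [abs_pow]
      exact pow_le_pow_left₀ (abs_nonneg _) (hSB ω) 3
    have hpt : ∀ ω, SS b ζ n (m + 1) ω ^ 4 ≤ SS b ζ n m ω ^ 4 +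
        ((4 * b m) * (SS b ζ n m ω ^ 3 * ζ m ω) +
          ((8 * b m ^ 2 * C ^ 2) * SS b ζ n m ω ^ 2 + 3 * b m ^ 4 * C ^ 4)) := by
      intro ω
      rw [SS_succ hnm]
      set S := SS b ζ n m ω
      set z := ζ m ω with hz
      have hz2 : z ^ 2 ≤ C ^ 2 := by
        rw [← sq_abs]
        exact pow_le_pow_left₀ (abs_nonneg _) (hC m ω) 2
      have hz4 : z ^ 4 ≤ C ^ 4 := by nlinarith [sq_nonneg z, sq_nonneg C]
      have e1 : (S + b m * z) ^ 4 = S ^ 4 + 4 * b m * (S ^ 3 * z) + 6 * S ^ 2 * (b m * z) ^ 2 +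
          4 * S * (b m * z) ^ 3 + (b m * z) ^ 4 := by ring
      have e2 : 4 * S * (b m * z) ^ 3 ≤ 2 * (S ^ 2 * (b m * z) ^ 2 + (b m * z) ^ 4) := by
        nlinarith [mul_nonneg (sq_nonneg (b m * z)) (sq_nonneg (S - b m * z))]
      have e3 : S ^ 2 * (b m * z) ^ 2 ≤ b m ^ 2 * C ^ 2 * S ^ 2 := by
        have := mul_le_mul_of_nonneg_left hz2 (mul_nonneg (sq_nonneg S) (sq_nonneg (b m)))
        nlinarith [this]
      have e4 : (b m * z) ^ 4 ≤ b m ^ 4 * C ^ 4 := by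
        have := mul_le_mul_of_nonneg_left hz4 (by positivity : 0 ≤ b m ^ 4)
        nlinarith [this]
      nlinarith [e1, e2, e3, e4]
    have hint1 : Integrable (fun ω => (4 * b m) * (SS b ζ n m ω ^ 3 * ζ m ω)) μ := by
      apply Integrable.const_mul
      apply int_mul (hSm.pow_const 3) (B := B ^ 3) _ hzm (hC m)
      intro ω
      rw [abs_pow]
      exact pow_le_pow_left₀ (abs_nonneg _) (hSB ω) 3
    have hint2 : Integrable (fun ω => (8 * b m ^ 2 * C ^ 2) * SS b ζ n m ω ^ 2) μ :=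
      (int_pow hSm hSB 2).const_mul _
    have hint3 : Integrable (fun _ : Ω => 3 * b m ^ 4 * C ^ 4) μ := integrable_const _
    have h1 : ∫ ω in H, SS b ζ n (m + 1) ω ^ 4 ∂μ ≤ ∫ ω in H, (SS b ζ n m ω ^ 4 +
        ((4 * b m) * (SS b ζ n m ω ^ 3 * ζ m ω) +
          ((8 * b m ^ 2 * C ^ 2) * SS b ζ n m ω ^ 2 + 3 * b m ^ 4 * C ^ 4))) ∂μ := by
      apply integral_mono
      · exact (int_pow ((SS_meas (b := b) hζ n (m + 1)).mono (ℱ.le _) le_rfl)
          (SS_bdd hb hC n (m + 1)) 4).integrableOn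
      · exact ((int_pow hSm hSB 4).add (hint1.add (hint2.add hint3))).integrableOn
      · exact hpt
    have hsplit : ∫ ω in H, (SS b ζ n m ω ^ 4 +
        ((4 * b m) * (SS b ζ n m ω ^ 3 * ζ m ω) +
          ((8 * b m ^ 2 * C ^ 2) * SS b ζ n m ω ^ 2 + 3 * b m ^ 4 * C ^ 4))) ∂μ =
        ∫ ω in H, SS b ζ n m ω ^ 4 ∂μ + (0 +
          ((8 * b m ^ 2 * C ^ 2) * ∫ ω in H, SS b ζ n m ω ^ 2 ∂μ +
            μ.real H * (3 * b m ^ 4 * C ^ 4))) := by
      rw [integral_add, integral_add, integral_add, integral_const_mul, integral_const_mul,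
        hc, setIntegral_const, smul_eq_mul, mul_zero]
      · exact hint2.integrableOn
      · exact hint3.integrableOn
      · exact hint1.integrableOn
      · exact (hint2.add hint3).integrableOn
      · exact (int_pow hSm hSB 4).integrableOn
      · exact (hint1.add (hint2.add hint3)).integrableOn
    rw [hsplit] at h1
    rw [Finset.sum_Ico_succ_top hnm, ← hV]
    have h2 := mul_le_mul_of_nonneg_left hm2 (by positivity : 0 ≤ 8 * b m ^ 2 * C ^ 2)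
    have hH0 : 0 ≤ μ.real H := measureReal_nonneg
    have h3 : 0 ≤ C ^ 4 * b m ^ 4 * μ.real H := by positivity
    nlinarith [h1, h2, ih, h3]

lemma cross (hb : ∀ k, 0 < b k) (hζ : ∀ k, Measurable[ℱ (k + 1)] (ζ k))
    (hC : ∀ k ω, |ζ k ω| ≤ C) (h0 : ∀ k, μ[ζ k | ℱ k] =ᵐ[μ] 0) {n m : ℕ} (hnm : n ≤ m)
    {H : Set Ω} (hH : MeasurableSet[ℱ n] H) {Z : Ω → ℝ} (hZ : Measurable[ℱ n] Z) {B : ℝ}
    (hB : ∀ ω, |Z ω| ≤ B) :
    ∫ ω in H, Z ω * SS b ζ n m ω ∂μ = 0 := by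
  have hZm : Measurable Z := hZ.mono (ℱ.le n) le_rfl
  induction m, hnm using Nat.le_induction with
  | base => simp [SS]
  | succ m hnm ih =>
    have hS := SS_meas (b := b) hζ n m
    have hSm : Measurable (SS b ζ n m) := hS.mono (ℱ.le m) le_rfl
    have hzm : Measurable (ζ m) := (hζ m).mono (ℱ.le _) le_rfl
    have hc : ∫ ω in H, Z ω * ζ m ω ∂μ = 0 :=
      orthH (ℱ.mono hnm _ hH) (hZ.mono (ℱ.mono hnm) le_rfl) hB hzm (hC m) (h0 m)
    have h1 : ∀ ω, Z ω * SS b ζ n (m + 1) ω = Z ω * SS b ζ n m ω + b m * (Z ω * ζ m ω) := by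
      intro ω
      rw [SS_succ hnm]
      ring
    simp_rw [h1]
    rw [integral_add, integral_const_mul, hc, ih]
    · ring
    · exact (int_mul hZm hB hSm (SS_bdd hb hC n m)).integrableOn
    · exact ((int_mul hZm hB hzm (hC m)).const_mul _).integrableOn

end

theorem t : H483U.TaskN3 := by
  intro C σ hC hσ
  set δ : ℝ := σ / (32 * C ^ 4) with hδ
  have hδpos : 0 < δ := by positivity
  set K : ℝ := 2 * C + 1 with hK
  have hKpos : 0 < K := by positivity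
  set ε : ℝ := min (1 / 8) (σ / (8 * (1 + 1 / δ + 2 * K ^ 2))) with hε
  have hεpos : 0 < ε := by
    apply lt_min
    · norm_num
    · positivity
  have hε8 : ε ≤ 1 / 8 := min_le_left _ _
  have hεs : ε * (1 + 1 / δ + 2 * K ^ 2) ≤ σ / 8 := by
    have h1 : ε ≤ σ / (8 * (1 + 1 / δ + 2 * K ^ 2)) := min_le_right _ _
    have h2 : 0 < 1 + 1 / δ + 2 * K ^ 2 := by positivity
    calc ε * (1 + 1 / δ + 2 * K ^ 2)
        ≤ σ / (8 * (1 + 1 / δ + 2 * K ^ 2)) * (1 + 1 / δ + 2 * K ^ 2) :=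
          mul_le_mul_of_nonneg_right h1 h2.le
      _ = σ / 8 := by field_simp
  refine ⟨ε, hεpos, ?_⟩
  intro Ω _ μ _ ℱ ζ b D n m Z H E hnm hb hζm hζC hζ0 hs hD hH hZ hE hEH hHE hED hZE
  by_contra hne
  have hh : 0 < μ.real H := lt_of_le_of_ne measureReal_nonneg (Ne.symm hne)
  set V : ℝ := ∑ k ∈ Finset.Ico n m, b k ^ 2 with hV
  have hVpos : 0 < V := by
    apply Finset.sum_pos
    · intro k _
      exact pow_pos (hb k) 2
    · exact Finset.nonempty_Ico.2 hnm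
  have hsV : Real.sqrt V ^ 2 = V := Real.sq_sqrt hVpos.le
  have hsVpos : 0 < Real.sqrt V := Real.sqrt_pos.2 hVpos
  have hHm : MeasurableSet H := (ℱ.le n) _ hH
  have hS := SS_meas (b := b) hζm n m
  have hSm : Measurable (SS b ζ n m) := hS.mono (ℱ.le m) le_rfl
  have hSB := SS_bdd hb hζC n m
  set H' : Set Ω := H ∩ {ω | |Z ω| ≤ K * Real.sqrt V} with hH'
  have hZset : MeasurableSet[ℱ n] {ω | |Z ω| ≤ K * Real.sqrt V} := by
    have h1 : Measurable[ℱ n] fun ω => |Z ω| :=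
      (continuous_abs.measurable).comp hZ
    exact h1 measurableSet_Iic
  have hH'm : MeasurableSet[ℱ n] H' := hH.inter hZset
  have hH'm0 : MeasurableSet H' := (ℱ.le n) _ hH'm
  have hHH : H' ⊆ H := Set.inter_subset_left
  -- step a
  set T : Set Ω := {ω | 4 * C ^ 2 * V ≤ SS b ζ n m ω ^ 2} with hT
  have hTm : MeasurableSet T := (hSm.pow_const 2) measurableSet_Ici
  have ha1 : H \ H' ⊆ (H \ E) ∪ (H ∩ T) := by
    intro ω hω
    by_cases hωE : ω ∈ E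
    · right
      refine ⟨hω.1, ?_⟩
      have h1 : K * Real.sqrt V < |Z ω| := by
        by_contra hcon
        exact hω.2 ⟨hω.1, not_lt.1 hcon⟩
      have h2 := hZE ω hωE
      have h3 : |Z ω| ≤ |Z ω + SS b ζ n m ω| + |SS b ζ n m ω| := by
        have := abs_sub (Z ω + SS b ζ n m ω) (SS b ζ n m ω)
        simpa using this
      have h4 : 2 * C * Real.sqrt V ≤ |SS b ζ n m ω| := by
        have h5 : ε * Real.sqrt V ≤ 1 * Real.sqrt V :=
          mul_le_mul_of_nonneg_right (by linarith) hsVpos.le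
        have h6 : K * Real.sqrt V = 2 * C * Real.sqrt V + 1 * Real.sqrt V := by
          rw [hK]
          ring
        linarith
      show 4 * C ^ 2 * V ≤ SS b ζ n m ω ^ 2
      have h7 := pow_le_pow_left₀ (by positivity) h4 2
      rw [sq_abs] at h7
      calc 4 * C ^ 2 * V = (2 * C * Real.sqrt V) ^ 2 := by
            rw [mul_pow, mul_pow, hsV]
            ring
        _ ≤ _ := h7
    · exact Or.inl ⟨hω.1, hωE⟩
  have ha2 : μ.real (H ∩ T) ≤ μ.real H / 4 := by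
    have h1 : ∫ _ in H ∩ T, (4 * C ^ 2 * V) ∂μ ≤ ∫ ω in H ∩ T, SS b ζ n m ω ^ 2 ∂μ := by
      apply setIntegral_mono_on
      · exact integrableOn_const (measure_ne_top _ _)
      · exact (int_pow hSm hSB 2).integrableOn
      · exact hHm.inter hTm
      · intro ω hω
        exact hω.2
    have h2 : ∫ ω in H ∩ T, SS b ζ n m ω ^ 2 ∂μ ≤ ∫ ω in H, SS b ζ n m ω ^ 2 ∂μ := by
      apply setIntegral_mono_set
      · exact (int_pow hSm hSB 2).integrableOn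
      · exact Eventually.of_forall fun ω => sq_nonneg _
      · exact (Set.inter_subset_left).eventuallyLE
    have h3 := m2_up hb hζm hζC hζ0 hnm.le hH
    rw [setIntegral_const, smul_eq_mul] at h1
    have h4 : μ.real (H ∩ T) * (4 * C ^ 2 * V) ≤ C ^ 2 * V * μ.real H := h1.trans (h2.trans h3)
    have h5 : 0 < C ^ 2 * V := by positivity
    have h6 : (C ^ 2 * V) * (μ.real (H ∩ T) * 4) ≤ (C ^ 2 * V) * μ.real H := by
      calc (C ^ 2 * V) * (μ.real (H ∩ T) * 4) = μ.real (H ∩ T) * (4 * C ^ 2 * V) := by ring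
        _ ≤ _ := h4
    have h7 := le_of_mul_le_mul_left h6 h5
    linarith
  have ha : μ.real (H \ H') ≤ ε * μ.real H + μ.real H / 4 := by
    calc μ.real (H \ H') ≤ μ.real ((H \ E) ∪ (H ∩ T)) := measureReal_mono ha1
      _ ≤ μ.real (H \ E) + μ.real (H ∩ T) := measureReal_union_le _ _
      _ ≤ _ := add_le_add hHE ha2
  -- step b
  have hb1 : (3 / 4 - 2 * ε) * μ.real H ≤ μ.real (H' ∩ E) := by
    have h1 : H ⊆ (H' ∩ E) ∪ ((H \ H') ∪ (H \ E)) := by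
      intro ω hω
      by_cases h2 : ω ∈ H'
      · by_cases h3 : ω ∈ E
        · exact Or.inl ⟨h2, h3⟩
        · exact Or.inr (Or.inr ⟨hω, h3⟩)
      · exact Or.inr (Or.inl ⟨hω, h2⟩)
    have h2 : μ.real H ≤ μ.real (H' ∩ E) + (μ.real (H \ H') + μ.real (H \ E)) := by
      calc μ.real H ≤ μ.real ((H' ∩ E) ∪ ((H \ H') ∪ (H \ E))) := measureReal_mono h1
        _ ≤ μ.real (H' ∩ E) + μ.real ((H \ H') ∪ (H \ E)) := measureReal_union_le _ _
        _ ≤ _ := add_le_add le_rfl (measureReal_union_le _ _)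
    linarith
  have hb2 := m2_low hσ hb hζm hζC hζ0 hs hD hnm.le hED hH'm
  have hb3 : σ * V * ((3 / 4 - 2 * ε) * μ.real H) ≤ ∫ ω in H', SS b ζ n m ω ^ 2 ∂μ :=
    (mul_le_mul_of_nonneg_left hb1 (by positivity)).trans hb2
  -- step c : replace `Z` by a bounded function
  set Z' : Ω → ℝ := {ω | |Z ω| ≤ K * Real.sqrt V}.indicator Z with hZ'
  have hZ'm : Measurable[ℱ n] Z' := hZ.indicator hZset
  have hZ'm0 : Measurable Z' := hZ'm.mono (ℱ.le n) le_rfl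
  have hZ'B : ∀ ω, |Z' ω| ≤ K * Real.sqrt V := by
    intro ω
    by_cases hω : |Z ω| ≤ K * Real.sqrt V
    · have : Z' ω = Z ω := Set.indicator_of_mem (s := {ω | |Z ω| ≤ K * Real.sqrt V}) hω Z
      rw [this]
      exact hω
    · have : Z' ω = 0 := Set.indicator_of_notMem (s := {ω | |Z ω| ≤ K * Real.sqrt V}) hω Z
      rw [this, abs_zero]
      positivity
  have hZ'E : ∀ ω ∈ H', Z' ω = Z ω := fun ω hω =>
    Set.indicator_of_mem (s := {ω | |Z ω| ≤ K * Real.sqrt V}) hω.2 Z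
  have hc1 := cross hb hζm hζC hζ0 hnm.le hH'm hZ'm hZ'B
  have hc2 : ∫ ω in H', SS b ζ n m ω ^ 2 ∂μ ≤ ∫ ω in H', (SS b ζ n m ω + Z' ω) ^ 2 ∂μ := by
    have h1 : ∀ ω, (SS b ζ n m ω + Z' ω) ^ 2 =
        SS b ζ n m ω ^ 2 + (2 * (Z' ω * SS b ζ n m ω) + Z' ω ^ 2) := by
      intro ω
      ring
    simp_rw [h1]
    rw [integral_add, integral_add, integral_const_mul, hc1]
    · have h2 : 0 ≤ ∫ ω in H', Z' ω ^ 2 ∂μ := integral_nonneg fun ω => sq_nonneg _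
      linarith
    · exact ((int_mul hZ'm0 hZ'B hSm hSB).const_mul _).integrableOn
    · exact (int_pow hZ'm0 hZ'B 2).integrableOn
    · exact (int_pow hSm hSB 2).integrableOn
    · exact (((int_mul hZ'm0 hZ'B hSm hSB).const_mul _).add
        (int_pow hZ'm0 hZ'B 2)).integrableOn
  -- step d
  set c : ℝ := V / δ + 2 * K ^ 2 * V with hc
  have hcpos : 0 < c := by positivity
  have hHEm : MeasurableSet (H \ E) := hHm.diff hE
  have hd1 : ∀ ω ∈ H', (SS b ζ n m ω + Z' ω) ^ 2 ≤ ε ^ 2 * V +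
      ((δ / V) * SS b ζ n m ω ^ 4 + (H \ E).indicator (fun _ => c) ω) := by
    intro ω hω
    rw [hZ'E ω hω]
    have h4 : 0 ≤ (δ / V) * SS b ζ n m ω ^ 4 := by positivity
    by_cases hωE : ω ∈ E
    · have h1 : ω ∉ H \ E := fun h => h.2 hωE
      rw [Set.indicator_of_notMem h1, add_zero]
      have h2 := hZE ω hωE
      have h3 : (SS b ζ n m ω + Z ω) ^ 2 ≤ ε ^ 2 * V := by
        rw [← sq_abs, add_comm]
        have := pow_le_pow_left₀ (abs_nonneg _) h2 2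
        rwa [mul_pow, hsV] at this
      linarith
    · have h1 : ω ∈ H \ E := ⟨hω.1, hωE⟩
      rw [Set.indicator_of_mem h1]
      have h2 : Z ω ^ 2 ≤ K ^ 2 * V := by
        have h0 : |Z ω| ≤ K * Real.sqrt V := hω.2
        have := pow_le_pow_left₀ (abs_nonneg _) h0 2
        rwa [sq_abs, mul_pow, hsV] at this
      have h3 : 2 * SS b ζ n m ω ^ 2 ≤ (δ / V) * SS b ζ n m ω ^ 4 + V / δ := by
        have h5 : 0 ≤ (δ / V) * (SS b ζ n m ω ^ 2 - V / δ) ^ 2 := by positivity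
        have h6 : (δ / V) * (SS b ζ n m ω ^ 2 - V / δ) ^ 2 =
            (δ / V) * SS b ζ n m ω ^ 4 - 2 * SS b ζ n m ω ^ 2 + V / δ := by
          field_simp
          ring
        linarith
      have h7 : (SS b ζ n m ω + Z ω) ^ 2 ≤ 2 * SS b ζ n m ω ^ 2 + 2 * Z ω ^ 2 := by
        nlinarith [sq_nonneg (SS b ζ n m ω - Z ω)]
      have h8 : 0 ≤ ε ^ 2 * V := by positivity
      rw [hc]
      linarith
  have hd2 : ∫ ω in H', (SS b ζ n m ω + Z' ω) ^ 2 ∂μ ≤ ∫ ω in H', (ε ^ 2 * V +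
      ((δ / V) * SS b ζ n m ω ^ 4 + (H \ E).indicator (fun _ => c) ω)) ∂μ := by
    apply setIntegral_mono_on
    · have : Integrable (fun ω => (SS b ζ n m ω + Z' ω) ^ 2) μ := by
        apply int_pow (hSm.add hZ'm0) (B := (∑ k ∈ Finset.Ico n m, b k * C) + K * Real.sqrt V)
        intro ω
        exact (abs_add_le _ _).trans (add_le_add (hSB ω) (hZ'B ω))
      exact this.integrableOn
    · exact ((integrable_const _).add (((int_pow hSm hSB 4).const_mul _).add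
        ((integrable_const c).indicator hHEm))).integrableOn
    · exact hH'm0
    · exact hd1
  have hd3 : ∫ ω in H', (ε ^ 2 * V +
      ((δ / V) * SS b ζ n m ω ^ 4 + (H \ E).indicator (fun _ => c) ω)) ∂μ =
      μ.real H' * (ε ^ 2 * V) + ((δ / V) * ∫ ω in H', SS b ζ n m ω ^ 4 ∂μ +
        μ.real (H' ∩ (H \ E)) * c) := by
    have g1 : Integrable (fun _ : Ω => ε ^ 2 * V) (μ.restrict H') := integrable_const _
    have g2 : Integrable (fun ω => (δ / V) * SS b ζ n m ω ^ 4) (μ.restrict H') :=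
      ((int_pow hSm hSB 4).const_mul _).integrableOn
    have g3 : Integrable ((H \ E).indicator (fun _ => c)) (μ.restrict H') :=
      ((integrable_const c).indicator hHEm).integrableOn
    have e1 : ∫ ω in H', (ε ^ 2 * V +
        ((δ / V) * SS b ζ n m ω ^ 4 + (H \ E).indicator (fun _ => c) ω)) ∂μ =
        ∫ ω in H', ε ^ 2 * V ∂μ +
          ∫ ω in H', ((δ / V) * SS b ζ n m ω ^ 4 + (H \ E).indicator (fun _ => c) ω) ∂μ :=
      integral_add g1 (g2.add g3)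
    have e2 : ∫ ω in H', ((δ / V) * SS b ζ n m ω ^ 4 + (H \ E).indicator (fun _ => c) ω) ∂μ =
        ∫ ω in H', (δ / V) * SS b ζ n m ω ^ 4 ∂μ +
          ∫ ω in H', (H \ E).indicator (fun _ => c) ω ∂μ := integral_add g2 g3
    have e3 : ∫ ω in H', ε ^ 2 * V ∂μ = μ.real H' * (ε ^ 2 * V) := by
      rw [setIntegral_const, smul_eq_mul]
    have e4 : ∫ ω in H', (H \ E).indicator (fun _ => c) ω ∂μ = μ.real (H' ∩ (H \ E)) * c := by
      rw [setIntegral_indicator hHEm, setIntegral_const, smul_eq_mul]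
    rw [e1, e2, e3, e4, integral_const_mul]
  have hd4 := m4_up hC hb hζm hζC hζ0 hnm.le hH'm
  have hd5 : μ.real H' ≤ μ.real H := measureReal_mono hHH
  have hd6 : μ.real (H' ∩ (H \ E)) ≤ ε * μ.real H :=
    (measureReal_mono Set.inter_subset_right).trans hHE
  have hd7 : μ.real H' * (ε ^ 2 * V) ≤ μ.real H * (ε ^ 2 * V) :=
    mul_le_mul_of_nonneg_right hd5 (by positivity)
  have hd8 : (δ / V) * ∫ ω in H', SS b ζ n m ω ^ 4 ∂μ ≤ (σ / 8) * V * μ.real H := by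
    calc (δ / V) * ∫ ω in H', SS b ζ n m ω ^ 4 ∂μ
        ≤ (δ / V) * (4 * C ^ 4 * V ^ 2 * μ.real H') :=
          mul_le_mul_of_nonneg_left hd4 (by positivity)
      _ = (σ / 8) * V * μ.real H' := by
          rw [hδ]
          field_simp
          ring
      _ ≤ (σ / 8) * V * μ.real H := mul_le_mul_of_nonneg_left hd5 (by positivity)
  have hd9 : μ.real (H' ∩ (H \ E)) * c ≤ ε * μ.real H * c :=
    mul_le_mul_of_nonneg_right hd6 hcpos.le
  have hfin : σ * V * ((3 / 4 - 2 * ε) * μ.real H) ≤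
      μ.real H * (ε ^ 2 * V) + ((σ / 8) * V * μ.real H + ε * μ.real H * c) := by
    linarith [hb3, hc2, hd2, hd3, hd7, hd8, hd9]
  have hVh : 0 < V * μ.real H := by positivity
  have hfin2 : (V * μ.real H) * (σ * (3 / 4 - 2 * ε)) ≤
      (V * μ.real H) * (ε ^ 2 + σ / 8 + ε * (1 / δ + 2 * K ^ 2)) := by
    have h1 : (V * μ.real H) * (σ * (3 / 4 - 2 * ε)) = σ * V * ((3 / 4 - 2 * ε) * μ.real H) := by
      ring
    have h2 : (V * μ.real H) * (ε ^ 2 + σ / 8 + ε * (1 / δ + 2 * K ^ 2)) =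
        μ.real H * (ε ^ 2 * V) + ((σ / 8) * V * μ.real H + ε * μ.real H * c) := by
      rw [hc]
      ring
    rw [h1, h2]
    exact hfin
  have hfin3 := le_of_mul_le_mul_left hfin2 hVh
  have h1 : ε ^ 2 ≤ ε := by
    rw [pow_two]
    calc ε * ε ≤ 1 * ε := mul_le_mul_of_nonneg_right (by linarith) hεpos.le
      _ = ε := one_mul ε
  have h2 : ε ^ 2 + σ / 8 + ε * (1 / δ + 2 * K ^ 2) ≤ σ / 4 := by
    have h3 : ε * (1 + 1 / δ + 2 * K ^ 2) = ε + ε * (1 / δ + 2 * K ^ 2) := by ring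
    linarith
  have h3 : σ / 2 ≤ σ * (3 / 4 - 2 * ε) := by
    calc σ / 2 = σ * (1 / 2) := by ring
      _ ≤ σ * (3 / 4 - 2 * ε) := mul_le_mul_of_nonneg_left (by linarith) hσ.le
  linarith

end H483U.N3
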