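import Pool.Agent.H483R3.Urn.Stmts

set_option autoImplicit false

open MeasureTheory ProbabilityTheory Filter Topology

namespace H483U.TaskN4

/-- Lévy: a set `F` of positive measure, measurable for the limit field, is approximated by
events of the past -/
theorem levy {Ω : Type} [mΩ : MeasurableSpace Ω] (μ : Measure Ω) [IsProbabilityMeasure μ]
    (ℱ : Filtration ℕ mΩ) (F : Set Ω) (hF : MeasurableSet[⨆ n, ℱ n] F) (hpos : μ F ≠ 0)
    (ε : ℝ) (hε : 0 < ε) (n1 : ℕ) :
    ∃ n, n1 ≤ n ∧ ∃ H : Set Ω, MeasurableSet[ℱ n] H ∧ 0 < μ.real H ∧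
      μ.real (H \ F) ≤ ε * μ.real H := by
  have hle : (⨆ n, ℱ n) ≤ mΩ := iSup_le (fun n => ℱ.le n)
  have hFm : MeasurableSet F := hle _ hF
  set g : Ω → ℝ := F.indicator (fun _ => (1 : ℝ)) with hg
  have hgi : Integrable g μ := (integrable_const (1 : ℝ)).indicator hFm
  have hlim : ∀ᵐ ω ∂μ, Tendsto (fun n => (μ[g | ℱ n]) ω) atTop (𝓝 (g ω)) := by
    have h1 := MeasureTheory.tendsto_ae_condExp (μ := μ) (ℱ := ℱ) g
    have h2 : μ[g | ⨆ n, ℱ n] = g := by
      apply condExp_of_stronglyMeasurable hle _ hgi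
      exact (stronglyMeasurable_const.indicator hF)
    rw [h2] at h1
    exact h1
  set Hn : ℕ → Set Ω := fun n => {ω | 1 - ε ≤ (μ[g | ℱ n]) ω} with hHn
  have hHm : ∀ n, MeasurableSet[ℱ n] (Hn n) := by
    intro n
    have : Measurable[ℱ n] (μ[g | ℱ n]) := stronglyMeasurable_condExp.measurable
    exact this measurableSet_Ici
  -- measure of Hn \ F
  have hdiff : ∀ n, μ.real (Hn n \ F) ≤ ε * μ.real (Hn n) := by
    intro n
    have hHm' : MeasurableSet (Hn n) := ℱ.le n _ (hHm n)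
    have e1 : ∫ ω in Hn n, g ω ∂μ = μ.real (Hn n ∩ F) := by
      rw [hg, setIntegral_indicator hFm]
      simp [Measure.real]
    have e2 : ∫ ω in Hn n, (μ[g | ℱ n]) ω ∂μ = ∫ ω in Hn n, g ω ∂μ :=
      setIntegral_condExp (ℱ.le n) hgi (hHm n)
    have e3 : (1 - ε) * μ.real (Hn n) ≤ ∫ ω in Hn n, (μ[g | ℱ n]) ω ∂μ := by
      have : ∫ ω in Hn n, (1 - ε) ∂μ ≤ ∫ ω in Hn n, (μ[g | ℱ n]) ω ∂μ := by
        apply setIntegral_mono_on (integrable_const _).integrableOn integrable_condExp.integrableOn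
          hHm'
        intro ω hω
        exact hω
      simpa [mul_comm] using this
    have e4 : μ.real (Hn n \ F) = μ.real (Hn n) - μ.real (Hn n ∩ F) := by
      have := measureReal_inter_add_sdiff (μ := μ) (s := Hn n) (t := F) hFm
      linarith
    rw [e4]
    rw [e2, e1] at e3
    linarith
  -- positive measure for large n
  have hsub : ∀ᵐ ω ∂μ, ω ∈ F → ω ∈ ⋃ N, ⋂ n, ⋂ (_ : N ≤ n), Hn n := by
    filter_upwards [hlim] with ω hω hωF
    have hg1 : g ω = 1 := by simp [hg, hωF]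
    rw [hg1] at hω
    have h1 : ∀ᶠ n in atTop, 1 - ε < (μ[g | ℱ n]) ω := hω.eventually (lt_mem_nhds (by linarith))
    obtain ⟨N, hN⟩ := eventually_atTop.1 h1
    simp only [Set.mem_iUnion, Set.mem_iInter]
    exact ⟨N, fun n hn => (hN n hn).le⟩
  have hpos2 : ∃ N, μ (⋂ n, ⋂ (_ : N ≤ n), Hn n) ≠ 0 := by
    by_contra hcon
    push Not at hcon
    have h0 : μ (⋃ N, ⋂ n, ⋂ (_ : N ≤ n), Hn n) = 0 := measure_iUnion_null hcon
    apply hpos
    have h1 : ∀ᵐ ω ∂μ, ω ∉ ⋃ N, ⋂ n, ⋂ (_ : N ≤ n), Hn n :=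
      measure_eq_zero_iff_ae_notMem.1 h0
    have h2 : ∀ᵐ ω ∂μ, ω ∉ F := by
      filter_upwards [hsub, h1] with ω ha hb hF
      exact hb (ha hF)
    exact measure_eq_zero_iff_ae_notMem.2 h2
  obtain ⟨N, hN⟩ := hpos2
  refine ⟨max N n1, le_max_right _ _, Hn (max N n1), hHm _, ?_, hdiff _⟩
  have h1 : μ (Hn (max N n1)) ≠ 0 := by
    intro h0
    apply hN
    apply measure_mono_null _ h0
    intro ω hω
    simp only [Set.mem_iInter] at hω
    exact hω _ (le_max_left _ _)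
  exact (ENNReal.toReal_pos h1 (measure_ne_top _ _))

theorem t : H483U.TaskN4 := by
  intro hN3 C σ hC hσ Ω mΩ μ hμ ℱ ζ b D Z E hb hζm hζb hζ0 hvar hD hZ hE h
  obtain ⟨ε, hε, hN⟩ := hN3 C σ hC hσ
  by_contra hne
  have hle : (⨆ n, ℱ n) ≤ mΩ := iSup_le (fun n => ℱ.le n)
  have hlen : ∀ n, (ℱ n : MeasurableSpace Ω) ≤ ⨆ n, ℱ n := fun n => le_iSup (fun n => (ℱ n : MeasurableSpace Ω)) n
  set bnd : ℕ → ℕ → Set Ω := fun n m =>
    {ω | |Z n ω + SS b ζ n m ω| ≤ ε * Real.sqrt (∑ k ∈ Finset.Ico n m, b k ^ 2)} with hbnd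
  have hbm : ∀ n m, MeasurableSet[⨆ n, ℱ n] (bnd n m) := by
    intro n m
    have h1 : Measurable[⨆ n, ℱ n] (Z n) := (hZ n).mono (hlen n) le_rfl
    have h2 : Measurable[⨆ n, ℱ n] (SS b ζ n m) := by
      unfold SS
      apply Finset.measurable_sum
      intro k _
      exact ((hζm k).mono (hlen (k + 1)) le_rfl).const_mul _
    have h3 : Measurable[⨆ n, ℱ n] (fun ω => Z n ω + SS b ζ n m ω) := h1.add h2
    have h4 : Measurable[⨆ n, ℱ n] (fun ω => |Z n ω + SS b ζ n m ω|) := by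
      exact measurable_abs.comp h3
    exact h4 measurableSet_Iic
  set En : ℕ → Set Ω := fun n1 => E ∩ (⋂ k, ⋂ (_ : n1 ≤ k), D k) ∩
    (⋂ n, ⋂ (_ : n1 ≤ n), ⋃ m0, ⋂ m, ⋂ (_ : m0 ≤ m), bnd n m) with hEn
  have hEnm : ∀ n1, MeasurableSet[⨆ n, ℱ n] (En n1) := by
    intro n1
    refine (hE.inter ?_).inter ?_
    · exact MeasurableSet.iInter fun k => MeasurableSet.iInter fun _ => hlen k _ (hD k)
    · exact MeasurableSet.iInter fun n => MeasurableSet.iInter fun _ =>
        MeasurableSet.iUnion fun m0 => MeasurableSet.iInter fun m => MeasurableSet.iInter fun _ =>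
          hbm n m
  -- some En has positive measure
  have hposE : ∃ n1, μ (En n1) ≠ 0 := by
    by_contra hcon
    push Not at hcon
    apply hne
    have h0 : μ (⋃ n1, En n1) = 0 := measure_iUnion_null hcon
    have h1 : ∀ᵐ ω ∂μ, ω ∉ ⋃ n1, En n1 := measure_eq_zero_iff_ae_notMem.1 h0
    have h2 : ∀ᵐ ω ∂μ, ω ∉ E := by
      filter_upwards [h, h1] with ω ha hb' hωE
      obtain ⟨h3, h4⟩ := ha hωE
      obtain ⟨N1, hN1⟩ := eventually_atTop.1 h3
      obtain ⟨N2, hN2⟩ := eventually_atTop.1 (h4 ε hε)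
      apply hb'
      simp only [Set.mem_iUnion]
      refine ⟨max N1 N2, ⟨hωE, ?_⟩, ?_⟩
      · simp only [Set.mem_iInter]
        intro k hk
        exact hN1 k (le_trans (le_max_left _ _) hk)
      · simp only [Set.mem_iInter, Set.mem_iUnion]
        intro n hn
        obtain ⟨m0, hm0⟩ := eventually_atTop.1 (hN2 n (le_trans (le_max_right _ _) hn))
        exact ⟨m0, fun m hm => hm0 m hm⟩
    exact measure_eq_zero_iff_ae_notMem.2 h2
  obtain ⟨n1, hn1⟩ := hposE
  obtain ⟨n, hn, H, hHm, hHpos, hHd⟩ := levy μ ℱ (En n1) (hEnm n1) hn1 (ε / 2) (by positivity) n1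
  have hHm' : MeasurableSet H := ℱ.le n _ hHm
  have hEm' : MeasurableSet (En n1) := hle _ (hEnm n1)
  -- choice of m0
  set Fm : ℕ → Set Ω := fun m0 => (En n1 ∩ H) ∩ ⋂ m, ⋂ (_ : m0 ≤ m), bnd n m with hFm
  have hFmm : ∀ m0, MeasurableSet (Fm m0) := by
    intro m0
    exact (hEm'.inter hHm').inter (MeasurableSet.iInter fun m => MeasurableSet.iInter fun _ =>
      hle _ (hbm n m))
  have hmono : Monotone Fm := by
    intro a c hac ω hω
    refine ⟨hω.1, ?_⟩
    have h2 := hω.2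
    simp only [Set.mem_iInter] at h2 ⊢
    intro m hm
    exact h2 m (le_trans hac hm)
  have hunion : ⋃ m0, Fm m0 = En n1 ∩ H := by
    apply Set.Subset.antisymm
    · intro ω hω
      simp only [Set.mem_iUnion] at hω
      obtain ⟨m0, hm0⟩ := hω
      exact hm0.1
    · intro ω hω
      have h2 := hω.1.2
      simp only [Set.mem_iInter, Set.mem_iUnion] at h2
      obtain ⟨m0, hm0⟩ := h2 n hn
      simp only [Set.mem_iUnion]
      refine ⟨m0, hω, ?_⟩
      simp only [Set.mem_iInter]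
      exact hm0
  have htend : Tendsto (fun m0 => μ.real (Fm m0)) atTop (𝓝 (μ.real (En n1 ∩ H))) := by
    have h1 := tendsto_measure_iUnion_atTop (μ := μ) hmono
    rw [hunion] at h1
    exact (ENNReal.tendsto_toReal (measure_ne_top _ _)).comp h1
  have hev : ∀ᶠ m0 in atTop, μ.real (En n1 ∩ H) - ε / 2 * μ.real H < μ.real (Fm m0) :=
    htend.eventually (lt_mem_nhds (by nlinarith [mul_pos (half_pos hε) hHpos]))
  obtain ⟨m1, hm1⟩ := eventually_atTop.1 hev
  set m := max m1 (n + 1) with hm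
  have hmn : n < m := lt_of_lt_of_le (Nat.lt_succ_self n) (le_max_right _ _)
  have hfin : μ.real H = 0 := by
    refine hN Ω mΩ μ hμ ℱ ζ b D n m (Z n) H (Fm m) hmn hb hζm hζb hζ0 hvar hD hHm (hZ n)
      (hFmm m) (fun ω hω => hω.1.2) ?_ ?_ ?_
    · have e1 : μ.real (H \ Fm m) = μ.real H - μ.real (Fm m) := by
        have hsub : Fm m ⊆ H := fun ω hω => hω.1.2
        rw [measureReal_sdiff hsub (hFmm m)]
      have e2 : μ.real (H \ En n1) = μ.real H - μ.real (En n1 ∩ H) := by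
        have := measureReal_inter_add_sdiff (μ := μ) (s := H) (t := En n1) hEm'
        rw [Set.inter_comm] at this
        linarith
      have e3 := hm1 m (le_max_left _ _)
      rw [e1]
      rw [e2] at hHd
      linarith
    · intro k hk ω hω
      have h2 := hω.1.1.1.2
      simp only [Set.mem_iInter] at h2
      exact h2 k (le_trans hn hk)
    · intro ω hω
      have h2 := hω.2
      simp only [Set.mem_iInter] at h2
      exact h2 m le_rfl
  linarith

end H483U.TaskN4
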