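import Pool.Agent.H483R3.Urn.Stmts

set_option autoImplicit false

open MeasureTheory ProbabilityTheory Filter Topology

namespace H483U.N5

open H483U

variable {c0 lam : ℝ}

lemma Pi_succ (n : ℕ) : Pi c0 lam (n + 1) = Pi c0 lam n * (1 + 1 / (n + c0) * lam) := by
  unfold Pi
  rw [Finset.prod_range_succ]

lemma kc_pos (h0 : 0 < c0) (n : ℕ) : 0 < (n : ℝ) + c0 := by positivity

lemma Pi_pos (h0 : 0 < c0) (h1 : 1 ≤ lam) (n : ℕ) : 0 < Pi c0 lam n := by
  unfold Pi
  apply Finset.prod_pos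
  intro k _
  have := kc_pos h0 k
  have h2 : 0 < lam := by linarith
  positivity

lemma Pi_ge (h0 : 0 < c0) (h1 : 1 ≤ lam) (n : ℕ) : ((n : ℝ) + c0) / c0 ≤ Pi c0 lam n := by
  induction n with
  | zero => simp [Pi, h0.ne']
  | succ n ih =>
    rw [Pi_succ]
    have hk := kc_pos h0 n
    have e : (((n + 1 : ℕ) : ℝ) + c0) / c0 = ((n : ℝ) + c0) / c0 * (1 + 1 / (n + c0)) := by
      push_cast
      field_simp
      ring
    rw [e]
    have h2 : 1 + 1 / ((n : ℝ) + c0) ≤ 1 + 1 / ((n : ℝ) + c0) * lam := by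
      have : 0 < 1 / ((n : ℝ) + c0) := by positivity
      nlinarith
    exact mul_le_mul ih h2 (by positivity) (Pi_pos h0 h1 n).le

lemma bb_eq (h0 : 0 < c0) (h1 : 1 ≤ lam) (n : ℕ) :
    bb c0 lam n = 1 / (Pi c0 lam n * (n + c0 + lam)) := by
  unfold bb
  rw [Pi_succ]
  have hk := kc_pos h0 n
  have hp := Pi_pos h0 h1 n
  have hl : 0 < (n : ℝ) + c0 + lam := by linarith
  have e : (1 + 1 / ((n : ℝ) + c0) * lam) = (n + c0 + lam) / (n + c0) := by
    field_simp
  rw [e]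
  field_simp

lemma bb_pos (h0 : 0 < c0) (h1 : 1 ≤ lam) (n : ℕ) : 0 < bb c0 lam n := by
  rw [bb_eq h0 h1]
  have hk := kc_pos h0 n
  have hp := Pi_pos h0 h1 n
  have hl : 0 < (n : ℝ) + c0 + lam := by linarith
  positivity

lemma bb_tel (h0 : 0 < c0) (h1 : 1 ≤ lam) (n : ℕ) :
    lam * bb c0 lam n = 1 / Pi c0 lam n - 1 / Pi c0 lam (n + 1) := by
  rw [bb_eq h0 h1, Pi_succ]
  have hk := kc_pos h0 n
  have hp := Pi_pos h0 h1 n
  have hl : 0 < (n : ℝ) + c0 + lam := by linarith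
  have e : (1 + 1 / ((n : ℝ) + c0) * lam) = (n + c0 + lam) / (n + c0) := by
    field_simp
  rw [e]
  field_simp
  ring

lemma sum_bb (h0 : 0 < c0) (h1 : 1 ≤ lam) (n m : ℕ) (h : n ≤ m) :
    ∑ k ∈ Finset.Ico n m, bb c0 lam k ≤ 1 / Pi c0 lam n := by
  have key : lam * ∑ k ∈ Finset.Ico n m, bb c0 lam k = 1 / Pi c0 lam n - 1 / Pi c0 lam m := by
    induction m, h using Nat.le_induction with
    | base => simp
    | succ m hm ih =>
      rw [Finset.sum_Ico_succ_top hm, mul_add, ih, bb_tel h0 h1]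
      ring
  have hpm : 0 < 1 / Pi c0 lam m := by
    have := Pi_pos h0 h1 m
    positivity
  have hs : 0 ≤ ∑ k ∈ Finset.Ico n m, bb c0 lam k :=
    Finset.sum_nonneg fun k _ => (bb_pos h0 h1 k).le
  nlinarith

lemma Pi_ratio (h0 : 0 < c0) (h1 : 1 ≤ lam) (n j : ℕ) :
    Pi c0 lam (n + j) ≤ Pi c0 lam n * Real.exp (lam * (j / (n + c0))) := by
  induction j with
  | zero => simp
  | succ j ih =>
    have hk := kc_pos h0 n
    have e : n + (j + 1) = (n + j) + 1 := by ring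
    rw [e, Pi_succ]
    have h2 : 1 + 1 / (((n + j : ℕ) : ℝ) + c0) * lam ≤ Real.exp (lam * (1 / (n + c0))) := by
      have h3 : 1 / (((n + j : ℕ) : ℝ) + c0) ≤ 1 / ((n : ℝ) + c0) := by
        apply one_div_le_one_div_of_le hk
        push_cast
        have : (0:ℝ) ≤ j := by positivity
        linarith
      have h4 : 1 / (((n + j : ℕ) : ℝ) + c0) * lam ≤ lam * (1 / ((n : ℝ) + c0)) := by
        rw [mul_comm]
        apply mul_le_mul_of_nonneg_left h3 (by linarith)
      have h5 := Real.add_one_le_exp (lam * (1 / ((n : ℝ) + c0)))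
      linarith
    have e2 : lam * (((j + 1 : ℕ) : ℝ) / (n + c0)) = lam * (j / (n + c0)) + lam * (1 / (n + c0)) := by
      push_cast
      ring
    rw [e2, Real.exp_add, ← mul_assoc]
    have h6 : 0 ≤ 1 + 1 / (((n + j : ℕ) : ℝ) + c0) * lam := by
      have := kc_pos h0 (n + j)
      have h2 : 0 < lam := by linarith
      positivity
    exact mul_le_mul ih h2 h6 (by have := Pi_pos h0 h1 n; positivity)

lemma bb_ge (h0 : 0 < c0) (h1 : 1 ≤ lam) (n j : ℕ) (hj : j ≤ n) :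
    Real.exp (-lam) / 2 * bb c0 lam n ≤ bb c0 lam (n + j) := by
  rw [bb_eq h0 h1, bb_eq h0 h1]
  have hk := kc_pos h0 n
  have hp := Pi_pos h0 h1 n
  have hp2 := Pi_pos h0 h1 (n + j)
  have hl : 0 < (n : ℝ) + c0 + lam := by linarith
  have hjn : (j : ℝ) ≤ n := by exact_mod_cast hj
  have hj0 : (0 : ℝ) ≤ j := by positivity
  have hr : Pi c0 lam (n + j) ≤ Pi c0 lam n * Real.exp lam := by
    refine (Pi_ratio h0 h1 n j).trans ?_
    apply mul_le_mul_of_nonneg_left _ hp.le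
    apply Real.exp_le_exp.mpr
    have : (j : ℝ) / (n + c0) ≤ 1 := by
      rw [div_le_one hk]; linarith
    nlinarith
  have hl2 : ((n + j : ℕ) : ℝ) + c0 + lam ≤ 2 * (n + c0 + lam) := by
    push_cast; linarith
  have hl3 : 0 < ((n + j : ℕ) : ℝ) + c0 + lam := by push_cast; linarith
  have hprod : Pi c0 lam (n + j) * (((n + j : ℕ) : ℝ) + c0 + lam) ≤
      Pi c0 lam n * Real.exp lam * (2 * (n + c0 + lam)) :=
    mul_le_mul hr hl2 hl3.le (by positivity)
  have e : Real.exp (-lam) / 2 * (1 / (Pi c0 lam n * (n + c0 + lam))) =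
      1 / (Pi c0 lam n * Real.exp lam * (2 * (n + c0 + lam))) := by
    rw [Real.exp_neg]
    field_simp
  rw [e]
  exact one_div_le_one_div_of_le (by positivity) hprod

theorem t : TaskN5 := by
  intro c0 lam h0 h1
  constructor
  · apply tendsto_atTop_mono (Pi_ge h0 h1)
    apply Tendsto.atTop_div_const h0
    exact tendsto_atTop_add_const_right _ _ tendsto_natCast_atTop_atTop
  · intro δ hδ
    set c : ℝ := Real.exp (-lam) / 2 with hc
    have hc0 : 0 < c := by positivity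
    have hev : ∀ᶠ n : ℕ in atTop, (1 + c0 + lam) / (δ * c) ≤ (n : ℝ) ^ (1 / 4 : ℝ) :=
      ((tendsto_rpow_atTop (by norm_num : (0:ℝ) < 1 / 4)).comp
        tendsto_natCast_atTop_atTop).eventually_ge_atTop _
    filter_upwards [hev, eventually_ge_atTop 1] with n hn hn1
    filter_upwards [eventually_ge_atTop (2 * n)] with m hm
    have hn0 : (1:ℝ) ≤ n := by exact_mod_cast hn1
    have hnpos : (0:ℝ) < n := by linarith
    have hnm : n ≤ m := by omega
    have hb := bb_pos h0 h1 n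
    have hp := Pi_pos h0 h1 n
    have hl : 0 < (n : ℝ) + c0 + lam := by linarith
    -- left side
    have hL : ∑ k ∈ Finset.Ico n m, bb c0 lam k * ((k : ℝ) + 1) ^ (-(3 / 4) : ℝ) ≤
        (n : ℝ) ^ (-(3 / 4) : ℝ) * ((n + c0 + lam) * bb c0 lam n) := by
      have h2 : ∑ k ∈ Finset.Ico n m, bb c0 lam k * ((k : ℝ) + 1) ^ (-(3 / 4) : ℝ) ≤
          ∑ k ∈ Finset.Ico n m, bb c0 lam k * (n : ℝ) ^ (-(3 / 4) : ℝ) := by
        apply Finset.sum_le_sum
        intro k hk
        have hkn : (n : ℝ) ≤ k := by exact_mod_cast (Finset.mem_Ico.mp hk).1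
        apply mul_le_mul_of_nonneg_left _ (bb_pos h0 h1 k).le
        apply Real.rpow_le_rpow_of_nonpos hnpos (by linarith) (by norm_num)
      refine h2.trans ?_
      rw [← Finset.sum_mul, mul_comm]
      apply mul_le_mul_of_nonneg_left _ (by positivity)
      refine (sum_bb h0 h1 n m hnm).trans ?_
      rw [bb_eq h0 h1]
      apply le_of_eq
      field_simp
    -- right side
    have hR : c * Real.sqrt n * bb c0 lam n ≤
        Real.sqrt (∑ k ∈ Finset.Ico n m, bb c0 lam k ^ 2) := by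
      apply Real.le_sqrt_of_sq_le
      have h2 : ∑ k ∈ Finset.Ico n (2 * n), bb c0 lam k ^ 2 ≤
          ∑ k ∈ Finset.Ico n m, bb c0 lam k ^ 2 := by
        apply Finset.sum_le_sum_of_subset_of_nonneg
        · exact Finset.Ico_subset_Ico le_rfl hm
        · intro k _ _; positivity
      refine le_trans ?_ h2
      have h3 : ∀ k ∈ Finset.Ico n (2 * n), (c * bb c0 lam n) ^ 2 ≤ bb c0 lam k ^ 2 := by
        intro k hk
        rw [Finset.mem_Ico] at hk
        have h4 := bb_ge h0 h1 n (k - n) (by omega)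
        have e : n + (k - n) = k := by omega
        rw [e] at h4
        exact pow_le_pow_left₀ (by positivity) h4 2
      have h5 := Finset.card_nsmul_le_sum _ _ _ h3
      rw [Nat.card_Ico] at h5
      have e : 2 * n - n = n := by omega
      rw [e, nsmul_eq_mul] at h5
      refine le_trans (le_of_eq ?_) h5
      have hs := Real.sq_sqrt hnpos.le
      calc (c * Real.sqrt n * bb c0 lam n) ^ 2 = (Real.sqrt n) ^ 2 * (c * bb c0 lam n) ^ 2 := by ring
        _ = n * (c * bb c0 lam n) ^ 2 := by rw [hs]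
    refine hL.trans (le_trans ?_ (mul_le_mul_of_nonneg_left hR hδ.le))
    have h6 : (n : ℝ) ^ (-(3 / 4) : ℝ) * (n + c0 + lam) ≤ δ * (c * Real.sqrt n) := by
      have h7 : (n : ℝ) + c0 + lam ≤ (1 + c0 + lam) * n := by nlinarith
      have h8 : (n : ℝ) ^ (-(3 / 4) : ℝ) * n = (n : ℝ) ^ (1 / 4 : ℝ) := by
        nth_rewrite 2 [← Real.rpow_one (n : ℝ)]
        rw [← Real.rpow_add hnpos]
        norm_num
      have h9 : Real.sqrt n = (n : ℝ) ^ (1 / 4 : ℝ) * (n : ℝ) ^ (1 / 4 : ℝ) := by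
        rw [Real.sqrt_eq_rpow, ← Real.rpow_add hnpos]
        norm_num
      have h10 : (1 + c0 + lam) ≤ (n : ℝ) ^ (1 / 4 : ℝ) * (δ * c) := by
        rwa [div_le_iff₀ (by positivity)] at hn
      have h11 : 0 < (n : ℝ) ^ (1 / 4 : ℝ) := by positivity
      calc (n : ℝ) ^ (-(3 / 4) : ℝ) * (n + c0 + lam)
          ≤ (n : ℝ) ^ (-(3 / 4) : ℝ) * ((1 + c0 + lam) * n) := by gcongr
        _ = (1 + c0 + lam) * ((n : ℝ) ^ (-(3 / 4) : ℝ) * n) := by ring
        _ = (1 + c0 + lam) * (n : ℝ) ^ (1 / 4 : ℝ) := by rw [h8]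
        _ ≤ (n : ℝ) ^ (1 / 4 : ℝ) * (δ * c) * (n : ℝ) ^ (1 / 4 : ℝ) := by gcongr
        _ = δ * (c * Real.sqrt n) := by rw [h9]; ring
    calc (n : ℝ) ^ (-(3 / 4) : ℝ) * ((n + c0 + lam) * bb c0 lam n)
        = ((n : ℝ) ^ (-(3 / 4) : ℝ) * (n + c0 + lam)) * bb c0 lam n := by ring
      _ ≤ (δ * (c * Real.sqrt n)) * bb c0 lam n := by gcongr
      _ = δ * (c * Real.sqrt n * bb c0 lam n) := by ring

end H483U.N5
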