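import Mathlib
import Pool.Agent.H483R3.Urn.Stmts

set_option autoImplicit false

namespace H483U.TaskN6

open MeasureTheory ProbabilityTheory Filter Topology H483U

lemma Pi_pos {c0 lam : ℝ} (hc : 0 < c0) (hl : 1 ≤ lam) (n : ℕ) : 0 < Pi c0 lam n := by
  unfold Pi
  refine Finset.prod_pos fun k _ => ?_
  have : 0 < (k : ℝ) + c0 := by positivity
  have : 0 ≤ 1 / ((k : ℝ) + c0) * lam := by positivity
  linarith

lemma bb_pos {c0 lam : ℝ} (hc : 0 < c0) (hl : 1 ≤ lam) (n : ℕ) : 0 < bb c0 lam n := by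
  unfold bb
  have := Pi_pos hc hl (n + 1)
  have : 0 < (n : ℝ) + c0 := by positivity
  positivity

lemma Pi_succ (c0 lam : ℝ) (n : ℕ) :
    Pi c0 lam (n + 1) = Pi c0 lam n * (1 + 1 / (n + c0) * lam) := by
  unfold Pi
  rw [Finset.prod_range_succ]

/-- recursion of the rescaled coordinate -/
lemma rec_Z {c0 lam : ℝ} (hc : 0 < c0) (hl : 1 ≤ lam) (y R z : ℕ → ℝ)
    (hy : ∀ n : ℕ, y (n + 1) = y n + 1 / (n + c0) * (lam * y n + R n + z n)) (n m : ℕ) (hnm : n ≤ m) :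
    y m / Pi c0 lam m = y n / Pi c0 lam n + ∑ k ∈ Finset.Ico n m, bb c0 lam k * z k
      + ∑ k ∈ Finset.Ico n m, bb c0 lam k * R k := by
  induction m, hnm using Nat.le_induction with
  | base => simp
  | succ m hnm ih =>
    rw [Finset.sum_Ico_succ_top hnm, Finset.sum_Ico_succ_top hnm]
    have h1 := Pi_pos hc hl m
    have h2 := Pi_pos hc hl (m + 1)
    have h3 : 0 < (m : ℝ) + c0 := by positivity
    have key : y (m + 1) / Pi c0 lam (m + 1) = y m / Pi c0 lam m + bb c0 lam m * z m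
        + bb c0 lam m * R m := by
      rw [hy]
      unfold bb
      have h4 : y m / Pi c0 lam m = y m * (1 + 1 / (m + c0) * lam) / Pi c0 lam (m + 1) := by
        rw [Pi_succ]
        have h5 : 0 < (1 + 1 / ((m : ℝ) + c0) * lam) := by
          have : 0 ≤ 1 / ((m : ℝ) + c0) * lam := by positivity
          linarith
        field_simp
      rw [h4]
      field_simp
      ring
    rw [key, ih]
    ring

/-- deterministic core -/
lemma det (hN1 : TaskN1) (hN5 : TaskN5) {V : Type} [Fintype V] [DecidableEq V] (lam : V → ℝ)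
    (l₀ : V) (hlam : ∀ l, lam l ≤ -(1 / 2) ∨ 1 ≤ lam l) (hl0 : 1 ≤ lam l₀) (c0 C ρ : ℝ)
    (hc : 0 < c0) (hC : 0 < C) (hρ : 0 < ρ) (y z R : ℕ → V → ℝ)
    (hy : ∀ (n : ℕ) l, y (n + 1) l = y n l + 1 / (n + c0) * (lam l * y n l + R n l + z n l))
    (hR : ∀ n l, ‖y n‖ ≤ ρ → |R n l| ≤ C * ‖y n‖ ^ 2)
    (hT : ∀ l, ∃ T : ℕ → ℝ, (∀ n : ℕ, T n = T (n + 1) + 1 / (n + c0) * z n l) ∧
      ∃ C' : ℝ, ∀ n : ℕ, |T n| ≤ C' * ((n : ℝ) + 1) ^ (-(3 / 8) : ℝ))
    (hlim : Tendsto y atTop (𝓝 0)) :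
    ∀ δ : ℝ, 0 < δ → ∀ᶠ n in atTop, ∀ᶠ m in atTop,
        |y n l₀ / Pi c0 (lam l₀) n + ∑ k ∈ Finset.Ico n m, bb c0 (lam l₀) k * z k l₀|
          ≤ δ * Real.sqrt (∑ k ∈ Finset.Ico n m, bb c0 (lam l₀) k ^ 2) := by
  classical
  have : Nonempty V := ⟨l₀⟩
  choose T hT1 C' hT2 using hT
  -- constants
  set B : ℝ := ∑ l, |C' l| with hB
  have hB0 : 0 ≤ B := Finset.sum_nonneg fun l _ => abs_nonneg _
  set Λ : ℝ := ∑ l, |lam l| with hΛ
  have hΛ0 : 0 ≤ Λ := Finset.sum_nonneg fun l _ => abs_nonneg _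
  have hpw : ∀ n : ℕ, 0 < ((n : ℝ) + 1) ^ (-(3 / 8) : ℝ) := fun n => by positivity
  have hTB : ∀ n l, |T l n| ≤ B * ((n : ℝ) + 1) ^ (-(3 / 8) : ℝ) := by
    intro n l
    refine (hT2 l n).trans ?_
    refine mul_le_mul_of_nonneg_right ?_ (hpw n).le
    exact (le_abs_self _).trans (Finset.single_le_sum (f := fun l => |C' l|)
      (fun i _ => abs_nonneg _) (Finset.mem_univ l))
  have hlamB : ∀ l, |lam l| ≤ Λ := fun l => Finset.single_le_sum (f := fun l => |lam l|)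
      (fun i _ => abs_nonneg _) (Finset.mem_univ l)
  -- the corrected sequence
  set u : ℕ → V → ℝ := fun n l => y n l + T l n with hu
  set e : ℕ → V → ℝ := fun n l => R n l - lam l * T l n with he
  have hrec : ∀ (n : ℕ) l, u (n + 1) l = u n l + 1 / (n + c0) * (lam l * u n l + e n l) := by
    intro n l
    simp only [hu, he]
    rw [hy]
    have := hT1 l n
    have h2 : T l (n + 1) = T l n - 1 / (n + c0) * z n l := by linarith
    rw [h2]
    ring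
  have hpw0 : Tendsto (fun n : ℕ => ((n : ℝ) + 1) ^ (-(3 / 8) : ℝ)) atTop (𝓝 0) := by
    have h1 : Tendsto (fun n : ℕ => (n : ℝ) + 1) atTop atTop :=
      tendsto_atTop_add_const_right _ _ tendsto_natCast_atTop_atTop
    exact (tendsto_rpow_neg_atTop (by norm_num : (0 : ℝ) < 3 / 8)).comp h1
  have hTnorm : ∀ n, ‖(fun l => T l n : V → ℝ)‖ ≤ B * ((n : ℝ) + 1) ^ (-(3 / 8) : ℝ) := by
    intro n
    rw [pi_norm_le_iff_of_nonneg (mul_nonneg hB0 (hpw n).le)]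
    intro l
    rw [Real.norm_eq_abs]
    exact hTB n l
  have hynorm : ∀ n, ‖y n‖ ≤ ‖u n‖ + B * ((n : ℝ) + 1) ^ (-(3 / 8) : ℝ) := by
    intro n
    have h1 : y n = u n - (fun l => T l n) := by
      funext l
      simp [hu]
    calc ‖y n‖ = ‖u n - (fun l => T l n)‖ := by rw [← h1]
      _ ≤ ‖u n‖ + ‖(fun l => T l n : V → ℝ)‖ := norm_sub_le _ _
      _ ≤ _ := by linarith [hTnorm n]
  have hy0 : Tendsto (fun n => ‖y n‖) atTop (𝓝 0) := by
    have := hlim.norm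
    simpa using this
  have hulim : Tendsto u atTop (𝓝 0) := by
    rw [tendsto_zero_iff_norm_tendsto_zero]
    refine squeeze_zero (fun n => norm_nonneg _)
      (g := fun n : ℕ => ‖y n‖ + B * ((n : ℝ) + 1) ^ (-(3 / 8) : ℝ)) ?_ ?_
    · intro n
      have h1 : u n = y n + (fun l => T l n) := by
        funext l
        simp [hu]
      calc ‖u n‖ = ‖y n + (fun l => T l n)‖ := by rw [← h1]
        _ ≤ ‖y n‖ + ‖(fun l => T l n : V → ℝ)‖ := norm_add_le _ _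
        _ ≤ _ := by linarith [hTnorm n]
    · have := hy0.add (hpw0.const_mul B)
      simpa using this
  -- smallness
  have hev1 : ∀ᶠ n in atTop, ‖y n‖ ≤ ρ := by
    filter_upwards [hy0.eventually (gt_mem_nhds hρ)] with n hn using hn.le
  have hev2 : ∀ᶠ n in atTop, ‖y n‖ ≤ 1 / (32 * C) := by
    have : (0 : ℝ) < 1 / (32 * C) := by positivity
    filter_upwards [hy0.eventually (gt_mem_nhds this)] with n hn using hn.le
  have hebound : ∀ᶠ n : ℕ in atTop, ∀ l, |e n l| ≤ 1 / 32 * ‖u n‖ +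
      ((1 / 32 + Λ) * B) * ((n : ℝ) + 1) ^ (-(3 / 8) : ℝ) := by
    filter_upwards [hev1, hev2] with n h1 h2 l
    have hp := hpw n
    have hy' := hynorm n
    have hn0 := norm_nonneg (y n)
    have hR' : |R n l| ≤ 1 / 32 * ‖y n‖ := by
      refine (hR n l h1).trans ?_
      have h3 : C * ‖y n‖ ≤ 1 / 32 := by
        calc C * ‖y n‖ ≤ C * (1 / (32 * C)) := mul_le_mul_of_nonneg_left h2 hC.le
          _ = 1 / 32 := by field_simp
      calc C * ‖y n‖ ^ 2 = (C * ‖y n‖) * ‖y n‖ := by ring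
        _ ≤ 1 / 32 * ‖y n‖ := mul_le_mul_of_nonneg_right h3 hn0
    have hT' : |lam l * T l n| ≤ Λ * (B * ((n : ℝ) + 1) ^ (-(3 / 8) : ℝ)) := by
      rw [abs_mul]
      exact mul_le_mul (hlamB l) (hTB n l) (abs_nonneg _) hΛ0
    calc |e n l| ≤ |R n l| + |lam l * T l n| := abs_sub _ _
      _ ≤ 1 / 32 * ‖y n‖ + Λ * (B * ((n : ℝ) + 1) ^ (-(3 / 8) : ℝ)) := add_le_add hR' hT'
      _ ≤ _ := by nlinarith
  obtain ⟨C1, hC1⟩ := hN1 V lam hlam c0 ((1 / 32 + Λ) * B) hc (by positivity) u e hrec hebound hulim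
  set C3 : ℝ := |C1| + B with hC3
  have hC30 : 0 ≤ C3 := by positivity
  have hyb : ∀ n, ‖y n‖ ≤ C3 * ((n : ℝ) + 1) ^ (-(3 / 8) : ℝ) := by
    intro n
    have h1 := hynorm n
    have h2 := hC1 n
    have h3 : C1 * ((n : ℝ) + 1) ^ (-(3 / 8) : ℝ) ≤ |C1| * ((n : ℝ) + 1) ^ (-(3 / 8) : ℝ) :=
      mul_le_mul_of_nonneg_right (le_abs_self _) (hpw n).le
    calc ‖y n‖ ≤ _ := h1
      _ ≤ |C1| * ((n : ℝ) + 1) ^ (-(3 / 8) : ℝ) + B * ((n : ℝ) + 1) ^ (-(3 / 8) : ℝ) := by linarith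
      _ = _ := by rw [hC3]; ring
  set C4 : ℝ := C * C3 ^ 2 + 1 with hC4
  have hC40 : 0 < C4 := by positivity
  have hRb : ∀ᶠ n : ℕ in atTop, |R n l₀| ≤ C4 * ((n : ℝ) + 1) ^ (-(3 / 4) : ℝ) := by
    filter_upwards [hev1] with n h1
    have hp := hpw n
    have hsq : (((n : ℝ) + 1) ^ (-(3 / 8) : ℝ)) ^ 2 = ((n : ℝ) + 1) ^ (-(3 / 4) : ℝ) := by
      rw [← Real.rpow_natCast, ← Real.rpow_mul (by positivity)]
      norm_num
    calc |R n l₀| ≤ C * ‖y n‖ ^ 2 := hR n l₀ h1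
      _ ≤ C * (C3 * ((n : ℝ) + 1) ^ (-(3 / 8) : ℝ)) ^ 2 := by
          refine mul_le_mul_of_nonneg_left ?_ hC.le
          exact pow_le_pow_left₀ (norm_nonneg _) (hyb n) 2
      _ = C * C3 ^ 2 * ((n : ℝ) + 1) ^ (-(3 / 4) : ℝ) := by rw [mul_pow, hsq]; ring
      _ ≤ _ := by
          refine mul_le_mul_of_nonneg_right ?_ (by positivity)
          rw [hC4]; linarith
  obtain ⟨n1, hn1⟩ := eventually_atTop.1 hRb
  intro δ hδ
  have hN5' := (hN5 c0 (lam l₀) hc hl0).2 (δ / (2 * C4)) (by positivity)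
  have hPi := (hN5 c0 (lam l₀) hc hl0).1
  have hZ0 : Tendsto (fun m => |y m l₀ / Pi c0 (lam l₀) m|) atTop (𝓝 0) := by
    have h1 : Tendsto (fun m => y m l₀) atTop (𝓝 0) := by
      have := (tendsto_pi_nhds.1 hlim) l₀
      simpa using this
    have h2 := h1.div_atTop hPi
    have := h2.abs
    simpa using this
  filter_upwards [hN5', eventually_ge_atTop n1] with n hn hnn1
  have hbn := bb_pos hc hl0 n
  have hev3 : ∀ᶠ m in atTop, |y m l₀ / Pi c0 (lam l₀) m| < δ / 2 * bb c0 (lam l₀) n :=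
    hZ0.eventually (gt_mem_nhds (by positivity))
  filter_upwards [hn, hev3, eventually_ge_atTop (n + 1)] with m hm1 hm2 hm3
  have hrz := rec_Z hc hl0 (fun n => y n l₀) (fun n => R n l₀) (fun n => z n l₀)
    (fun n => hy n l₀) n m (by omega)
  have heq : y n l₀ / Pi c0 (lam l₀) n + ∑ k ∈ Finset.Ico n m, bb c0 (lam l₀) k * z k l₀
      = y m l₀ / Pi c0 (lam l₀) m - ∑ k ∈ Finset.Ico n m, bb c0 (lam l₀) k * R k l₀ := by
    rw [hrz]; ring
  rw [heq]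
  set S := Real.sqrt (∑ k ∈ Finset.Ico n m, bb c0 (lam l₀) k ^ 2) with hS
  have hSb : bb c0 (lam l₀) n ≤ S := by
    rw [hS]
    apply Real.le_sqrt_of_sq_le
    exact Finset.single_le_sum (f := fun k => bb c0 (lam l₀) k ^ 2)
      (fun i _ => sq_nonneg _) (Finset.mem_Ico.2 ⟨le_refl n, by omega⟩)
  have hsum : |∑ k ∈ Finset.Ico n m, bb c0 (lam l₀) k * R k l₀| ≤ δ / 2 * S := by
    calc |∑ k ∈ Finset.Ico n m, bb c0 (lam l₀) k * R k l₀|
        ≤ ∑ k ∈ Finset.Ico n m, |bb c0 (lam l₀) k * R k l₀| := Finset.abs_sum_le_sum_abs _ _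
      _ ≤ ∑ k ∈ Finset.Ico n m, C4 * (bb c0 (lam l₀) k * ((k : ℝ) + 1) ^ (-(3 / 4) : ℝ)) := by
          refine Finset.sum_le_sum fun k hk => ?_
          have hk' := (Finset.mem_Ico.1 hk).1
          have hb := bb_pos hc hl0 k
          rw [abs_mul, abs_of_pos hb]
          calc bb c0 (lam l₀) k * |R k l₀|
              ≤ bb c0 (lam l₀) k * (C4 * ((k : ℝ) + 1) ^ (-(3 / 4) : ℝ)) :=
                mul_le_mul_of_nonneg_left (hn1 k (by omega)) hb.le
            _ = _ := by ring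
      _ = C4 * ∑ k ∈ Finset.Ico n m, bb c0 (lam l₀) k * ((k : ℝ) + 1) ^ (-(3 / 4) : ℝ) := by
          rw [Finset.mul_sum]
      _ ≤ C4 * (δ / (2 * C4) * S) := mul_le_mul_of_nonneg_left hm1 hC40.le
      _ = δ / 2 * S := by field_simp
  calc |y m l₀ / Pi c0 (lam l₀) m - ∑ k ∈ Finset.Ico n m, bb c0 (lam l₀) k * R k l₀|
      ≤ |y m l₀ / Pi c0 (lam l₀) m| + |∑ k ∈ Finset.Ico n m, bb c0 (lam l₀) k * R k l₀| := abs_sub _ _
    _ ≤ δ / 2 * bb c0 (lam l₀) n + δ / 2 * S := add_le_add hm2.le hsum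
    _ ≤ δ / 2 * S + δ / 2 * S := by
        have : δ / 2 * bb c0 (lam l₀) n ≤ δ / 2 * S := mul_le_mul_of_nonneg_left hSb (by positivity)
        linarith
    _ = δ * S := by ring

theorem t : TaskN6 := by
  intro hN1 hN2 hN3 hN4 hN5 V _ _ lam l₀ hlam hl0 Ω mΩ μ hμ ℱ c0 C ρ σ y ζ R hc hC hρ hσ hy hR hym hζm hζb hζ0 hvar
  have hE0 : μ {ω | Tendsto (fun n => y n ω) atTop (𝓝 0)} = 0 := by
    refine hN4 hN3 C σ hC hσ Ω mΩ μ hμ ℱ (fun n ω => ζ n ω l₀) (bb c0 (lam l₀))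
      (fun k => {ω | ‖y k ω‖ < ρ}) (fun n ω => y n ω l₀ / Pi c0 (lam l₀) n)
      {ω | Tendsto (fun n => y n ω) atTop (𝓝 0)} (bb_pos hc hl0) (fun n => hζm n l₀)
      (fun n ω => hζb n ω l₀) (fun n => hζ0 n l₀) (fun k => hvar k) ?_ ?_ ?_ ?_
    · intro k
      have h1 : Measurable[ℱ k] (fun ω => y k ω) := by
        refine @measurable_pi_lambda Ω V (fun _ => ℝ) (ℱ k) _ _ (fun l => hym k l)
      have h2 : Measurable[ℱ k] (fun ω => ‖y k ω‖) := measurable_norm.comp h1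
      exact h2 measurableSet_Iio
    · intro k
      exact (hym k l₀).div_const _
    · have h1 : ∀ n, Measurable[⨆ n, ℱ n] (fun ω => y n ω) := by
        intro n
        refine @measurable_pi_lambda Ω V (fun _ => ℝ) (⨆ n, ℱ n) _ _ (fun l => ?_)
        exact (hym n l).mono (le_iSup (fun n => (ℱ n : MeasurableSpace Ω)) n) le_rfl
      exact @measurableSet_tendsto _ _ _ (⨆ n, ℱ n) _ _ _ _ _ _ _ _ h1
    · have hT : ∀ᵐ ω ∂μ, ∀ l, ∃ T : ℕ → ℝ, (∀ n : ℕ, T n = T (n + 1) + 1 / (n + c0) * ζ n ω l) ∧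
          ∃ C' : ℝ, ∀ n : ℕ, |T n| ≤ C' * ((n : ℝ) + 1) ^ (-(3 / 8) : ℝ) := by
        rw [ae_all_iff]
        intro l
        exact hN2 Ω mΩ μ hμ ℱ c0 C (fun n ω => ζ n ω l) hc (fun n => hζm n l)
          (fun n ω => hζb n ω l) (fun n => hζ0 n l)
      filter_upwards [hT] with ω hTω hω
      have hω' : Tendsto (fun n => y n ω) atTop (𝓝 0) := hω
      refine ⟨?_, ?_⟩
      · have h1 : Tendsto (fun n => ‖y n ω‖) atTop (𝓝 0) := by
          have := hω'.norm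
          simpa using this
        exact h1.eventually (gt_mem_nhds hρ)
      · exact det hN1 hN5 lam l₀ hlam hl0 c0 C ρ hc hC hρ (fun n => y n ω) (fun n => ζ n ω)
          (fun n => R n ω) (fun n l => hy n ω l) (fun n l => hR n ω l) hTω hω'
  exact measure_eq_zero_iff_ae_notMem.1 hE0

end H483U.TaskN6
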