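import Pool.Agent.H483R3.Urn.Stmts

set_option autoImplicit false

/-!
Task Taylor of the project H483-URN: second order Taylor bound of the mean field.
-/

namespace H483U.TaskTaylor

open Filter Topology

/-- second order Taylor bound for the probability of one edge -/
lemma edge (α a0 b0 : ℝ) (ha : 0 < a0) (hb : 0 < b0) : ∃ C ρ : ℝ, 0 ≤ C ∧ 0 < ρ ∧
    ∀ q : ℝ × ℝ, ‖q - (a0, b0)‖ ≤ ρ →
      |pr α q.1 q.2 - pr α a0 b0 - α * (pr α a0 b0 * pr α b0 a0) *
        ((q.1 - a0) / a0 - (q.2 - b0) / b0)| ≤ C * ‖q - (a0, b0)‖ ^ 2 := by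
  set f : ℝ × ℝ → ℝ := fun q => pr α q.1 q.2 with hfdef
  set p0 : ℝ × ℝ := (a0, b0) with hp0
  have hA : 0 < a0 ^ α := Real.rpow_pos_of_pos ha α
  have hB : 0 < b0 ^ α := Real.rpow_pos_of_pos hb α
  have hf : ContDiffAt ℝ 2 f p0 := by
    have h1 : ContDiffAt ℝ 2 (fun q : ℝ × ℝ => q.1 ^ α) p0 :=
      contDiffAt_fst.rpow_const_of_ne (by exact ha.ne')
    have h2 : ContDiffAt ℝ 2 (fun q : ℝ × ℝ => q.2 ^ α) p0 :=
      contDiffAt_snd.rpow_const_of_ne (by exact hb.ne')
    exact h1.div (h1.add h2) (by positivity)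
  have h1 : ContDiffAt ℝ 1 (fderiv ℝ f) p0 := hf.fderiv_right (by norm_num)
  obtain ⟨K, t, ht, hK⟩ := h1.exists_lipschitzOnWith
  have hev : ∀ᶠ y in 𝓝 p0, DifferentiableAt ℝ f y :=
    (hf.eventually (by simp)).mono (fun y hy => hy.differentiableAt (by norm_num))
  obtain ⟨ρ, hρ, hball⟩ := Metric.nhds_basis_closedBall.mem_iff.1 (Filter.inter_mem ht hev)
  have hval : ∀ u : ℝ × ℝ, fderiv ℝ f p0 u =
      α * (pr α a0 b0 * pr α b0 a0) * (u.1 / a0 - u.2 / b0) := by
    intro u
    have hd : HasFDerivAt f (fderiv ℝ f p0) p0 := (hf.differentiableAt (by norm_num)).hasFDerivAt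
    have hl : HasDerivAt (fun t : ℝ => p0 + t • u) u 0 := by
      have := ((hasDerivAt_id (0 : ℝ)).smul_const u).const_add p0
      simpa using this
    have hd' : HasFDerivAt f (fderiv ℝ f p0) (p0 + (0 : ℝ) • u) := by simpa using hd
    have h3 := hd'.comp_hasDerivAt (0 : ℝ) hl
    have ea : HasDerivAt (fun t : ℝ => a0 + t * u.1) u.1 0 := by
      have := ((hasDerivAt_id (0 : ℝ)).mul_const u.1).const_add a0
      simpa using this
    have eb : HasDerivAt (fun t : ℝ => b0 + t * u.2) u.2 0 := by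
      have := ((hasDerivAt_id (0 : ℝ)).mul_const u.2).const_add b0
      simpa using this
    have fa := ea.rpow_const (p := α) (Or.inl (by simpa using ha.ne'))
    have fb := eb.rpow_const (p := α) (Or.inl (by simpa using hb.ne'))
    have h4 := fa.div (fa.add fb) (by simp; positivity)
    have h5 : (f ∘ fun t : ℝ => p0 + t • u) = (fun t : ℝ => (a0 + t * u.1) ^ α) /
        ((fun t : ℝ => (a0 + t * u.1) ^ α) + fun t : ℝ => (b0 + t * u.2) ^ α) := by
      funext t
      simp [hfdef, pr, hp0]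
    rw [h5] at h3
    have h6 := h3.unique h4
    rw [h6]
    simp only [zero_mul, add_zero, Pi.add_apply, pr]
    rw [Real.rpow_sub_one ha.ne', Real.rpow_sub_one hb.ne']
    field_simp
    ring
  refine ⟨K, ρ, K.2, hρ, fun q hq => ?_⟩
  have hsub : ∀ x ∈ Metric.closedBall p0 ‖q - p0‖, x ∈ Metric.closedBall p0 ρ := fun x hx =>
    Metric.closedBall_subset_closedBall hq hx
  have hmv := Convex.norm_image_sub_le_of_norm_fderiv_le' (𝕜 := ℝ) (f := f)
    (φ := fderiv ℝ f p0) (C := K * ‖q - p0‖) (s := Metric.closedBall p0 ‖q - p0‖)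
    (x := p0) (y := q)
    (fun x hx => (hball (hsub x hx)).2)
    (fun x hx => by
      have h7 := hK.norm_sub_le (hball (hsub x hx)).1
        (hball (Metric.mem_closedBall_self hρ.le)).1
      refine h7.trans ?_
      apply mul_le_mul_of_nonneg_left _ K.2
      rw [← dist_eq_norm]
      exact hx)
    (convex_closedBall _ _) (Metric.mem_closedBall_self (norm_nonneg _))
    (by rw [Metric.mem_closedBall, dist_eq_norm])
  rw [hval, Real.norm_eq_abs] at hmv
  calc _ ≤ K * ‖q - p0‖ * ‖q - p0‖ := hmv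
    _ = K * ‖q - p0‖ ^ 2 := by ring

theorem t : H483U.TaskTaylor := by
  intro V _ _ G _ α p hp
  choose C ρ hC hρ hb using fun i j => edge α (p i) (p j) (hp i) (hp j)
  have hev : ∀ᶠ x in 𝓝 p, ∀ i j, ‖((x i, x j) : ℝ × ℝ) - (p i, p j)‖ ≤ ρ i j := by
    rw [eventually_all]
    intro i
    rw [eventually_all]
    intro j
    have hc : Continuous fun x : V → ℝ => ‖((x i, x j) : ℝ × ℝ) - (p i, p j)‖ := by fun_prop
    have h0 : ‖((p i, p j) : ℝ × ℝ) - (p i, p j)‖ < ρ i j := by simpa using hρ i j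
    exact (hc.continuousAt.eventually_lt_const h0).mono fun x hx => hx.le
  obtain ⟨ε, hε, hball⟩ := Metric.nhds_basis_closedBall.mem_iff.1 hev
  refine ⟨|1 / NN G| * ∑ i, ∑ j, |A G i j| * C i j, ε, hε, fun x hx i => ?_⟩
  have hx' := hball (show x ∈ Metric.closedBall p ε by
    rw [Metric.mem_closedBall, dist_eq_norm]; exact hx)
  set R : V → ℝ := fun j => pr α (x i) (x j) - pr α (p i) (p j) -
    α * (pr α (p i) (p j) * pr α (p j) (p i)) * ((x i - p i) / p i - (x j - p j) / p j) with hR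
  have hRj : ∀ j, |R j| ≤ C i j * ‖x - p‖ ^ 2 := by
    intro j
    have h1 := hb i j (x i, x j) (hx' i j)
    refine h1.trans (mul_le_mul_of_nonneg_left ?_ (hC i j))
    apply pow_le_pow_left₀ (norm_nonneg _)
    rw [Prod.norm_def]
    apply max_le
    · exact norm_le_pi_norm (x - p) i
    · exact norm_le_pi_norm (x - p) j
  have hsum : ∑ j, A G i j * R j = ∑ j, A G i j * pr α (x i) (x j) -
      ∑ j, A G i j * pr α (p i) (p j) -
      α * ∑ j, w G α p i j * ((x i - p i) / p i - (x j - p j) / p j) := by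
    rw [Finset.mul_sum, ← Finset.sum_sub_distrib, ← Finset.sum_sub_distrib]
    apply Finset.sum_congr rfl
    intro j _
    simp only [hR, w]
    ring
  have hid : vf G α x i - vf G α p i -
        (-(x i - p i) + α / NN G * ∑ j, w G α p i j * ((x i - p i) / p i - (x j - p j) / p j)) =
      (1 / NN G) * ∑ j, A G i j * R j := by
    rw [hsum]
    unfold vf
    ring
  rw [hid, abs_mul, mul_assoc]
  apply mul_le_mul_of_nonneg_left _ (abs_nonneg _)
  calc |∑ j, A G i j * R j| ≤ ∑ j, |A G i j * R j| := Finset.abs_sum_le_sum_abs _ _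
    _ ≤ ∑ j, (|A G i j| * C i j) * ‖x - p‖ ^ 2 := by
        apply Finset.sum_le_sum
        intro j _
        rw [abs_mul, mul_assoc]
        exact mul_le_mul_of_nonneg_left (hRj j) (abs_nonneg _)
    _ = (∑ j, |A G i j| * C i j) * ‖x - p‖ ^ 2 := by rw [Finset.sum_mul]
    _ ≤ (∑ i, ∑ j, |A G i j| * C i j) * ‖x - p‖ ^ 2 := by
        apply mul_le_mul_of_nonneg_right _ (by positivity)
        exact Finset.single_le_sum (f := fun i => ∑ j, |A G i j| * C i j)
          (fun i _ => Finset.sum_nonneg fun j _ => mul_nonneg (abs_nonneg _) (hC i j))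
          (Finset.mem_univ i)

end H483U.TaskTaylor
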