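import Pool.Agent.H483R3.Urn.Stmts

set_option autoImplicit false

namespace H483U.UrnA

open MeasureTheory ProbabilityTheory Filter Topology
open scoped BigOperators

section
variable {V Ω : Type} [Fintype V] [DecidableEq V] (G : SimpleGraph V) [DecidableRel G.Adj]
  (B0 : V → ℕ) (c : ℕ → Ω → G.edgeSet → V)

theorem balls_succ (n : ℕ) (ω : Ω) (i : V) : balls G B0 c (n + 1) ω i = balls G B0 c n ω i +
      (Finset.univ.filter (fun e : G.edgeSet => c n ω e = i)).card := rfl

theorem balls_ge (n : ℕ) (ω : Ω) (i : V) : B0 i ≤ balls G B0 c n ω i := by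
  induction n with
  | zero => exact le_rfl
  | succ n ih => rw [balls_succ]; omega

theorem sum_card (n : ℕ) (ω : Ω) :
    ∑ i, (Finset.univ.filter (fun e : G.edgeSet => c n ω e = i)).card
      = Fintype.card G.edgeSet := by
  have := Finset.card_eq_sum_card_fiberwise (f := fun e : G.edgeSet => c n ω e)
    (s := Finset.univ) (t := Finset.univ) (by intro x _; simp)
  rw [← this]
  rfl

theorem balls_sum (n : ℕ) (ω : Ω) :
    ∑ i, balls G B0 c n ω i = ∑ i, B0 i + n * Fintype.card G.edgeSet := by
  induction n with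
  | zero => simp [balls]
  | succ n ih =>
    simp only [balls_succ, Finset.sum_add_distrib]
    rw [ih, sum_card]
    ring

theorem balls_edge (hmem : ∀ n ω (e : G.edgeSet), c n ω e ∈ (e : Sym2 V)) (n : ℕ) (ω : Ω)
    (i j : V) (hij : G.Adj i j) :
    B0 i + B0 j + n ≤ balls G B0 c n ω i + balls G B0 c n ω j := by
  induction n with
  | zero => simp [balls]
  | succ n ih =>
    simp only [balls_succ]
    have key : 1 ≤ (Finset.univ.filter (fun e : G.edgeSet => c n ω e = i)).card +
        (Finset.univ.filter (fun e : G.edgeSet => c n ω e = j)).card := by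
      have he := hmem n ω ⟨s(i, j), hij⟩
      simp only [Sym2.mem_iff] at he
      rcases he with h | h
      · have : 0 < (Finset.univ.filter (fun e : G.edgeSet => c n ω e = i)).card := by
          apply Finset.card_pos.mpr
          exact ⟨⟨s(i, j), hij⟩, by simp [h]⟩
        omega
      · have : 0 < (Finset.univ.filter (fun e : G.edgeSet => c n ω e = j)).card := by
          apply Finset.card_pos.mpr
          exact ⟨⟨s(i, j), hij⟩, by simp [h]⟩
        omega
    omega

theorem A_sum_le (i : V) : ∑ j, A G i j ≤ NN G := by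
  unfold A NN
  rw [Finset.sum_boole]
  norm_cast
  have h1 : (Finset.univ.filter (fun j => G.Adj i j)).card ≤ G.edgeFinset.card := by
    apply Finset.card_le_card_of_injOn (fun j => s(i, j))
    · intro j hj
      simp at hj
      simp [hj]
    · intro a _ b _ hab
      have h : a = b ∨ i = b ∧ a = i := by simpa using hab
      rcases h with h | ⟨h1, h2⟩
      · exact h
      · exact h2.trans h1
  calc _ ≤ G.edgeFinset.card := h1
    _ = _ := by simp [SimpleGraph.edgeFinset, Set.toFinset_card]

theorem pr_nonneg {α a b : ℝ} (ha : 0 < a) (hb : 0 < b) : 0 ≤ pr α a b := by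
  unfold pr; positivity

theorem pr_le_one {α a b : ℝ} (ha : 0 < a) (hb : 0 < b) : pr α a b ≤ 1 := by
  unfold pr
  have h1 : 0 < a ^ α := by positivity
  have h2 : 0 < b ^ α := by positivity
  rw [div_le_one (by positivity)]
  linarith

theorem meas_card {m : MeasurableSpace Ω} (n : ℕ)
    (hm : ∀ (e : G.edgeSet) (i : V), MeasurableSet[m] {ω | c n ω e = i}) (i : V) :
    Measurable[m] (fun ω => ((Finset.univ.filter (fun e : G.edgeSet => c n ω e = i)).card : ℝ)) := by
  have : (fun ω => ((Finset.univ.filter (fun e : G.edgeSet => c n ω e = i)).card : ℝ))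
      = fun ω => ∑ e : G.edgeSet, Set.indicator {ω | c n ω e = i} (fun _ => (1 : ℝ)) ω := by
    funext ω
    rw [Finset.card_filter]
    push_cast
    apply Finset.sum_congr rfl
    intro e _
    simp [Set.indicator_apply]
  rw [this]
  apply Finset.measurable_sum
  intro e _
  exact measurable_const.indicator (hm e i)

end

theorem t : TaskUrnA := by
  intro V _ _ G _ hN α hα B0 hB0 Ω mΩ μ hμ ℱ c hU
  have hNpos : (0 : ℝ) < NN G := by linarith
  have hNcard : 0 < Fintype.card G.edgeSet := by
    have : (0 : ℝ) < (Fintype.card G.edgeSet : ℝ) := hNpos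
    exact_mod_cast this
  obtain ⟨e0⟩ := Fintype.card_pos_iff.mp hNcard
  have hVne : Nonempty V := by
    obtain ⟨e, he⟩ := e0
    induction e using Sym2.ind with
    | _ a b => exact ⟨a⟩
  have hS0 : (0 : ℝ) < ∑ j, (B0 j : ℝ) := by
    apply Finset.sum_pos
    · intro i _
      have := hB0 i
      exact_mod_cast this
    · exact Finset.univ_nonempty
  have hden : ∀ n : ℕ, (0 : ℝ) < (∑ j, (B0 j : ℝ)) + n * NN G := by
    intro n; positivity
  have hxx : ∀ n ω i, xx G B0 c n ω i = (balls G B0 c n ω i : ℝ) / ((∑ j, (B0 j : ℝ)) + n * NN G) := by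
    intro n ω i; rfl
  have hpos : ∀ n ω i, 0 < xx G B0 c n ω i := by
    intro n ω i
    rw [hxx]
    have h1 : 1 ≤ balls G B0 c n ω i := le_trans (hB0 i) (balls_ge G B0 c n ω i)
    have h2 : (0 : ℝ) < (balls G B0 c n ω i : ℝ) := by exact_mod_cast h1
    exact div_pos h2 (hden n)
  have htot : ∀ n ω, ∑ i, xx G B0 c n ω i = 1 := by
    intro n ω
    simp only [hxx]
    rw [← Finset.sum_div, div_eq_one_iff_eq (hden n).ne']
    have := balls_sum G B0 c n ω
    have h2 : ((∑ i, balls G B0 c n ω i : ℕ) : ℝ) = ((∑ i, B0 i + n * Fintype.card G.edgeSet : ℕ) : ℝ) := by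
      rw [this]
    push_cast at h2
    rw [h2]
    rfl
  have hballsm : ∀ n i, Measurable[ℱ n] (fun ω => (balls G B0 c n ω i : ℝ)) := by
    intro n
    induction n with
    | zero => intro i; simp only [balls]; exact measurable_const
    | succ n ih =>
      intro i
      simp only [balls_succ, Nat.cast_add]
      have h1 : Measurable[ℱ (n+1)] (fun ω => (balls G B0 c n ω i : ℝ)) :=
        (ih i).mono (ℱ.mono (Nat.le_succ n)) le_rfl
      exact h1.add (meas_card G c n (fun e i => hU.meas n e i) i)
  have hxm : ∀ n i, Measurable[ℱ n] (fun ω => xx G B0 c n ω i) := by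
    intro n i
    simp only [hxx]
    exact (hballsm n i).div_const _
  refine ⟨?_, ?_, hxm, ?_, ?_, hpos, htot, ?_⟩
  · have : 0 ≤ (∑ j, (B0 j : ℝ)) / NN G := by positivity
    linarith
  · intro n ω i
    have hsum : vf G α (xx G B0 c n ω) i + xi G α B0 c n ω i =
        - xx G B0 c n ω i + (1 / NN G) *
          ((Finset.univ.filter (fun e : G.edgeSet => c n ω e = i)).card : ℝ) := by
      unfold vf xi
      ring
    rw [hsum, hxx, hxx, balls_succ]
    have h1 := (hden n).ne'
    have h2 := (hden (n+1)).ne'
    have h3 : ((n : ℝ) + (1 + (∑ j, (B0 j : ℝ)) / NN G)) =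
        ((∑ j, (B0 j : ℝ)) + ((n + 1 : ℕ) : ℝ) * NN G) / NN G := by
      field_simp
      push_cast
      ring
    rw [h3]
    push_cast at h2 ⊢
    have hN' := hNpos.ne'
    field_simp
    ring
  · intro n i
    unfold xi
    apply Measurable.const_mul
    apply Measurable.sub
    · exact meas_card G c n (fun e i => hU.meas n e i) i
    · apply Finset.measurable_sum
      intro j _
      apply Measurable.const_mul
      have hle : ℱ n ≤ ℱ (n+1) := ℱ.mono (Nat.le_succ n)
      have hi : Measurable[ℱ (n+1)] (fun ω => xx G B0 c n ω i) := (hxm n i).mono hle le_rfl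
      have hj : Measurable[ℱ (n+1)] (fun ω => xx G B0 c n ω j) := (hxm n j).mono hle le_rfl
      unfold pr
      exact (hi.pow_const α).div ((hi.pow_const α).add (hj.pow_const α))
  · intro n ω i
    have hk0 : (0 : ℝ) ≤ ((Finset.univ.filter (fun e : G.edgeSet => c n ω e = i)).card : ℝ) := by
      positivity
    have hk1 : ((Finset.univ.filter (fun e : G.edgeSet => c n ω e = i)).card : ℝ) ≤ NN G := by
      unfold NN
      norm_cast
      exact Finset.card_le_univ _
    have hs0 : 0 ≤ ∑ j, A G i j * pr α (xx G B0 c n ω i) (xx G B0 c n ω j) := by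
      apply Finset.sum_nonneg
      intro j _
      apply mul_nonneg
      · unfold A; split_ifs <;> norm_num
      · exact pr_nonneg (hpos n ω i) (hpos n ω j)
    have hs1 : ∑ j, A G i j * pr α (xx G B0 c n ω i) (xx G B0 c n ω j) ≤ NN G := by
      refine le_trans ?_ (A_sum_le G i)
      apply Finset.sum_le_sum
      intro j _
      have hA : 0 ≤ A G i j := by unfold A; split_ifs <;> norm_num
      have := pr_le_one (α := α) (hpos n ω i) (hpos n ω j)
      nlinarith
    unfold xi
    rw [abs_mul, abs_of_pos (by positivity : 0 < 1 / NN G)]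
    have habs : |((Finset.univ.filter (fun e : G.edgeSet => c n ω e = i)).card : ℝ) -
      ∑ j, A G i j * pr α (xx G B0 c n ω i) (xx G B0 c n ω j)| ≤ NN G := by
      rw [abs_le]; constructor <;> linarith
    calc 1 / NN G * _ ≤ 1 / NN G * NN G := by
          apply mul_le_mul_of_nonneg_left habs (by positivity)
      _ = 1 := by field_simp
  · refine ⟨∑ j, B0 j, ?_⟩
    intro n hn ω
    refine ⟨fun i => (hpos n ω i).le, htot n ω, ?_⟩
    intro i j hij
    rw [hxx, hxx, ← add_div, div_le_div_iff₀ (by positivity) (hden n)]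
    have h1 := balls_edge G B0 c hU.mem n ω i j hij
    have h2 : ((B0 i + B0 j + n : ℕ) : ℝ) ≤ ((balls G B0 c n ω i + balls G B0 c n ω j : ℕ) : ℝ) := by
      exact_mod_cast h1
    push_cast at h2
    have h3 : ((∑ j, B0 j : ℕ) : ℝ) ≤ (n : ℝ) := by exact_mod_cast hn
    push_cast at h3
    have h4 : (0 : ℝ) ≤ B0 i := by positivity
    have h5 : (0 : ℝ) ≤ B0 j := by positivity
    nlinarith

end H483U.UrnA
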