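import Pool.Agent.H483R3.Urn.Stmts

set_option autoImplicit false

namespace H483U.Unst

theorem t : H483U.TaskUnst := by
  intro V _ _ G _ hN α hα p hp hvf
  have hNpos : (0 : ℝ) < NN G := by linarith
  -- V is nonempty
  have hne : Nonempty V := by
    by_contra hcon
    rw [not_nonempty_iff] at hcon
    have h0 : Fintype.card G.edgeSet = 0 := by
      rw [Fintype.card_eq_zero_iff]
      constructor
      rintro ⟨e, he⟩
      induction e using Sym2.ind with
      | _ a b => exact hcon.false a
    unfold NN at hN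
    rw [h0] at hN
    norm_num at hN
  obtain ⟨i₀, -, hmin⟩ := Finset.exists_min_image (Finset.univ : Finset V) p
    (Finset.univ_nonempty)
  have hmin' : ∀ j, p i₀ ≤ p j := fun j => hmin j (Finset.mem_univ j)
  have hwsymm : ∀ i j, w G α p i j = w G α p j i := by
    intro i j
    unfold w A
    simp only [G.adj_comm i j]
    ring
  have hwdiag : ∀ i, w G α p i i = 0 := by
    intro i
    unfold w A
    simp
  refine ⟨fun i => if i = i₀ then 1 else 0, ?_⟩
  have hL : ∑ i, p i * (if i = i₀ then (1 : ℝ) else 0) ^ 2 = p i₀ := by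
    rw [Finset.sum_eq_single i₀]
    · simp
    · intro b _ hb; simp [hb]
    · intro h; exact absurd (Finset.mem_univ _) h
  have hR : ∑ i, ∑ j, w G α p i j *
      ((if i = i₀ then (1 : ℝ) else 0) - (if j = i₀ then (1 : ℝ) else 0)) ^ 2 =
      2 * ∑ j, w G α p i₀ j := by
    have h1 : ∀ i j, w G α p i j *
      ((if i = i₀ then (1 : ℝ) else 0) - (if j = i₀ then (1 : ℝ) else 0)) ^ 2 =
      (if i = i₀ then w G α p i₀ j else 0) + (if j = i₀ then w G α p i₀ i else 0) := by
      intro i j
      by_cases hi : i = i₀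
      · by_cases hj : j = i₀
        · subst hi; subst hj; simp [hwdiag]
        · subst hi; simp [hj]
      · by_cases hj : j = i₀
        · subst hj; simp [hi, hwsymm i j]
        · simp [hi, hj]
    simp_rw [h1, Finset.sum_add_distrib]
    have h2 : ∑ i, ∑ j, (if i = i₀ then w G α p i₀ j else 0) = ∑ j, w G α p i₀ j := by
      rw [Finset.sum_eq_single i₀]
      · simp
      · intro b _ hb; simp [hb]
      · intro h; exact absurd (Finset.mem_univ _) h
    have h3 : ∑ i, ∑ j, (if j = i₀ then w G α p i₀ i else 0) = ∑ i, w G α p i₀ i := by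
      apply Finset.sum_congr rfl
      intro i _
      rw [Finset.sum_eq_single i₀]
      · simp
      · intro b _ hb; simp [hb]
      · intro h; exact absurd (Finset.mem_univ _) h
    rw [h2, h3]; ring
  rw [hL, hR]
  -- equilibrium equation
  have hsum : ∑ j, A G i₀ j * pr α (p i₀) (p j) = NN G * p i₀ := by
    have h := hvf i₀
    unfold vf at h
    have h' : (1 / NN G) * ∑ j, A G i₀ j * pr α (p i₀) (p j) = p i₀ := by linarith
    field_simp at h'
    linarith
  have hw : ∀ j, (1 / 2) * (A G i₀ j * pr α (p i₀) (p j)) ≤ w G α p i₀ j := by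
    intro j
    have hA : 0 ≤ A G i₀ j := by unfold A; split_ifs <;> norm_num
    have hpa : 0 < p i₀ ^ α := Real.rpow_pos_of_pos (hp _) _
    have hpb : 0 < p j ^ α := Real.rpow_pos_of_pos (hp _) _
    have hab : p i₀ ^ α ≤ p j ^ α :=
      Real.rpow_le_rpow (hp _).le (hmin' j) (by linarith)
    have h1 : (1 / 2 : ℝ) ≤ pr α (p j) (p i₀) := by
      unfold pr
      rw [div_le_div_iff₀ (by norm_num) (by positivity)]
      linarith
    have h2 : 0 ≤ A G i₀ j * pr α (p i₀) (p j) := by
      apply mul_nonneg hA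
      unfold pr
      positivity
    unfold w
    calc (1 / 2) * (A G i₀ j * pr α (p i₀) (p j))
        = (A G i₀ j * pr α (p i₀) (p j)) * (1 / 2) := by ring
      _ ≤ (A G i₀ j * pr α (p i₀) (p j)) * pr α (p j) (p i₀) :=
          mul_le_mul_of_nonneg_left h1 h2
      _ = A G i₀ j * (pr α (p i₀) (p j) * pr α (p j) (p i₀)) := by ring
  have hS : (1 / 2) * (NN G * p i₀) ≤ ∑ j, w G α p i₀ j := by
    rw [← hsum, Finset.mul_sum]
    exact Finset.sum_le_sum (fun j _ => hw j)
  have hp0 := hp i₀
  calc p i₀ < α / 2 * p i₀ := by nlinarith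
    _ = α / NN G * ((1 / 2) * (2 * ((1 / 2) * (NN G * p i₀)))) := by field_simp
    _ ≤ α / NN G * ((1 / 2) * (2 * ∑ j, w G α p i₀ j)) := by
        apply mul_le_mul_of_nonneg_left _ (by positivity)
        linarith

end H483U.Unst
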