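import Pool.Agent.H483R3.Urn.Stmts

/-! Task UrnB of project H483-URN: conditional mean and variance of the noise. -/

set_option autoImplicit false

namespace H483U.UrnB

open MeasureTheory ProbabilityTheory Filter Topology H483U

section Fin

variable {ι κ : Type} [Fintype ι] [DecidableEq ι] [DecidableEq κ] (S : ι → Finset κ)
  (p : ι → κ → ℝ)

theorem prod_exp (h : ι → κ → ℝ) :
    ∑ s ∈ Fintype.piFinset S, (∏ e, p e (s e)) * ∏ e, h e (s e) =
      ∏ e, ∑ k ∈ S e, p e k * h e k := by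
  rw [Finset.prod_univ_sum]
  refine Finset.sum_congr rfl fun s _ => ?_
  rw [← Finset.prod_mul_distrib]

theorem exp_one (hp : ∀ e, ∑ k ∈ S e, p e k = 1) :
    ∑ s ∈ Fintype.piFinset S, (∏ e, p e (s e)) = 1 := by
  have := prod_exp S p (fun _ _ => 1)
  simp only [mul_one, Finset.prod_const_one, hp] at this
  exact this

theorem exp_single (hp : ∀ e, ∑ k ∈ S e, p e k = 1) (e0 : ι) (y : κ → ℝ) :
    ∑ s ∈ Fintype.piFinset S, (∏ e, p e (s e)) * y (s e0) = ∑ k ∈ S e0, p e0 k * y k := by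
  have := prod_exp S p (fun e k => if e = e0 then y k else 1)
  rw [Finset.prod_eq_single e0] at this
  · simp only [if_true] at this
    rw [← this]
    refine Finset.sum_congr rfl fun s _ => ?_
    rw [Finset.prod_ite_eq' Finset.univ e0 (fun e => y (s e)), if_pos (Finset.mem_univ _)]
  · intro e _ he
    simp only [if_neg he, mul_one]
    exact hp e
  · intro h
    exact absurd (Finset.mem_univ _) h

theorem exp_double (hp : ∀ e, ∑ k ∈ S e, p e k = 1) {e0 f0 : ι} (hne : e0 ≠ f0)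
    (y z : κ → ℝ) :
    ∑ s ∈ Fintype.piFinset S, (∏ e, p e (s e)) * (y (s e0) * z (s f0)) =
      (∑ k ∈ S e0, p e0 k * y k) * (∑ k ∈ S f0, p f0 k * z k) := by
  have := prod_exp S p (fun e k => (if e = e0 then y k else 1) * (if e = f0 then z k else 1))
  rw [Finset.prod_eq_mul e0 f0 hne] at this
  · simp only [if_true, if_neg hne, if_neg hne.symm, mul_one, one_mul] at this
    rw [← this]
    refine Finset.sum_congr rfl fun s _ => ?_
    rw [Finset.prod_mul_distrib, Finset.prod_ite_eq' Finset.univ e0 (fun e => y (s e)),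
      Finset.prod_ite_eq' Finset.univ f0 (fun e => z (s e)), if_pos (Finset.mem_univ _),
      if_pos (Finset.mem_univ _)]
  · intro e _ he
    simp only [if_neg he.1, if_neg he.2, mul_one]
    exact hp e
  · intro h
    exact absurd (Finset.mem_univ _) h
  · intro h
    exact absurd (Finset.mem_univ _) h

theorem exp_sum (hp : ∀ e, ∑ k ∈ S e, p e k = 1) (Y : ι → κ → ℝ)
    (hY : ∀ e, ∑ k ∈ S e, p e k * Y e k = 0) :
    ∑ s ∈ Fintype.piFinset S, (∏ e, p e (s e)) * (∑ e, Y e (s e)) = 0 := by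
  simp only [Finset.mul_sum]
  rw [Finset.sum_comm]
  refine Finset.sum_eq_zero fun e _ => ?_
  rw [exp_single S p hp e (Y e), hY]

theorem exp_sq (hp : ∀ e, ∑ k ∈ S e, p e k = 1) (Y : ι → κ → ℝ)
    (hY : ∀ e, ∑ k ∈ S e, p e k * Y e k = 0) :
    ∑ s ∈ Fintype.piFinset S, (∏ e, p e (s e)) * (∑ e, Y e (s e)) ^ 2 =
      ∑ e, ∑ k ∈ S e, p e k * Y e k ^ 2 := by
  have h1 : ∀ s : ι → κ, (∏ e, p e (s e)) * (∑ e, Y e (s e)) ^ 2 =
      ∑ e, ∑ f, (∏ e, p e (s e)) * (Y e (s e) * Y f (s f)) := by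
    intro s
    rw [sq, Finset.sum_mul_sum, Finset.mul_sum]
    refine Finset.sum_congr rfl fun e _ => ?_
    rw [Finset.mul_sum]
  simp only [h1]
  rw [Finset.sum_comm]
  refine Finset.sum_congr rfl fun e _ => ?_
  rw [Finset.sum_comm, Finset.sum_eq_single e]
  · have := exp_single S p hp e (fun k => Y e k ^ 2)
    rw [← this]
    refine Finset.sum_congr rfl fun s _ => ?_
    simp only [sq]
  · intro f _ hf
    rw [exp_double S p hp (Ne.symm hf) (Y e) (Y f), hY, zero_mul]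
  · intro h
    exact absurd (Finset.mem_univ _) h

end Fin

variable {V : Type} [Fintype V] [DecidableEq V] (G : SimpleGraph V) [DecidableRel G.Adj]

theorem edge_sum (f : V → V → ℝ) (g : G.edgeSet → ℝ)
    (h : ∀ a b (hab : G.Adj a b), g ⟨s(a, b), (G.mem_edgeSet).2 hab⟩ = f a b + f b a) :
    ∑ i, ∑ j, A G i j * f i j = ∑ e, g e := by
  classical
  set g' : Sym2 V → ℝ := fun z => if hz : z ∈ G.edgeSet then g ⟨z, hz⟩ else 0 with hg'
  have h1 : ∑ e : G.edgeSet, g e = ∑ z ∈ G.edgeFinset, g' z := by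
    rw [Finset.sum_subtype G.edgeFinset (p := fun z => z ∈ G.edgeSet)
      (fun x => SimpleGraph.mem_edgeFinset) g']
    refine Finset.sum_congr rfl fun e _ => ?_
    rw [hg']
    simp only
    rw [dif_pos e.2]
  have h2 : ∑ i, ∑ j, A G i j * f i j =
      ∑ p ∈ (Finset.univ : Finset (V × V)).filter (fun p => G.Adj p.1 p.2), f p.1 p.2 := by
    rw [Finset.sum_filter, ← Finset.univ_product_univ, Finset.sum_product]
    refine Finset.sum_congr rfl fun i _ => Finset.sum_congr rfl fun j _ => ?_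
    unfold A
    by_cases hij : G.Adj i j
    · rw [if_pos hij, if_pos hij, one_mul]
    · rw [if_neg hij, if_neg hij, zero_mul]
  rw [h1, h2, ← Finset.sum_fiberwise_of_maps_to (g := fun p : V × V => s(p.1, p.2))
    (t := G.edgeFinset)]
  · refine Finset.sum_congr rfl fun z hz => ?_
    induction z using Sym2.ind with
    | _ a b =>
      have hab : G.Adj a b := by
        rw [SimpleGraph.mem_edgeFinset, SimpleGraph.mem_edgeSet] at hz
        exact hz
      have hset : ((Finset.univ : Finset (V × V)).filter (fun p => G.Adj p.1 p.2)).filter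
          (fun p => s(p.1, p.2) = s(a, b)) = {(a, b), (b, a)} := by
        ext ⟨x, y⟩
        simp only [Finset.mem_filter, Finset.mem_univ, true_and, Finset.mem_insert,
          Finset.mem_singleton, Prod.mk.injEq, Sym2.eq_iff]
        constructor
        · exact fun h => h.2
        · intro h
          refine ⟨?_, h⟩
          rcases h with ⟨rfl, rfl⟩ | ⟨rfl, rfl⟩
          · exact hab
          · exact hab.symm
      have hne : ((a, b) : V × V) ≠ (b, a) := by
        intro h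
        rw [Prod.mk.injEq] at h
        exact hab.ne h.1
      rw [hset, Finset.sum_pair hne, hg']
      simp only
      rw [dif_pos ((G.mem_edgeSet).2 hab)]
      exact (h a b hab).symm
  · rintro ⟨x, y⟩ hp
    simp only [Finset.mem_filter, Finset.mem_univ, true_and] at hp
    rw [SimpleGraph.mem_edgeFinset, SimpleGraph.mem_edgeSet]
    exact hp

/-- edge probabilities -/
noncomputable def Pe (α : ℝ) (b : V → ℕ) (e : Sym2 V) (k : V) : ℝ :=
  (b k : ℝ) ^ α / ∑ k' ∈ e.toFinset, (b k' : ℝ) ^ α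

theorem Pe_pos {α : ℝ} {b : V → ℕ} (hb : ∀ i, 1 ≤ b i) (k : V) : 0 < (b k : ℝ) ^ α :=
  Real.rpow_pos_of_pos (by exact_mod_cast hb k) _

theorem sum_pos' {α : ℝ} {b : V → ℕ} (hb : ∀ i, 1 ≤ b i) (e : Sym2 V) :
    0 < ∑ k' ∈ e.toFinset, (b k' : ℝ) ^ α := by
  apply Finset.sum_pos (fun k _ => Pe_pos hb k)
  induction e using Sym2.ind with
  | _ x y => exact ⟨x, by rw [Sym2.mem_toFinset]; exact Sym2.mem_mk_left x y⟩

theorem Pe_sum {α : ℝ} {b : V → ℕ} (hb : ∀ i, 1 ≤ b i) (e : Sym2 V) :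
    ∑ k ∈ e.toFinset, Pe α b e k = 1 := by
  unfold Pe
  rw [← Finset.sum_div, div_self (sum_pos' hb e).ne']

theorem Pe_nonneg {α : ℝ} {b : V → ℕ} (hb : ∀ i, 1 ≤ b i) (e : Sym2 V) (k : V) :
    0 ≤ Pe α b e k :=
  div_nonneg (Pe_pos hb k).le (sum_pos' hb e).le

theorem Pe_eq_pr {α D : ℝ} {b : V → ℕ} (hb : ∀ i, 1 ≤ b i) (hD : 0 < D) {x y : V} (hxy : x ≠ y) :
    Pe α b s(x, y) x = pr α ((b x : ℝ) / D) ((b y : ℝ) / D) := by
  have h1 := Pe_pos (α := α) hb x
  have h2 := Pe_pos (α := α) hb y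
  have h3 : 0 < D ^ α := Real.rpow_pos_of_pos hD _
  unfold Pe pr
  rw [Sym2.toFinset_mk_eq, Finset.sum_pair hxy,
    Real.div_rpow (Nat.cast_nonneg _) hD.le, Real.div_rpow (Nat.cast_nonneg _) hD.le]
  field_simp

/-- the mean -/
noncomputable def mm (α : ℝ) (b : V → ℕ) (φ : V → ℝ) (e : Sym2 V) : ℝ :=
  ∑ k ∈ e.toFinset, Pe α b e k * φ k

theorem mm_abs {α : ℝ} {b : V → ℕ} (hb : ∀ i, 1 ≤ b i) (φ : V → ℝ) (e : Sym2 V) :
    |mm α b φ e| ≤ ∑ i, |φ i| := by
  unfold mm
  refine (Finset.abs_sum_le_sum_abs _ _).trans ?_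
  calc ∑ k ∈ e.toFinset, |Pe α b e k * φ k|
      ≤ ∑ k ∈ e.toFinset, Pe α b e k * ∑ i, |φ i| := by
        refine Finset.sum_le_sum fun k _ => ?_
        rw [abs_mul, abs_of_nonneg (Pe_nonneg hb e k)]
        exact mul_le_mul_of_nonneg_left (Finset.single_le_sum (f := fun i => |φ i|)
          (fun i _ => abs_nonneg _) (Finset.mem_univ k)) (Pe_nonneg hb e k)
    _ = ∑ i, |φ i| := by rw [← Finset.sum_mul, Pe_sum hb, one_mul]

/-- the linear functional of the noise -/
noncomputable def gg (α : ℝ) (b : V → ℕ) (φ : V → ℝ) (s : G.edgeSet → V) : ℝ :=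
  (1 / NN G) * ∑ e : G.edgeSet, (φ (s e) - mm α b φ (e : Sym2 V))

theorem mean0 {α : ℝ} {b : V → ℕ} (hb : ∀ i, 1 ≤ b i) (φ : V → ℝ) (e : Sym2 V) :
    ∑ k ∈ e.toFinset, Pe α b e k * (φ k - mm α b φ e) = 0 := by
  simp only [mul_sub, Finset.sum_sub_distrib]
  rw [← Finset.sum_mul, Pe_sum hb, one_mul]
  exact sub_self _

theorem exp_gg {α : ℝ} {b : V → ℕ} (hb : ∀ i, 1 ≤ b i) (φ : V → ℝ) :
    ∑ s ∈ Fintype.piFinset (fun e : G.edgeSet => (e : Sym2 V).toFinset),
      gg G α b φ s * ∏ e : G.edgeSet, Pe α b (e : Sym2 V) (s e) = 0 := by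
  have := exp_sum (fun e : G.edgeSet => (e : Sym2 V).toFinset)
    (fun e k => Pe α b (e : Sym2 V) k) (fun e => Pe_sum hb _)
    (fun e k => φ k - mm α b φ (e : Sym2 V)) (fun e => mean0 hb φ _)
  unfold gg
  have h2 : ∀ s : G.edgeSet → V, ((1 / NN G) * ∑ e : G.edgeSet, (φ (s e) - mm α b φ (e : Sym2 V))) *
      ∏ e : G.edgeSet, Pe α b (e : Sym2 V) (s e) =
      (1 / NN G) * ((∏ e : G.edgeSet, Pe α b (e : Sym2 V) (s e)) *
        ∑ e : G.edgeSet, (φ (s e) - mm α b φ (e : Sym2 V))) := fun s => by ring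
  simp only [h2]
  rw [← Finset.mul_sum, this, mul_zero]

theorem exp_gg2 {α D : ℝ} {b : V → ℕ} (hb : ∀ i, 1 ≤ b i) (hD : 0 < D) (φ : V → ℝ) :
    ∑ s ∈ Fintype.piFinset (fun e : G.edgeSet => (e : Sym2 V).toFinset),
      gg G α b φ s ^ 2 * ∏ e : G.edgeSet, Pe α b (e : Sym2 V) (s e) =
      1 / (2 * NN G ^ 2) * ∑ i, ∑ j, w G α (fun i => (b i : ℝ) / D) i j * (φ i - φ j) ^ 2 := by
  have := exp_sq (fun e : G.edgeSet => (e : Sym2 V).toFinset)
    (fun e k => Pe α b (e : Sym2 V) k) (fun e => Pe_sum hb _)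
    (fun e k => φ k - mm α b φ (e : Sym2 V)) (fun e => mean0 hb φ _)
  unfold gg
  have h2 : ∀ s : G.edgeSet → V,
      ((1 / NN G) * ∑ e : G.edgeSet, (φ (s e) - mm α b φ (e : Sym2 V))) ^ 2 *
      ∏ e : G.edgeSet, Pe α b (e : Sym2 V) (s e) =
      (1 / NN G ^ 2) * ((∏ e : G.edgeSet, Pe α b (e : Sym2 V) (s e)) *
        (∑ e : G.edgeSet, (φ (s e) - mm α b φ (e : Sym2 V))) ^ 2) := fun s => by
    rw [mul_pow, div_pow, one_pow]; ring
  simp only [h2]
  rw [← Finset.mul_sum, this]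
  have h3 : ∑ i, ∑ j, w G α (fun i => (b i : ℝ) / D) i j * (φ i - φ j) ^ 2 =
      ∑ e : G.edgeSet, 2 * ∑ k ∈ (e : Sym2 V).toFinset,
        Pe α b (e : Sym2 V) k * (φ k - mm α b φ (e : Sym2 V)) ^ 2 := by
    have h4 : ∀ i j, w G α (fun i => (b i : ℝ) / D) i j * (φ i - φ j) ^ 2 =
        A G i j * (pr α ((b i : ℝ) / D) ((b j : ℝ) / D) * pr α ((b j : ℝ) / D) ((b i : ℝ) / D) *
          (φ i - φ j) ^ 2) := fun i j => by unfold w; ring
    simp only [h4]
    refine edge_sum G (fun i j => pr α ((b i : ℝ) / D) ((b j : ℝ) / D) *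
      pr α ((b j : ℝ) / D) ((b i : ℝ) / D) * (φ i - φ j) ^ 2) _ ?_
    intro x y hxy
    have hne := hxy.ne
    have e1 := Pe_eq_pr (α := α) hb hD hne
    have e2 := Pe_eq_pr (α := α) hb hD hne.symm
    rw [Sym2.eq_swap] at e2
    have e3 := Pe_sum (α := α) hb s(x, y)
    have e4 : mm α b φ s(x, y) = Pe α b s(x, y) x * φ x + Pe α b s(x, y) y * φ y := by
      unfold mm
      rw [Sym2.toFinset_mk_eq, Finset.sum_pair hne]
    simp only [Sym2.toFinset_mk_eq]
    rw [Sym2.toFinset_mk_eq, Finset.sum_pair hne] at e3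
    rw [Finset.sum_pair hne, e4, ← e1, ← e2]
    have e5 : Pe α b s(x, y) y = 1 - Pe α b s(x, y) x := by linarith
    rw [e5]
    ring
  rw [h3, ← Finset.mul_sum]
  have hN : ∀ N X : ℝ, 1 / N ^ 2 * X = 1 / (2 * N ^ 2) * (2 * X) := by
    intro N X
    by_cases hN : N = 0
    · rw [hN]; simp
    · field_simp
  exact hN _ _

section Prob

variable {Ω : Type} [mΩ : MeasurableSpace Ω] {μ : Measure Ω} [IsProbabilityMeasure μ]
  {ℱ : Filtration ℕ mΩ} {c : ℕ → Ω → G.edgeSet → V} {α : ℝ} {B0 : V → ℕ}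

theorem balls_pos (hB : ∀ i, 1 ≤ B0 i) (n : ℕ) (ω : Ω) (i : V) : 1 ≤ balls G B0 c n ω i := by
  induction n with
  | zero => exact hB i
  | succ n ih => exact le_trans ih (Nat.le_add_right _ _)

theorem balls_meas (hU : IsUrn G α B0 μ ℱ c) (n : ℕ) (i : V) :
    Measurable[ℱ n] (fun ω => (balls G B0 c n ω i : ℝ)) := by
  induction n with
  | zero =>
    have h0 : (fun ω => (balls G B0 c 0 ω i : ℝ)) = fun _ => (B0 i : ℝ) := by
      ext ω
      simp only [balls]
    rw [h0]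
    exact measurable_const
  | succ n ih =>
    have h1 : (fun ω => (balls G B0 c (n + 1) ω i : ℝ)) = fun ω => (balls G B0 c n ω i : ℝ) +
        ∑ e : G.edgeSet, Set.indicator {ω | c n ω e = i} (fun _ => (1 : ℝ)) ω := by
      ext ω
      show ((balls G B0 c n ω i + (Finset.univ.filter (fun e : G.edgeSet => c n ω e = i)).card : ℕ) : ℝ) = _
      rw [Finset.card_filter]
      push_cast
      congr 1
      refine Finset.sum_congr rfl fun e _ => ?_
      by_cases h : c n ω e = i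
      · rw [if_pos h, Set.indicator_of_mem (by exact h)]
      · rw [if_neg h, Set.indicator_of_notMem (by exact h)]
    rw [h1]
    refine Measurable.add (ih.mono (ℱ.mono (Nat.le_succ n)) le_rfl) ?_
    refine Finset.measurable_sum _ fun e _ => ?_
    exact measurable_const.indicator (hU.meas n e i)

theorem gg_meas (hU : IsUrn G α B0 μ ℱ c) (n : ℕ) (φ : V → ℝ) (s : G.edgeSet → V) :
    Measurable[ℱ n] (fun ω => gg G α (balls G B0 c n ω) φ s) := by
  unfold gg mm Pe
  have hm := fun i => balls_meas G hU n i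
  refine Measurable.const_mul ?_ _
  refine Finset.measurable_sum _ fun e _ => ?_
  refine Measurable.const_sub ?_ _
  refine Finset.measurable_sum _ fun k _ => ?_
  refine Measurable.mul_const ?_ _
  refine Measurable.div ((hm k).pow_const _) ?_
  exact Finset.measurable_sum _ fun k' _ => (hm k').pow_const _

theorem gg_bound (hB : ∀ i, 1 ≤ B0 i) (n : ℕ) (φ : V → ℝ) (s : G.edgeSet → V) (ω : Ω) :
    |gg G α (balls G B0 c n ω) φ s| ≤ |1 / NN G| * (Fintype.card G.edgeSet * (2 * ∑ i, |φ i|)) := by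
  unfold gg
  rw [abs_mul]
  refine mul_le_mul_of_nonneg_left ?_ (abs_nonneg _)
  refine (Finset.abs_sum_le_sum_abs _ _).trans ?_
  have : ∀ e ∈ (Finset.univ : Finset G.edgeSet),
      |φ (s e) - mm α (balls G B0 c n ω) φ (e : Sym2 V)| ≤ 2 * ∑ i, |φ i| := by
    intro e _
    refine (abs_sub _ _).trans ?_
    have h1 := mm_abs (α := α) (balls_pos G (c := c) hB n ω) φ (e : Sym2 V)
    have h2 : |φ (s e)| ≤ ∑ i, |φ i| := Finset.single_le_sum (f := fun i => |φ i|)
          (fun i _ => abs_nonneg _) (Finset.mem_univ (s e))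
    linarith
  refine (Finset.sum_le_sum this).trans ?_
  rw [Finset.sum_const, nsmul_eq_mul]
  rfl

theorem pattern_meas (hU : IsUrn G α B0 μ ℱ c) (n : ℕ) (s : G.edgeSet → V) :
    MeasurableSet {ω | c n ω = s} := by
  have : {ω | c n ω = s} = ⋂ e : G.edgeSet, {ω | c n ω e = s e} := by
    ext ω
    rw [Set.mem_iInter]
    exact funext_iff
  rw [this]
  exact MeasurableSet.iInter fun e => ℱ.le (n + 1) _ (hU.meas n e (s e))

theorem cond_law (hU : IsUrn G α B0 μ ℱ c) (n : ℕ) (g : (G.edgeSet → V) → Ω → ℝ)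
    (hg : ∀ s, Measurable[ℱ n] (g s)) (C : ℝ) (hC : ∀ s ω, |g s ω| ≤ C) :
    μ[fun ω => g (c n ω) ω | ℱ n] =ᵐ[μ] fun ω =>
      ∑ s ∈ Fintype.piFinset (fun e : G.edgeSet => (e : Sym2 V).toFinset),
        g s ω * ∏ e : G.edgeSet, Pe α (balls G B0 c n ω) (e : Sym2 V) (s e) := by
  set S := Fintype.piFinset (fun e : G.edgeSet => (e : Sym2 V).toFinset) with hS
  set I : (G.edgeSet → V) → Ω → ℝ := fun s => Set.indicator {ω | c n ω = s} (fun _ => (1 : ℝ))
    with hI
  have hmem : ∀ ω, c n ω ∈ S := by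
    intro ω
    rw [hS, Fintype.mem_piFinset]
    intro e
    rw [Sym2.mem_toFinset]
    exact hU.mem n ω e
  have h1 : (fun ω => g (c n ω) ω) = ∑ s ∈ S, g s * I s := by
    ext ω
    rw [Finset.sum_apply, Finset.sum_eq_single (c n ω)]
    · simp only [Pi.mul_apply, hI]
      rw [Set.indicator_of_mem (by exact rfl), mul_one]
    · intro s _ hs
      simp only [Pi.mul_apply, hI]
      rw [Set.indicator_of_notMem (fun h => hs h.symm), mul_zero]
    · intro h
      exact absurd (hmem ω) h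
  have hIm : ∀ s, Integrable (I s) μ := fun s =>
    (integrable_const (1 : ℝ)).indicator (pattern_meas G hU n s)
  have hgI : ∀ s, Integrable (g s * I s) μ := by
    intro s
    refine (hIm s).bdd_mul (c := C) ?_ ?_
    · exact ((hg s).mono (ℱ.le n) le_rfl).aestronglyMeasurable
    · exact ae_of_all _ fun ω => by rw [Real.norm_eq_abs]; exact hC s ω
  rw [h1]
  refine (condExp_finsetSum (fun s _ => hgI s) (ℱ n)).trans ?_
  have h2 : ∀ s ∈ S, μ[g s * I s | ℱ n] =ᵐ[μ]
      fun ω => g s ω * ∏ e : G.edgeSet, Pe α (balls G B0 c n ω) (e : Sym2 V) (s e) := by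
    intro s hs
    refine (condExp_mul_of_stronglyMeasurable_left (hg s).stronglyMeasurable (hgI s) (hIm s)).trans ?_
    have hl := hU.law n s (fun e => by
      rw [hS, Fintype.mem_piFinset] at hs
      exact Sym2.mem_toFinset.1 (hs e))
    filter_upwards [hl] with ω hω
    rw [Pi.mul_apply]
    congr 1
  have h3 : ∀ᵐ ω ∂μ, ∀ s ∈ S, (μ[g s * I s | ℱ n]) ω =
      g s ω * ∏ e : G.edgeSet, Pe α (balls G B0 c n ω) (e : Sym2 V) (s e) := by
    rw [Filter.eventually_all_finset]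
    exact h2
  filter_upwards [h3] with ω hω
  rw [Finset.sum_apply]
  exact Finset.sum_congr rfl fun s hs => hω s hs

theorem lin_xi (hN : 1 ≤ NN G) (hB : ∀ i, 1 ≤ B0 i) (n : ℕ) (φ : V → ℝ) (ω : Ω) :
    0 < (∑ j, (B0 j : ℝ)) + n * (Fintype.card G.edgeSet : ℝ) ∧
    ∑ i, φ i * xi G α B0 c n ω i = gg G α (balls G B0 c n ω) φ (c n ω) := by
  have hE : 0 < Fintype.card G.edgeSet := by
    unfold NN at hN
    by_contra h
    have : Fintype.card G.edgeSet = 0 := by omega
    rw [this] at hN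
    norm_num at hN
  obtain ⟨e0⟩ := Fintype.card_pos_iff.1 hE
  have hV : Nonempty V := by
    obtain ⟨z, hz⟩ := e0
    induction z using Sym2.ind with
    | _ x y => exact ⟨x⟩
  have hD : 0 < (∑ j, (B0 j : ℝ)) + n * (Fintype.card G.edgeSet : ℝ) := by
    have h1 : 0 < ∑ j, (B0 j : ℝ) := Finset.sum_pos (fun j _ => by exact_mod_cast hB j)
      Finset.univ_nonempty
    positivity
  refine ⟨hD, ?_⟩
  set D := (∑ j, (B0 j : ℝ)) + n * (Fintype.card G.edgeSet : ℝ) with hDdef
  have hb := balls_pos G (c := c) hB n ω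
  have h1 : ∑ i, φ i * ((Finset.univ.filter (fun e : G.edgeSet => c n ω e = i)).card : ℝ) =
      ∑ e : G.edgeSet, φ (c n ω e) := by
    simp only [Finset.card_filter]
    push_cast
    simp only [Finset.mul_sum]
    rw [Finset.sum_comm]
    refine Finset.sum_congr rfl fun e _ => ?_
    simp
  have h2 : ∑ i, ∑ j, A G i j * (φ i * pr α (xx G B0 c n ω i) (xx G B0 c n ω j)) =
      ∑ e : G.edgeSet, mm α (balls G B0 c n ω) φ (e : Sym2 V) := by
    refine edge_sum G (fun i j => φ i * pr α (xx G B0 c n ω i) (xx G B0 c n ω j)) _ ?_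
    intro x y hxy
    have hne := hxy.ne
    have e1 := Pe_eq_pr (α := α) hb hD hne
    have e2 := Pe_eq_pr (α := α) hb hD hne.symm
    rw [Sym2.eq_swap] at e2
    unfold mm xx
    simp only [Sym2.toFinset_mk_eq]
    rw [Finset.sum_pair hne, e1, e2]
    ring
  unfold gg
  rw [Finset.sum_sub_distrib, ← h1, ← h2, ← Finset.sum_sub_distrib, Finset.mul_sum]
  refine Finset.sum_congr rfl fun i _ => ?_
  unfold xi
  have h3 : ∑ j, A G i j * (φ i * pr α (xx G B0 c n ω i) (xx G B0 c n ω j)) =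
      φ i * ∑ j, A G i j * pr α (xx G B0 c n ω i) (xx G B0 c n ω j) := by
    rw [Finset.mul_sum]
    exact Finset.sum_congr rfl fun j _ => by ring
  rw [h3]
  ring

end Prob

theorem t : TaskUrnB := by
  intro V _ _ G _ hN α hα B0 hB Ω _ μ _ ℱ c hU
  have main : ∀ n (φ : V → ℝ), μ[fun ω => ∑ i, φ i * xi G α B0 c n ω i | ℱ n] =ᵐ[μ] 0 := by
    intro n φ
    have h1 : (fun ω => ∑ i, φ i * xi G α B0 c n ω i) =
        fun ω => (fun s ω => gg G α (balls G B0 c n ω) φ s) (c n ω) ω := by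
      ext ω
      exact (lin_xi G hN hB n φ ω).2
    rw [h1]
    refine (cond_law G hU n (fun s ω => gg G α (balls G B0 c n ω) φ s)
      (gg_meas G hU n φ) _ (fun s ω => gg_bound G hB n φ s ω)).trans ?_
    refine ae_of_all _ fun ω => ?_
    exact exp_gg G (balls_pos G hB n ω) φ
  refine ⟨?_, ?_⟩
  · intro n i
    have h := main n (Pi.single i 1)
    have h1 : (fun ω => ∑ j, (Pi.single i (1 : ℝ) : V → ℝ) j * xi G α B0 c n ω j) =
        fun ω => xi G α B0 c n ω i := by
      ext ω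
      rw [Finset.sum_eq_single i]
      · rw [Pi.single_eq_same, one_mul]
      · intro j _ hj
        rw [Pi.single_eq_of_ne hj, zero_mul]
      · intro h
        exact absurd (Finset.mem_univ _) h
    rw [h1] at h
    exact h
  · intro n φ
    have h1 : (fun ω => (∑ i, φ i * xi G α B0 c n ω i) ^ 2) =
        fun ω => (fun s ω => gg G α (balls G B0 c n ω) φ s ^ 2) (c n ω) ω := by
      ext ω
      simp only
      rw [(lin_xi G hN hB n φ ω).2]
    rw [h1]
    refine (cond_law G hU n (fun s ω => gg G α (balls G B0 c n ω) φ s ^ 2)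
      (fun s => (gg_meas G hU n φ s).pow_const 2)
      ((|1 / NN G| * (Fintype.card G.edgeSet * (2 * ∑ i, |φ i|))) ^ 2) (fun s ω => ?_)).trans ?_
    · rw [abs_pow]
      exact pow_le_pow_left₀ (abs_nonneg _) (gg_bound G hB n φ s ω) 2
    · refine ae_of_all _ fun ω => ?_
      have := exp_gg2 G (α := α) (balls_pos G (c := c) hB n ω) (lin_xi G (α := α) (c := c) hN hB n φ ω).1 φ
      exact this

end H483U.UrnB
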